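import Pool.Agent.helper65.LineRep

/-!
# Existence of the heat kernel of a weighted line
-/

open MeasureTheory Filter Topology Set Metric
open scoped ENNReal NNReal InnerProductSpace

namespace Pool.Agent.helper65.MMS

variable {w : ℝ → ℝ}

theorem exists_heatKernel (hw : IsWeight w) :
    ∃ p : ℝ → ℝ → ℝ → ℝ, IsHeatKernel (wm w) p := by
  obtain ⟨P, hsym, hadd, hflow, hen⟩ :=
    (cheegerL_isQuad (isIH hw)).exists_semigroup (dense_domain hw)
  -- continuous representatives
  have hrep : ∀ t, 0 < t → ∀ f : Lp ℝ 2 (wm w), ∃ U : ℝ → ℝ, Continuous U ∧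
      P t f =ᵐ[volume] U ∧
      (∀ x y, |U x - U y| ≤ Real.sqrt |x - y| *
        Real.sqrt (2 * (cheegerL (wm w) (P t f)).toReal)) ∧
      ∀ x, |U x| ≤ ‖P t f‖ + Real.sqrt (2 * (cheegerL (wm w) (P t f)).toReal) :=
    fun t ht f => exists_rep hw (P t f) (hen t ht f).1
  choose! U hUc hUe hUh hUb using hrep
  have hen' : ∀ t, 0 < t → ∀ f : Lp ℝ 2 (wm w),
      Real.sqrt (2 * (cheegerL (wm w) (P t f)).toReal) ≤ Real.sqrt (2 / t) * ‖f‖ := by
    intro t ht f
    have h1 := (hen t ht f).2
    have h2 : 2 * (cheegerL (wm w) (P t f)).toReal ≤ (2 / t) * ‖f‖ ^ 2 := by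
      rw [div_mul_eq_mul_div, le_div_iff₀ ht]
      linarith
    calc _ ≤ Real.sqrt ((2 / t) * ‖f‖ ^ 2) := Real.sqrt_le_sqrt h2
      _ = _ := by rw [Real.sqrt_mul (by positivity), Real.sqrt_sq (norm_nonneg _)]
  -- the norm of `P t`
  have hPb : ∀ t, ∃ C, 0 ≤ C ∧ ∀ f : Lp ℝ 2 (wm w), ‖P t f‖ ≤ C * ‖f‖ :=
    fun t => ⟨‖P t‖, norm_nonneg _, fun f => (P t).le_opNorm f⟩
  -- evaluation functionals
  have hk : ∀ t, 0 < t → ∀ x : ℝ, ∃ k : Lp ℝ 2 (wm w), ∀ f : Lp ℝ 2 (wm w), ⟪k, f⟫_ℝ = U t f x := by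
    intro t ht x
    obtain ⟨C, hC0, hC⟩ := hPb t
    let L : Lp ℝ 2 (wm w) →ₗ[ℝ] ℝ :=
      { toFun := fun f => U t f x
        map_add' := by
          intro f g
          have h1 : U t (f + g) = fun x => U t f x + U t g x := by
            refine (Continuous.ae_eq_iff_eq volume (hUc t ht (f + g))
              ((hUc t ht f).add (hUc t ht g))).1 ?_
            have h2 : P t (f + g) =ᵐ[volume] P t f + P t g := by
              rw [map_add]
              exact (ae_wm_iff hw).1 (Lp.coeFn_add _ _)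
            filter_upwards [hUe t ht (f + g), hUe t ht f, hUe t ht g, h2] with y e1 e2 e3 e4
            change _ = U t f y + U t g y
            rw [← e1, ← e2, ← e3, e4]
            rfl
          rw [h1]
        map_smul' := by
          intro c f
          have h1 : U t (c • f) = fun x => c * U t f x := by
            refine (Continuous.ae_eq_iff_eq volume (hUc t ht (c • f))
              ((hUc t ht f).const_mul c)).1 ?_
            have h2 : P t (c • f) =ᵐ[volume] c • P t f := by
              rw [map_smul]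
              exact (ae_wm_iff hw).1 (Lp.coeFn_smul _ _)
            filter_upwards [hUe t ht (c • f), hUe t ht f, h2] with y e1 e2 e4
            rw [← e1, ← e2, e4]
            rfl
          rw [h1]
          rfl }
    have hbd : ∀ f, ‖L f‖ ≤ (C + Real.sqrt (2 / t)) * ‖f‖ := by
      intro f
      have h1 := hUb t ht f x
      have h2 := hen' t ht f
      have h3 := hC f
      change |U t f x| ≤ _
      rw [add_mul]
      linarith
    refine ⟨(InnerProductSpace.toDual ℝ (Lp ℝ 2 (wm w))).symm (L.mkContinuous _ hbd), fun f => ?_⟩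
    rw [InnerProductSpace.toDual_symm_apply]
    rfl
  choose! k hk using hk
  have hkh : ∀ t, 0 < t → ∀ x y : ℝ, ‖k t x - k t y‖ ≤ Real.sqrt |x - y| * Real.sqrt (2 / t) := by
    intro t ht x y
    have h1 : ‖k t x - k t y‖ ^ 2 ≤
        (Real.sqrt |x - y| * Real.sqrt (2 / t)) * ‖k t x - k t y‖ := by
      rw [← real_inner_self_eq_norm_sq, inner_sub_left, hk t ht, hk t ht]
      refine (le_abs_self _).trans ((hUh t ht _ x y).trans ?_)
      rw [mul_assoc]
      exact mul_le_mul_of_nonneg_left (hen' t ht _) (Real.sqrt_nonneg _)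
    by_cases h0 : ‖k t x - k t y‖ = 0
    · rw [h0]
      positivity
    · have h2 : 0 < ‖k t x - k t y‖ := lt_of_le_of_ne (norm_nonneg _) (Ne.symm h0)
      rw [sq] at h1
      exact le_of_mul_le_mul_right h1 h2
  have hkc : ∀ t, 0 < t → Continuous (k t) := by
    intro t ht
    rw [continuous_iff_continuousAt]
    intro x
    rw [ContinuousAt, tendsto_iff_norm_sub_tendsto_zero]
    have h1 : Tendsto (fun y => Real.sqrt |y - x| * Real.sqrt (2 / t)) (𝓝 x) (𝓝 0) := by
      have : Continuous fun y => Real.sqrt |y - x| * Real.sqrt (2 / t) := by fun_prop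
      simpa using this.tendsto x
    exact squeeze_zero (fun y => norm_nonneg _) (fun y => hkh t ht y x) h1
  refine ⟨fun t x y => ⟪k (t / 2) x, k (t / 2) y⟫_ℝ, ?_, ?_⟩
  · intro t ht
    have ht2 : 0 < t / 2 := half_pos ht
    exact ((hkc _ ht2).comp continuous_fst).inner ((hkc _ ht2).comp continuous_snd)
  · intro f
    refine ⟨fun t => P t f, hflow f, fun t ht => ?_⟩
    have ht2 : 0 < t / 2 := half_pos ht
    refine (ae_wm_iff hw).2 ?_
    filter_upwards [hUe t ht f] with x hx
    -- the kernel is the flow of the evaluation functional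
    have h1 : ∀ᵐ y ∂(wm w), ⟪k (t / 2) x, k (t / 2) y⟫_ℝ = P (t / 2) (k (t / 2) x) y := by
      refine (ae_wm_iff hw).2 ?_
      filter_upwards [hUe (t / 2) ht2 (k (t / 2) x)] with y hy
      rw [hy, ← hk (t / 2) ht2, real_inner_comm]
    have h2 : (fun y => ⟪k (t / 2) x, k (t / 2) y⟫_ℝ * f y) =ᵐ[wm w]
        fun y => P (t / 2) (k (t / 2) x) y * f y := by
      filter_upwards [h1] with y hy
      rw [hy]
    have h3 : Integrable (fun y => P (t / 2) (k (t / 2) x) y * f y) (wm w) :=
      (Lp.memLp (P (t / 2) (k (t / 2) x))).integrable_mul (Lp.memLp f)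
    refine ⟨h3.congr h2.symm, ?_⟩
    rw [integral_congr_ae h2, hx]
    have h4 : ∫ y, P (t / 2) (k (t / 2) x) y * f y ∂(wm w) = ⟪P (t / 2) (k (t / 2) x), f⟫_ℝ := by
      rw [L2.inner_def]
      refine integral_congr_ae (Eventually.of_forall fun y => ?_)
      simp only [RCLike.inner_apply, conj_trivial]
      ring
    rw [h4, hsym _ ht2.le, hk _ ht2]
    have h5 : U t f = U (t / 2) (P (t / 2) f) := by
      refine (Continuous.ae_eq_iff_eq volume (hUc t ht f) (hUc _ ht2 _)).1 ?_
      have h6 : P t f = P (t / 2) (P (t / 2) f) := by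
        rw [← hadd _ _ ht2.le ht2.le, add_halves]
      have h7 := hUe _ ht2 (P (t / 2) f)
      rw [← h6] at h7
      exact (hUe t ht f).symm.trans h7
    rw [h5]

end Pool.Agent.helper65.MMS
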