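import Mathlib

/-!
# The semigroup generated by a bounded nonnegative symmetric operator
-/

open Filter Topology Set Metric NormedSpace
open scoped InnerProductSpace

namespace Pool.Agent.helper65.MMS

variable {E : Type*} [NormedAddCommGroup E] [InnerProductSpace ℝ E] [CompleteSpace E]

/-- `S` is symmetric and nonnegative. -/
structure SymPos (S : E →L[ℝ] E) : Prop where
  sym : ∀ x y, ⟪S x, y⟫_ℝ = ⟪x, S y⟫_ℝ
  pos : ∀ x, 0 ≤ ⟪S x, x⟫_ℝ

/-- The semigroup `e^{-tS}`. -/
noncomputable def expS (S : E →L[ℝ] E) (t : ℝ) : E →L[ℝ] E := exp (t • (-S))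

omit [CompleteSpace E] in
theorem expS_zero (S : E →L[ℝ] E) : expS S 0 = 1 := by
  unfold expS
  rw [zero_smul, exp_zero]

theorem expS_hasDerivAt (S : E →L[ℝ] E) (t : ℝ) :
    HasDerivAt (expS S) (-(S * expS S t)) t := by
  have h := hasDerivAt_exp_smul_const' (𝕂 := ℝ) (-S) t
  rw [neg_mul] at h
  exact h

omit [CompleteSpace E] in
theorem expS_commute {S T : E →L[ℝ] E} (h : Commute T S) (t : ℝ) : Commute T (expS S t) := by
  have h1 : Commute T (t • (-S)) := (h.neg_right).smul_right t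
  exact h1.exp_right

theorem expS_add (S : E →L[ℝ] E) (s t : ℝ) : expS S (s + t) = expS S s * expS S t := by
  unfold expS
  let _ : NormedAlgebra ℚ (E →L[ℝ] E) := NormedAlgebra.restrictScalars ℚ ℝ (E →L[ℝ] E)
  rw [add_smul]
  exact exp_add_of_commute (((Commute.refl (-S)).smul_left s).smul_right t)

theorem expS_apply_hasDerivAt (S : E →L[ℝ] E) (f : E) (t : ℝ) :
    HasDerivAt (fun s => expS S s f) (-(S (expS S t f))) t := by
  have h1 := (expS_hasDerivAt S t).clm_apply (hasDerivAt_const t f)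
  simpa using h1

omit [CompleteSpace E] in
theorem expS_comm_apply (S : E →L[ℝ] E) (t : ℝ) (f : E) : S (expS S t f) = expS S t (S f) := by
  have h := (expS_commute (Commute.refl S) t).eq
  have h2 := congrArg (fun A : E →L[ℝ] E => A f) h
  exact h2

variable {S : E →L[ℝ] E}

theorem expS_sym (hS : SymPos S) (t : ℝ) (x y : E) :
    ⟪expS S t x, y⟫_ℝ = ⟪x, expS S t y⟫_ℝ := by
  let F : ℝ → ℝ := fun s => ⟪expS S s x, expS S (t - s) y⟫_ℝ
  have hF : ∀ s, HasDerivAt F 0 s := by
    intro s
    have h1 := expS_apply_hasDerivAt S x s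
    have h2 : HasDerivAt (fun s => expS S (t - s) y) (S (expS S (t - s) y)) s := by
      have h3 := (expS_apply_hasDerivAt S y (t - s)).scomp s ((hasDerivAt_id s).const_sub t)
      rw [neg_one_smul, neg_neg] at h3
      exact h3
    have h3 := h1.inner ℝ h2
    refine h3.congr_deriv ?_
    rw [inner_neg_left, hS.sym]
    ring
  have hconst : F t = F 0 := by
    have := is_const_of_deriv_eq_zero (f := F) (fun s => (hF s).differentiableAt)
      (fun s => (hF s).deriv) t 0
    exact this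
  simp only [F, sub_self, sub_zero, expS_zero] at hconst
  simpa using hconst

theorem expS_norm_le (hS : SymPos S) {t : ℝ} (ht : 0 ≤ t) (f : E) : ‖expS S t f‖ ≤ ‖f‖ := by
  let F : ℝ → ℝ := fun s => ‖expS S s f‖ ^ 2
  have hF : ∀ s, HasDerivAt F (2 * ⟪expS S s f, -(S (expS S s f))⟫_ℝ) s :=
    fun s => (expS_apply_hasDerivAt S f s).norm_sq
  have hanti : Antitone F := by
    refine antitone_of_deriv_nonpos (fun s => (hF s).differentiableAt) fun s => ?_
    rw [(hF s).deriv, inner_neg_right, real_inner_comm]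
    have := hS.pos (expS S s f)
    linarith
  have h := hanti ht
  simp only [F, expS_zero] at h
  exact le_of_sq_le_sq (by simpa using h) (norm_nonneg _)

theorem expS_deriv_norm_le (hS : SymPos S) {t : ℝ} (ht : 0 ≤ t) (f : E) :
    t * ‖S (expS S t f)‖ ≤ ‖f‖ := by
  let F : ℝ → ℝ := fun s => ‖expS S s f‖ ^ 2 + 2 * s * ⟪S (expS S s f), expS S s f⟫_ℝ +
    2 * s ^ 2 * ‖S (expS S s f)‖ ^ 2
  have hx : ∀ s, HasDerivAt (fun s => expS S s f) (-(S (expS S s f))) s :=
    fun s => expS_apply_hasDerivAt S f s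
  have hSx : ∀ s, HasDerivAt (fun s => S (expS S s f)) (-(S (S (expS S s f)))) s := by
    intro s
    have := S.hasFDerivAt.comp_hasDerivAt s (hx s)
    rw [map_neg] at this
    exact this
  have hF : ∀ s, HasDerivAt F (2 * ⟪expS S s f, -(S (expS S s f))⟫_ℝ +
      ((2 * 1) * ⟪S (expS S s f), expS S s f⟫_ℝ +
        (2 * s) * (⟪S (expS S s f), -(S (expS S s f))⟫_ℝ +
          ⟪-(S (S (expS S s f))), expS S s f⟫_ℝ)) +
      ((2 * (2 * s)) * ‖S (expS S s f)‖ ^ 2 +
        (2 * s ^ 2) * (2 * ⟪S (expS S s f), -(S (S (expS S s f)))⟫_ℝ))) s := by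
    intro s
    have h1 := (hx s).norm_sq
    have h2 : HasDerivAt (fun s : ℝ => 2 * s) (2 * 1) s := (hasDerivAt_id s).const_mul 2
    have h3 := (hSx s).inner ℝ (hx s)
    have h4 : HasDerivAt (fun s : ℝ => 2 * s ^ 2) (2 * (2 * s)) s := by
      have := (hasDerivAt_pow 2 s).const_mul 2
      simpa using this
    have h5 := (hSx s).norm_sq
    exact (h1.add (h2.mul h3)).add (h4.mul h5)
  have hanti : AntitoneOn F (Ici 0) := by
    refine antitoneOn_of_deriv_nonpos (convex_Ici 0)
      (fun s _ => (hF s).continuousAt.continuousWithinAt)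
      (fun s _ => (hF s).differentiableAt.differentiableWithinAt) fun s hs => ?_
    rw [(hF s).deriv]
    have hs0 : 0 ≤ s := by
      rw [interior_Ici] at hs
      exact hs.le
    set x := expS S s f with hxdef
    have e1 : ⟪x, S x⟫_ℝ = ⟪S x, x⟫_ℝ := real_inner_comm _ _
    have e2 : ⟪S (S x), x⟫_ℝ = ‖S x‖ ^ 2 := by rw [hS.sym, real_inner_self_eq_norm_sq]
    have e3 : ⟪S x, S (S x)⟫_ℝ = ⟪S (S x), S x⟫_ℝ := real_inner_comm _ _
    have e4 := hS.pos (S x)
    rw [inner_neg_right, inner_neg_right, inner_neg_left, inner_neg_right, e1, e2, e3,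
      real_inner_self_eq_norm_sq]
    have e5 : 0 ≤ s ^ 2 * ⟪S (S x), S x⟫_ℝ := mul_nonneg (sq_nonneg s) e4
    nlinarith
  have h := hanti (mem_Ici.2 le_rfl) (mem_Ici.2 ht) ht
  have h0 : F 0 = ‖f‖ ^ 2 := by
    simp [F, expS_zero]
  rw [h0] at h
  simp only [F] at h
  have h1 := sq_nonneg ‖expS S t f‖
  have h2 : 0 ≤ 2 * t * ⟪S (expS S t f), expS S t f⟫_ℝ :=
    mul_nonneg (by positivity) (hS.pos _)
  have h3 : (t * ‖S (expS S t f)‖) ^ 2 ≤ ‖f‖ ^ 2 := by
    have : 0 ≤ t ^ 2 * ‖S (expS S t f)‖ ^ 2 := by positivity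
    nlinarith
  exact le_of_sq_le_sq h3 (norm_nonneg _)

/-- Comparison of the semigroups of two commuting operators. -/
theorem expS_sub_le {T : E →L[ℝ] E} (hS : SymPos S) (hT : SymPos T) (hST : Commute S T) {t : ℝ}
    (ht : 0 ≤ t) (f : E) : ‖expS S t f - expS T t f‖ ≤ t * ‖S f - T f‖ := by
  let k : ℝ → E := fun s => expS S s (expS T (t - s) f)
  have hk : ∀ s, HasDerivAt k (-(S (expS S s (expS T (t - s) f))) +
      expS S s (T (expS T (t - s) f))) s := by
    intro s
    have h2 : HasDerivAt (fun s => expS T (t - s) f) (T (expS T (t - s) f)) s := by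
      have h3 := (expS_apply_hasDerivAt T f (t - s)).scomp s ((hasDerivAt_id s).const_sub t)
      rw [neg_one_smul, neg_neg] at h3
      exact h3
    have h1 := (expS_hasDerivAt S s).clm_apply h2
    simpa using h1
  have hbound : ∀ s ∈ Ico 0 t, ‖-(S (expS S s (expS T (t - s) f))) +
      expS S s (T (expS T (t - s) f))‖ ≤ ‖S f - T f‖ := by
    intro s hs
    have e1 : -(S (expS S s (expS T (t - s) f))) + expS S s (T (expS T (t - s) f)) =
        -(expS S s (expS T (t - s) (S f - T f))) := by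
      have h4 : S (expS T (t - s) f) = expS T (t - s) (S f) := by
        have h := (expS_commute hST (t - s)).eq
        exact congrArg (fun A : E →L[ℝ] E => A f) h
      rw [expS_comm_apply S s, expS_comm_apply T, h4, map_sub, map_sub]
      abel
    rw [e1, norm_neg]
    exact (expS_norm_le hS hs.1 _).trans (expS_norm_le hT (by linarith [hs.2]) _)
  have h := norm_image_sub_le_of_norm_deriv_le_segment' (f := k) (a := 0) (b := t)
    (fun s _ => (hk s).hasDerivWithinAt) hbound t (right_mem_Icc.2 ht)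
  simp only [k, sub_self, sub_zero, expS_zero] at h
  rw [mul_comm] at h
  simpa using h

end Pool.Agent.helper65.MMS
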