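import Pool.Agent.helper65.Resolvent
import Pool.Agent.helper65.ExpSym

/-!
# Existence of the gradient flow of a quadratic form
-/

open Filter Topology Set Metric
open scoped ENNReal NNReal InnerProductSpace

namespace Pool.Agent.helper65.MMS

variable {E : Type*} [NormedAddCommGroup E] [InnerProductSpace ℝ E]

/-- `J` is a symmetric operator with `0 ≤ J ≤ 1`. -/
structure IsJ (J : E →L[ℝ] E) : Prop where
  sym : ∀ x y, ⟪J x, y⟫_ℝ = ⟪x, J y⟫_ℝ
  pos : ∀ x, ‖J x‖ ^ 2 ≤ ⟪J x, x⟫_ℝ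

variable {J : E →L[ℝ] E}

theorem IsJ.inner_nonneg (hJ : IsJ J) (x : E) : 0 ≤ ⟪J x, x⟫_ℝ := (sq_nonneg _).trans (hJ.pos x)

theorem IsJ.norm_le (hJ : IsJ J) (x : E) : ‖J x‖ ≤ ‖x‖ := by
  have h1 := hJ.pos x
  have h2 := real_inner_le_norm (J x) x
  by_contra hcon
  rw [not_le] at hcon
  have h3 := norm_nonneg x
  nlinarith

theorem IsJ.inner_le (hJ : IsJ J) (x : E) : ⟪J x, x⟫_ℝ ≤ ‖x‖ ^ 2 := by
  have h2 := real_inner_le_norm (J x) x
  have h3 := hJ.norm_le x
  have h4 := norm_nonneg x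
  nlinarith

theorem IsJ.norm_one_sub_le (hJ : IsJ J) : ‖1 - J‖ ≤ 1 := by
  refine ContinuousLinearMap.opNorm_le_bound _ zero_le_one fun x => ?_
  rw [one_mul]
  have h1 : ‖(1 - J) x‖ ^ 2 = ‖x‖ ^ 2 - 2 * ⟪x, J x⟫_ℝ + ‖J x‖ ^ 2 := by
    have : (1 - J) x = x - J x := rfl
    rw [this, norm_sub_sq_real]
  have h2 := hJ.pos x
  rw [real_inner_comm] at h2
  have h3 : ‖(1 - J) x‖ ^ 2 ≤ ‖x‖ ^ 2 := by
    have := sq_nonneg ‖J x‖
    linarith
  exact le_of_sq_le_sq h3 (norm_nonneg _)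

variable [CompleteSpace E]

/-- The inverse of `J + ε`. -/
theorem IsJ.exists_inv (hJ : IsJ J) {ε : ℝ} (hε : 0 < ε) :
    ∃ R : E →L[ℝ] E, (J + ε • 1) * R = 1 ∧ R * (J + ε • 1) = 1 := by
  have h1 : ‖(1 + ε)⁻¹ • (1 - J)‖ < 1 := by
    rw [norm_smul, norm_inv, Real.norm_of_nonneg (by positivity : (0 : ℝ) ≤ 1 + ε)]
    have h2 := hJ.norm_one_sub_le
    have h3 : (1 + ε)⁻¹ < 1 := inv_lt_one_of_one_lt₀ (by linarith)
    have h4 : 0 < (1 + ε)⁻¹ := by positivity
    nlinarith [norm_nonneg (1 - J)]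
  obtain ⟨v, hv⟩ := isUnit_one_sub_of_norm_lt_one h1
  have h5 : J + ε • (1 : E →L[ℝ] E) = (1 + ε) • (v : E →L[ℝ] E) := by
    rw [hv, smul_sub, smul_smul, mul_inv_cancel₀ (by positivity : (1 + ε) ≠ 0), one_smul,
      add_smul, one_smul]
    abel
  refine ⟨(1 + ε)⁻¹ • (↑v⁻¹ : E →L[ℝ] E), ?_, ?_⟩
  · rw [h5, smul_mul_smul_comm, mul_inv_cancel₀ (by positivity : (1 + ε) ≠ 0), Units.mul_inv,
      one_smul]
  · rw [h5, smul_mul_smul_comm, inv_mul_cancel₀ (by positivity : (1 + ε) ≠ 0), Units.inv_mul,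
      one_smul]

/-- `R` is the inverse of `J + ε`. -/
structure IsR (J : E →L[ℝ] E) (ε : ℝ) (R : E →L[ℝ] E) : Prop where
  left : ∀ x, J (R x) + ε • R x = x
  comm : ∀ x, R (J x) = J (R x)

theorem IsJ.exists_isR (hJ : IsJ J) {ε : ℝ} (hε : 0 < ε) : ∃ R, IsR J ε R := by
  obtain ⟨R, h1, h2⟩ := hJ.exists_inv hε
  have e1 : ∀ x, J (R x) + ε • R x = x := by
    intro x
    have := congrArg (fun A : E →L[ℝ] E => A x) h1
    simpa using this
  have e2 : ∀ x, R (J x) + ε • R x = x := by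
    intro x
    have := congrArg (fun A : E →L[ℝ] E => A x) h2
    simpa using this
  refine ⟨R, e1, fun x => ?_⟩
  have := (e1 x).trans (e2 x).symm
  exact (add_right_cancel this).symm

variable {ε : ℝ} {R : E →L[ℝ] E}

omit [CompleteSpace E] in
theorem IsR.inv_comm (hR : IsR J ε R) (hJ : IsJ J) (hε : 0 < ε) {T : E →L[ℝ] E}
    (hT : ∀ x, T (J x) = J (T x)) (x : E) : R (T x) = T (R x) := by
  have h1 : J (R (T x) - T (R x)) + ε • (R (T x) - T (R x)) = 0 := by
    have e1 := hR.left (T x)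
    have e2 := congrArg T (hR.left x)
    rw [map_add, map_smul, hT] at e2
    rw [map_sub, smul_sub]
    have : J (R (T x)) + ε • R (T x) - (J (T (R x)) + ε • T (R x)) = 0 := by rw [e1, e2, sub_self]
    rw [← this]
    abel
  set y := R (T x) - T (R x) with hy
  have h2 : ⟪J y, y⟫_ℝ + ε * ‖y‖ ^ 2 = 0 := by
    rw [← real_inner_self_eq_norm_sq, ← real_inner_smul_left, ← inner_add_left, h1, inner_zero_left]
  have h3 := hJ.inner_nonneg y
  have h4 : ‖y‖ ^ 2 ≤ 0 := by
    have : ε * ‖y‖ ^ 2 ≤ 0 := by linarith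
    by_contra hcon
    rw [not_le] at hcon
    have := mul_pos hε hcon
    linarith
  have h5 : ‖y‖ = 0 := by
    have := norm_nonneg y
    nlinarith
  exact sub_eq_zero.1 (norm_eq_zero.1 h5)

omit [CompleteSpace E] in
theorem IsR.bounds (hR : IsR J ε R) (hJ : IsJ J) (hε : 0 < ε) (x : E) :
    ‖J (R x)‖ ≤ ‖x‖ ∧ ‖ε • R x‖ ≤ ‖x‖ := by
  have h1 : ‖x‖ ^ 2 = ‖J (R x)‖ ^ 2 + 2 * (ε * ⟪J (R x), R x⟫_ℝ) + ‖ε • R x‖ ^ 2 := by
    conv_lhs => rw [← hR.left x]
    rw [norm_add_sq_real, real_inner_smul_right]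
  have h2 := mul_nonneg hε.le (hJ.inner_nonneg (R x))
  constructor
  · refine le_of_sq_le_sq ?_ (norm_nonneg _)
    have := sq_nonneg ‖ε • R x‖
    linarith
  · refine le_of_sq_le_sq ?_ (norm_nonneg _)
    have := sq_nonneg ‖J (R x)‖
    linarith

/-- The bounded approximations. -/
noncomputable def appr (J R : E →L[ℝ] E) : E →L[ℝ] E := (1 - J) * R

omit [CompleteSpace E] in
theorem appr_apply (J R : E →L[ℝ] E) (x : E) : appr J R x = R x - J (R x) := rfl

omit [CompleteSpace E] in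
theorem IsR.symPos (hR : IsR J ε R) (hJ : IsJ J) (hε : 0 < ε) : SymPos (appr J R) := by
  have hRs : ∀ x y, ⟪R x, y⟫_ℝ = ⟪x, R y⟫_ℝ := by
    intro x y
    conv_lhs => rw [← hR.left y]
    conv_rhs => rw [← hR.left x]
    rw [inner_add_right, inner_add_left, hJ.sym, real_inner_smul_right, real_inner_smul_left]
  refine ⟨fun x y => ?_, fun x => ?_⟩
  · rw [appr_apply, appr_apply, inner_sub_left, inner_sub_right, hRs, ← hR.comm x, hRs, hJ.sym]
  · rw [appr_apply]
    set y := R x with hy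
    have h1 := hJ.pos y
    have h2 := hJ.inner_le y
    have h3 : ⟪y - J y, J y + ε • y⟫_ℝ =
        (⟪J y, y⟫_ℝ - ‖J y‖ ^ 2) + ε * (‖y‖ ^ 2 - ⟪J y, y⟫_ℝ) := by
      rw [inner_add_right, inner_sub_left, inner_sub_left, real_inner_smul_right,
        real_inner_smul_right, real_inner_self_eq_norm_sq, real_inner_self_eq_norm_sq,
        real_inner_comm]
      ring
    rw [hR.left x] at h3
    rw [h3]
    have h4 := mul_nonneg hε.le (sub_nonneg.2 h2)
    linarith

/-- The parameters `1 / (n + 1)`. -/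
noncomputable def eps (n : ℕ) : ℝ := 1 / ((n : ℝ) + 1)

theorem eps_pos (n : ℕ) : 0 < eps n := by
  unfold eps
  positivity

theorem tendsto_eps : Tendsto eps atTop (𝓝 0) := tendsto_one_div_add_atTop_nhds_zero_nat

omit [CompleteSpace E] in
theorem IsR.tendsto_smul {R : ℕ → E →L[ℝ] E} (hR : ∀ n, IsR J (eps n) (R n)) (hJ : IsJ J)
    (hd : DenseRange J) (g : E) : Tendsto (fun n => eps n • R n g) atTop (𝓝 0) := by
  rw [Metric.tendsto_atTop]
  intro δ hδ
  obtain ⟨h, hh⟩ := hd.exists_dist_lt g (half_pos hδ)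
  have h1 : Tendsto (fun n => eps n * (2 * ‖h‖)) atTop (𝓝 0) := by
    simpa using tendsto_eps.mul_const (2 * ‖h‖)
  obtain ⟨N, hN⟩ := eventually_atTop.1 (h1.eventually (gt_mem_nhds (half_pos hδ)))
  refine ⟨N, fun n hn => ?_⟩
  rw [dist_zero_right]
  have h2 : eps n • R n g = eps n • R n (g - J h) + eps n • R n (J h) := by
    rw [← smul_add, ← map_add]
    congr 2
    abel
  rw [h2]
  have h3 : ‖eps n • R n (g - J h)‖ ≤ ‖g - J h‖ := ((hR n).bounds hJ (eps_pos n) _).2
  have h4 : ‖eps n • R n (J h)‖ ≤ eps n * (2 * ‖h‖) := by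
    rw [(hR n).comm, norm_smul, Real.norm_of_nonneg (eps_pos n).le]
    refine mul_le_mul_of_nonneg_left ?_ (eps_pos n).le
    have := ((hR n).bounds hJ (eps_pos n) h).1
    linarith [norm_nonneg h]
  rw [dist_eq_norm] at hh
  calc _ ≤ ‖eps n • R n (g - J h)‖ + ‖eps n • R n (J h)‖ := norm_add_le _ _
    _ < δ / 2 + δ / 2 := by linarith [hN n hn]
    _ = δ := by ring

omit [CompleteSpace E] in
/-- On the range of `J` the approximations converge. -/
theorem IsR.tendsto_appr {R : ℕ → E →L[ℝ] E} (hR : ∀ n, IsR J (eps n) (R n)) (hJ : IsJ J)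
    (hd : DenseRange J) (g : E) :
    Tendsto (fun n => appr J (R n) (J g)) atTop (𝓝 (g - J g)) := by
  have h1 : ∀ n, appr J (R n) (J g) = (g - J g) - (eps n • R n g - J (eps n • R n g)) := by
    intro n
    rw [appr_apply, (hR n).comm]
    have h2 : J (R n g) = g - eps n • R n g := eq_sub_of_add_eq ((hR n).left g)
    rw [h2, map_sub]
    abel
  simp_rw [h1]
  have h3 := IsR.tendsto_smul hR hJ hd g
  have h4 := (J.continuous.tendsto 0).comp h3
  rw [map_zero] at h4
  have h5 := (h3.sub h4).const_sub (g - J g)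
  simpa using h5

omit [CompleteSpace E] in
theorem appr_commute {R : ℕ → E →L[ℝ] E} (hR : ∀ n, IsR J (eps n) (R n)) (hJ : IsJ J) (n m : ℕ) :
    Commute (appr J (R n)) (appr J (R m)) := by
  have h1 : ∀ x, R n (R m x) = R m (R n x) := by
    intro x
    exact (hR n).inv_comm hJ (eps_pos n) (fun y => (hR m).comm y) x
  refine ContinuousLinearMap.ext fun x => ?_
  change appr J (R n) (appr J (R m) x) = appr J (R m) (appr J (R n) x)
  simp only [appr_apply, map_sub, (hR n).comm, (hR m).comm, h1]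

/-- Uniform Cauchy property of the approximating flows. -/
theorem cauchy_flow {R : ℕ → E →L[ℝ] E} (hR : ∀ n, IsR J (eps n) (R n)) (hJ : IsJ J)
    (hd : DenseRange J) (g : E) {b : ℝ} (hb : 0 < b) {δ : ℝ} (hδ : 0 < δ) :
    ∃ N, ∀ n ≥ N, ∀ m ≥ N, ∀ t, 0 ≤ t → t ≤ b →
      ‖expS (appr J (R n)) t g - expS (appr J (R m)) t g‖ < δ := by
  obtain ⟨h, hh⟩ := hd.exists_dist_lt g (show 0 < δ / 4 by positivity)
  rw [dist_eq_norm] at hh
  have hc := (IsR.tendsto_appr hR hJ hd h).cauchySeq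
  obtain ⟨N, hN⟩ := Metric.cauchySeq_iff.1 hc (δ / (2 * b)) (by positivity)
  refine ⟨N, fun n hn m hm t ht htb => ?_⟩
  have h1 := (hR n).symPos hJ (eps_pos n)
  have h2 := (hR m).symPos hJ (eps_pos m)
  have h3 : expS (appr J (R n)) t g - expS (appr J (R m)) t g =
      expS (appr J (R n)) t (g - J h) - expS (appr J (R m)) t (g - J h) +
        (expS (appr J (R n)) t (J h) - expS (appr J (R m)) t (J h)) := by
    rw [map_sub, map_sub]
    abel
  rw [h3]
  have h4 := expS_norm_le h1 ht (g - J h)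
  have h5 := expS_norm_le h2 ht (g - J h)
  have h6 := expS_sub_le h1 h2 (appr_commute hR hJ n m) ht (J h)
  have h7 := hN n hn m hm
  rw [dist_eq_norm] at h7
  have h8 : t * ‖appr J (R n) (J h) - appr J (R m) (J h)‖ ≤ b * (δ / (2 * b)) := by
    gcongr
  have h9 : b * (δ / (2 * b)) = δ / 2 := by field_simp
  calc _ ≤ ‖expS (appr J (R n)) t (g - J h) - expS (appr J (R m)) t (g - J h)‖ +
        ‖expS (appr J (R n)) t (J h) - expS (appr J (R m)) t (J h)‖ := norm_add_le _ _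
    _ ≤ (‖expS (appr J (R n)) t (g - J h)‖ + ‖expS (appr J (R m)) t (g - J h)‖) +
        ‖expS (appr J (R n)) t (J h) - expS (appr J (R m)) t (J h)‖ := by
        gcongr
        exact norm_sub_le _ _
    _ < δ := by linarith

/-- Uniform Cauchy property of the derivatives. -/
theorem cauchy_deriv {R : ℕ → E →L[ℝ] E} (hR : ∀ n, IsR J (eps n) (R n)) (hJ : IsJ J)
    (hd : DenseRange J) (g : E) {a b : ℝ} (ha : 0 < a) (hb : 0 < b) {δ : ℝ} (hδ : 0 < δ) :
    ∃ N, ∀ n ≥ N, ∀ m ≥ N, ∀ t, a ≤ t → t ≤ b →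
      ‖appr J (R n) (expS (appr J (R n)) t g) - appr J (R m) (expS (appr J (R m)) t g)‖ < δ := by
  obtain ⟨h, hh⟩ := hd.exists_dist_lt g (show 0 < δ * a / 8 by positivity)
  rw [dist_eq_norm] at hh
  have hlim := IsR.tendsto_appr hR hJ hd h
  obtain ⟨N1, hN1⟩ := Metric.tendsto_atTop.1 hlim (δ / 8) (by positivity)
  obtain ⟨N2, hN2⟩ := cauchy_flow hR hJ hd (h - J h) hb (show 0 < δ / 4 by positivity)
  refine ⟨max N1 N2, fun n hn m hm t hat htb => ?_⟩
  have ht : 0 ≤ t := ha.le.trans hat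
  have h1 := (hR n).symPos hJ (eps_pos n)
  have h2 := (hR m).symPos hJ (eps_pos m)
  have key : ∀ k, SymPos (appr J (R k)) → max N1 N2 ≤ k →
      ‖appr J (R k) (expS (appr J (R k)) t g) - expS (appr J (R k)) t (h - J h)‖ < δ / 4 := by
    intro k hk hkN
    have e1 : appr J (R k) (expS (appr J (R k)) t g) - expS (appr J (R k)) t (h - J h) =
        appr J (R k) (expS (appr J (R k)) t (g - J h)) +
          expS (appr J (R k)) t (appr J (R k) (J h) - (h - J h)) := by
      rw [map_sub (expS (appr J (R k)) t) (appr J (R k) (J h)), ← expS_comm_apply _ t (J h),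
        map_sub (expS (appr J (R k)) t) g, map_sub (appr J (R k))]
      abel
    rw [e1]
    have e2 := expS_deriv_norm_le hk ht (g - J h)
    have e3 := expS_norm_le hk ht (appr J (R k) (J h) - (h - J h))
    have e4 := hN1 k ((le_max_left _ _).trans hkN)
    rw [dist_eq_norm] at e4
    have e5 : ‖appr J (R k) (expS (appr J (R k)) t (g - J h))‖ < δ / 8 := by
      have e6 : a * ‖appr J (R k) (expS (appr J (R k)) t (g - J h))‖ ≤
          t * ‖appr J (R k) (expS (appr J (R k)) t (g - J h))‖ :=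
        mul_le_mul_of_nonneg_right hat (norm_nonneg _)
      have e7 : a * ‖appr J (R k) (expS (appr J (R k)) t (g - J h))‖ < a * (δ / 8) := by
        have : a * (δ / 8) = δ * a / 8 := by ring
        rw [this]
        linarith
      exact lt_of_mul_lt_mul_left e7 ha.le
    calc _ ≤ _ := norm_add_le _ _
      _ < δ / 4 := by linarith
  have k1 := key n h1 hn
  have k2 := key m h2 hm
  have k3 := hN2 n ((le_max_right _ _).trans hn) m ((le_max_right _ _).trans hm) t ht htb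
  have e8 : appr J (R n) (expS (appr J (R n)) t g) - appr J (R m) (expS (appr J (R m)) t g) =
      (appr J (R n) (expS (appr J (R n)) t g) - expS (appr J (R n)) t (h - J h)) +
      ((expS (appr J (R n)) t (h - J h) - expS (appr J (R m)) t (h - J h)) -
      (appr J (R m) (expS (appr J (R m)) t g) - expS (appr J (R m)) t (h - J h))) := by abel
  rw [e8]
  calc _ ≤ _ := norm_add_le _ _
    _ ≤ ‖appr J (R n) (expS (appr J (R n)) t g) - expS (appr J (R n)) t (h - J h)‖ +
      (‖expS (appr J (R n)) t (h - J h) - expS (appr J (R m)) t (h - J h)‖ +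
      ‖appr J (R m) (expS (appr J (R m)) t g) - expS (appr J (R m)) t (h - J h)‖) := by
        gcongr
        exact norm_sub_le _ _
    _ < δ := by linarith

end Pool.Agent.helper65.MMS
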