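import Pool.Agent.helper65.FlowExist

/-!
# The semigroup of a quadratic form
-/

open Filter Topology Set Metric
open scoped ENNReal NNReal InnerProductSpace

namespace Pool.Agent.helper65.MMS

variable {E : Type*} [NormedAddCommGroup E] [InnerProductSpace ℝ E] {Φ : E → ℝ≥0∞}

theorem InSubdiff.le_inner (hΦ : IsQuad Φ) {u w : E} (h : InSubdiff Φ u w) :
    (Φ u).toReal ≤ ⟪w, u⟫_ℝ := by
  have h0 := hΦ.zero h.1
  have h1 := h.2 0 (by rw [h0]; exact ENNReal.zero_ne_top)
  rw [h0, zero_sub, inner_neg_right] at h1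
  simp only [ENNReal.toReal_zero] at h1
  linarith

theorem InSubdiff.closed (hΦ : IsQuad Φ) {u w : ℕ → E} {u' w' : E}
    (h : ∀ n, InSubdiff Φ (u n) (w n)) (hu : Tendsto u atTop (𝓝 u'))
    (hw : Tendsto w atTop (𝓝 w')) : InSubdiff Φ u' w' := by
  have key : ∀ g, Φ g ≠ ∞ → Φ u' ≤ ENNReal.ofReal ((Φ g).toReal - ⟪w', g - u'⟫_ℝ) ∧
      0 ≤ (Φ g).toReal - ⟪w', g - u'⟫_ℝ := by
    intro g hg
    have hlim : Tendsto (fun n => (Φ g).toReal - ⟪w n, g - u n⟫_ℝ) atTop
        (𝓝 ((Φ g).toReal - ⟪w', g - u'⟫_ℝ)) := (hw.inner (hu.const_sub g)).const_sub _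
    constructor
    · refine le_of_forall_lt fun c hc => ?_
      obtain ⟨c', hcc', hc'⟩ := exists_between hc
      have hc'top : c' ≠ ∞ := ne_top_of_lt hc'
      have h1 := hu.eventually (hΦ.lsc u' c' hc')
      have h2 : ∀ᶠ n in atTop, c'.toReal ≤ (Φ g).toReal - ⟪w n, g - u n⟫_ℝ := by
        filter_upwards [h1] with n hn
        have h3 : c'.toReal ≤ (Φ (u n)).toReal := ENNReal.toReal_mono (h n).1 hn.le
        have h4 := (h n).2 g hg
        linarith
      have h4 := ge_of_tendsto hlim h2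
      refine lt_of_lt_of_le hcc' ?_
      rw [← ENNReal.ofReal_toReal hc'top]
      exact ENNReal.ofReal_le_ofReal h4
    · refine ge_of_tendsto' hlim fun n => ?_
      have h4 := (h n).2 g hg
      have h5 : 0 ≤ (Φ (u n)).toReal := ENNReal.toReal_nonneg
      linarith
  refine ⟨ne_top_of_le_ne_top ENNReal.ofReal_ne_top (key (u 0) (h 0).1).1, fun g hg => ?_⟩
  obtain ⟨h1, h2⟩ := key g hg
  have := ENNReal.toReal_le_of_le_ofReal h2 h1
  linarith

variable [CompleteSpace E]

/-- The resolvent operator. -/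
theorem IsQuad.exists_resolvent (hΦ : IsQuad Φ) (hd : Dense {f | Φ f ≠ ∞}) :
    ∃ J : E →L[ℝ] E, IsJ J ∧ DenseRange J ∧ ∀ r, IsRes Φ r (J r) := by
  have hne : ∃ f, Φ f ≠ ∞ := hd.nonempty
  choose j hj using fun r => hΦ.exists_isRes hne r
  let L : E →ₗ[ℝ] E :=
    { toFun := j
      map_add' := fun x y => (IsRes.unique hΦ ((hj x).add hΦ (hj y)) (hj (x + y))).symm
      map_smul' := fun c x => (IsRes.unique hΦ ((hj x).smul hΦ c) (hj (c • x))).symm }
  have hpos : ∀ x, ‖j x‖ ^ 2 ≤ ⟪j x, x⟫_ℝ := by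
    intro x
    have h1 := (hj x).inner_eq hΦ
    rw [real_inner_comm] at h1
    rw [h1]
    have := ENNReal.toReal_nonneg (a := Φ (j x))
    linarith
  have hbd : ∀ x, ‖L x‖ ≤ 1 * ‖x‖ := by
    intro x
    rw [one_mul]
    have h1 := hpos x
    have h2 := real_inner_le_norm (j x) x
    change ‖j x‖ ≤ ‖x‖
    by_contra hcon
    rw [not_le] at hcon
    have h3 := norm_nonneg x
    nlinarith
  let J : E →L[ℝ] E := L.mkContinuous 1 hbd
  have hJj : ∀ x, J x = j x := fun x => rfl
  have hJ : IsJ J := ⟨fun x y => (hj x).symm_inner (hj y), hpos⟩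
  refine ⟨J, hJ, ?_, hj⟩
  have h1 : (LinearMap.range (J : E →ₗ[ℝ] E)).topologicalClosure = ⊤ := by
    rw [Submodule.topologicalClosure_eq_top_iff, Submodule.eq_bot_iff]
    intro g hg
    rw [Submodule.mem_orthogonal] at hg
    have h2 : ⟪J g, g⟫_ℝ = 0 := hg _ ⟨g, rfl⟩
    have h3 : j g = 0 := by
      have := hpos g
      rw [← hJj, h2] at this
      have h4 : ‖J g‖ = 0 := by
        have := norm_nonneg (J g)
        nlinarith
      exact norm_eq_zero.1 h4
    have h4 : ∀ h ∈ {f | Φ f ≠ ∞}, ⟪g, h⟫_ℝ = 0 := by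
      intro h hh
      have h5 := (hj g).2 h hh
      rw [h3, zero_add, sub_zero, hΦ.zero hh] at h5
      simp only [ENNReal.toReal_zero] at h5
      linarith
    have h5 : IsClosed {h : E | ⟪g, h⟫_ℝ = 0} :=
      isClosed_eq (continuous_const.inner continuous_id) continuous_const
    have h6 : closure {f | Φ f ≠ ∞} ⊆ {h : E | ⟪g, h⟫_ℝ = 0} := closure_minimal h4 h5
    have h7 : ⟪g, g⟫_ℝ = 0 := h6 (hd.closure_eq ▸ mem_univ g)
    exact inner_self_eq_zero.1 h7
  intro x
  have h2 : x ∈ (LinearMap.range (J : E →ₗ[ℝ] E)).topologicalClosure := by rw [h1]; trivial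
  rw [← SetLike.mem_coe, Submodule.topologicalClosure_coe] at h2
  exact h2

/-- The semigroup of a densely defined lower semicontinuous quadratic form. -/
theorem IsQuad.exists_semigroup (hΦ : IsQuad Φ) (hd : Dense {f | Φ f ≠ ∞}) :
    ∃ P : ℝ → E →L[ℝ] E, (∀ t, 0 ≤ t → ∀ x y, ⟪P t x, y⟫_ℝ = ⟪x, P t y⟫_ℝ) ∧
      (∀ s t, 0 ≤ s → 0 ≤ t → ∀ f, P (s + t) f = P s (P t f)) ∧
      (∀ f, IsGradFlow Φ f (fun t => P t f)) ∧
      (∀ t, 0 < t → ∀ f, Φ (P t f) ≠ ∞ ∧ t * (Φ (P t f)).toReal ≤ ‖f‖ ^ 2) := by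
  obtain ⟨J, hJ, hJd, hJr⟩ := hΦ.exists_resolvent hd
  choose R hR using fun n => hJ.exists_isR (eps_pos n)
  set S : ℕ → E →L[ℝ] E := fun n => appr J (R n) with hS
  have hSp : ∀ n, SymPos (S n) := fun n => (hR n).symPos hJ (eps_pos n)
  have hlim : ∀ t : ℝ, 0 ≤ t → ∀ g, ∃ L, Tendsto (fun n => expS (S n) t g) atTop (𝓝 L) := by
    intro t ht g
    refine cauchySeq_tendsto_of_complete (Metric.cauchySeq_iff.2 fun δ hδ => ?_)
    obtain ⟨N, hN⟩ := cauchy_flow hR hJ hJd g (show 0 < t + 1 by positivity) hδ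
    refine ⟨N, fun n hn m hm => ?_⟩
    rw [dist_eq_norm]
    exact hN n hn m hm t ht (by linarith)
  have hP : ∀ t : ℝ, 0 ≤ t → ∃ P : E →L[ℝ] E, ∀ g,
      Tendsto (fun n => expS (S n) t g) atTop (𝓝 (P g)) := by
    intro t ht
    choose L hL using hlim t ht
    let L' : E →ₗ[ℝ] E :=
      { toFun := L
        map_add' := fun x y => by
          refine tendsto_nhds_unique (hL (x + y)) (((hL x).add (hL y)).congr fun n => ?_)
          rw [map_add]
        map_smul' := fun c x => by
          refine tendsto_nhds_unique (hL (c • x)) (((hL x).const_smul c).congr fun n => ?_)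
          rw [map_smul] }
    refine ⟨L'.mkContinuous 1 fun x => ?_, hL⟩
    rw [one_mul]
    exact le_of_tendsto' (hL x).norm fun n => expS_norm_le (hSp n) ht x
  choose! P hP using hP
  have hPn : ∀ t, 0 ≤ t → ∀ f, ‖P t f‖ ≤ ‖f‖ := fun t ht f =>
    le_of_tendsto' (hP t ht f).norm fun n => expS_norm_le (hSp n) ht f
  -- derivatives
  have hlimW : ∀ f, ∀ t : ℝ, 0 < t → ∃ L, Tendsto (fun n => S n (expS (S n) t f)) atTop (𝓝 L) := by
    intro f t ht
    refine cauchySeq_tendsto_of_complete (Metric.cauchySeq_iff.2 fun δ hδ => ?_)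
    obtain ⟨N, hN⟩ := cauchy_deriv hR hJ hJd f ht ht hδ
    refine ⟨N, fun n hn m hm => ?_⟩
    rw [dist_eq_norm]
    exact hN n hn m hm t le_rfl le_rfl
  choose! W hW using hlimW
  have hWn : ∀ f t, 0 < t → t * ‖W f t‖ ≤ ‖f‖ := fun f t ht =>
    le_of_tendsto' ((hW f t ht).norm.const_mul t) fun n => expS_deriv_norm_le (hSp n) ht.le f
  have hder : ∀ f t, 0 < t → HasDerivAt (fun t => P t f) (-(W f t)) t := by
    intro f t ht
    refine hasDerivAt_of_tendstoUniformlyOn (l := atTop) (s := Ioo (t / 2) (2 * t)) isOpen_Ioo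
      (f := fun n t => expS (S n) t f) (f' := fun n t => -(S n (expS (S n) t f)))
      (g' := fun t => -(W f t)) ?_ ?_ ?_ ⟨by linarith, by linarith⟩
    · rw [Metric.tendstoUniformlyOn_iff]
      intro δ hδ
      obtain ⟨N, hN⟩ := cauchy_deriv hR hJ hJd f (half_pos ht) (show 0 < 2 * t by positivity)
        (half_pos hδ)
      filter_upwards [eventually_ge_atTop N] with n hn s hs
      have hs0 : 0 < s := lt_trans (by positivity) hs.1
      rw [dist_neg_neg, dist_comm, dist_eq_norm]
      have h1 : Tendsto (fun m => ‖S n (expS (S n) s f) - S m (expS (S m) s f)‖) atTop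
          (𝓝 ‖S n (expS (S n) s f) - W f s‖) := ((hW f s hs0).const_sub _).norm
      have h2 : ‖S n (expS (S n) s f) - W f s‖ ≤ δ / 2 := by
        refine le_of_tendsto h1 ?_
        filter_upwards [eventually_ge_atTop N] with m hm
        exact (hN n hn m hm s hs.1.le hs.2.le).le
      linarith
    · exact Eventually.of_forall fun n s _ => expS_apply_hasDerivAt (S n) f s
    · exact fun s hs => hP s (lt_trans (by positivity) hs.1).le f
  -- the subdifferential
  have hsub : ∀ f t, 0 < t → InSubdiff Φ (P t f) (W f t) := by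
    intro f t ht
    have h1 : ∀ n, InSubdiff Φ (J (R n (expS (S n) t f))) (S n (expS (S n) t f)) :=
      fun n => (hJr (R n (expS (S n) t f))).inSubdiff hΦ
    have h2 : Tendsto (fun n => J (R n (expS (S n) t f))) atTop (𝓝 (P t f)) := by
      have h3 : ∀ n, J (R n (expS (S n) t f)) =
          expS (S n) t f - eps n • R n (expS (S n) t f) :=
        fun n => eq_sub_of_add_eq ((hR n).left _)
      have h4 : ∀ n, ‖R n (expS (S n) t f)‖ ≤ ‖f‖ / t + ‖f‖ := by
        intro n
        have e1 : R n (expS (S n) t f) = S n (expS (S n) t f) + J (R n (expS (S n) t f)) := by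
          simp only [hS, appr_apply]
          abel
        rw [e1]
        refine (norm_add_le _ _).trans (add_le_add ?_ ?_)
        · rw [le_div_iff₀ ht, mul_comm]
          exact expS_deriv_norm_le (hSp n) ht.le f
        · exact ((hR n).bounds hJ (eps_pos n) _).1.trans (expS_norm_le (hSp n) ht.le f)
      have h5 : Tendsto (fun n => eps n • R n (expS (S n) t f)) atTop (𝓝 0) := by
        have h6 : Tendsto (fun n => eps n * (‖f‖ / t + ‖f‖)) atTop (𝓝 0) := by
          simpa using tendsto_eps.mul_const (‖f‖ / t + ‖f‖)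
        refine squeeze_zero_norm (fun n => ?_) h6
        rw [norm_smul, Real.norm_of_nonneg (eps_pos n).le]
        exact mul_le_mul_of_nonneg_left (h4 n) (eps_pos n).le
      simp_rw [h3]
      simpa using (hP t ht.le f).sub h5
    exact InSubdiff.closed hΦ h1 h2 (hW f t ht)
  refine ⟨P, ?_, ?_, ?_, ?_⟩
  · intro t ht x y
    refine tendsto_nhds_unique ((hP t ht x).inner tendsto_const_nhds)
      (((tendsto_const_nhds (x := x)).inner (hP t ht y)).congr fun n => ?_)
    rw [expS_sym (hSp n)]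
  · intro s t hs ht f
    have h1 : Tendsto (fun n => expS (S n) s (expS (S n) t f)) atTop (𝓝 (P s (P t f))) := by
      have h2 : ∀ n, expS (S n) s (expS (S n) t f) =
          expS (S n) s (P t f) + expS (S n) s (expS (S n) t f - P t f) := by
        intro n
        rw [← map_add]
        congr 1
        abel
      simp_rw [h2]
      have h3 : Tendsto (fun n => expS (S n) s (expS (S n) t f - P t f)) atTop (𝓝 0) := by
        refine squeeze_zero_norm (fun n => expS_norm_le (hSp n) hs _) ?_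
        have := (hP t ht f).sub_const (P t f)
        rw [sub_self] at this
        simpa using this.norm
      simpa using (hP s hs (P t f)).add h3
    refine tendsto_nhds_unique ((hP (s + t) (by positivity) f).congr fun n => ?_) h1
    rw [expS_add]
    rfl
  · intro f
    refine ⟨?_, fun t ht => ⟨-(W f t), hder f t ht, ?_⟩⟩
    · rw [Metric.tendsto_nhdsWithin_nhds]
      intro δ hδ
      obtain ⟨h, hh⟩ := hJd.exists_dist_lt f (show 0 < δ / 4 by positivity)
      rw [dist_eq_norm] at hh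
      have hb : ∀ t, 0 ≤ t → ‖P t (J h) - J h‖ ≤ t * ‖h - J h‖ := by
        intro t ht
        have h1 : ∀ n, ‖expS (S n) t (J h) - J h‖ ≤ t * ‖S n (J h)‖ := by
          intro n
          have h2 := expS_sub_le (hSp n) (T := 0) ⟨by simp, by simp⟩ (Commute.zero_right _) ht (J h)
          have h3 : expS (0 : E →L[ℝ] E) t = 1 := by
            unfold expS
            rw [neg_zero, smul_zero, NormedSpace.exp_zero]
          rw [h3] at h2
          simpa using h2
        exact le_of_tendsto_of_tendsto' ((hP t ht (J h)).sub_const _).norm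
          ((IsR.tendsto_appr hR hJ hJd h).norm.const_mul t) h1
      refine ⟨δ / (2 * (‖h - J h‖ + 1)), by positivity, fun t ht htd => ?_⟩
      rw [dist_zero_right, Real.norm_of_nonneg (le_of_lt ht)] at htd
      rw [dist_eq_norm]
      have h1 : P t f - f = P t (f - J h) + (P t (J h) - J h) - (f - J h) := by
        rw [map_sub]
        abel
      rw [h1]
      have h2 := hPn t (le_of_lt ht) (f - J h)
      have h3 := hb t (le_of_lt ht)
      have h4 : t * ‖h - J h‖ ≤ δ / 2 := by
        have h5 : t * (2 * (‖h - J h‖ + 1)) < δ := (lt_div_iff₀ (by positivity)).1 htd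
        have h6 : 0 ≤ t := le_of_lt ht
        nlinarith [norm_nonneg (h - J h)]
      calc _ ≤ ‖P t (f - J h) + (P t (J h) - J h)‖ + ‖f - J h‖ := norm_sub_le _ _
        _ ≤ ‖P t (f - J h)‖ + ‖P t (J h) - J h‖ + ‖f - J h‖ := by
            gcongr
            exact norm_add_le _ _
        _ < δ := by linarith
    · rw [neg_neg]
      exact hsub f t ht
  · intro t ht f
    have h1 := hsub f t ht
    refine ⟨h1.1, ?_⟩
    have h2 := h1.le_inner hΦ
    have h3 := real_inner_le_norm (W f t) (P t f)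
    have h4 := hWn f t ht
    have h5 := hPn t ht.le f
    calc t * (Φ (P t f)).toReal ≤ t * (‖W f t‖ * ‖P t f‖) := by gcongr; linarith
      _ = (t * ‖W f t‖) * ‖P t f‖ := by ring
      _ ≤ ‖f‖ * ‖f‖ := mul_le_mul h4 h5 (norm_nonneg _) (norm_nonneg _)
      _ = _ := by ring

end Pool.Agent.helper65.MMS
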