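import Mathlib

/-!
# Gradient flows of quadratic forms on a Hilbert space
-/

open MeasureTheory Filter Topology Set Metric
open scoped ENNReal NNReal InnerProductSpace

namespace Pool.Agent.helper65.MMS

variable {E : Type*} [NormedAddCommGroup E] [InnerProductSpace ℝ E]

/-- `w` belongs to the subdifferential of `Φ` at `u`: `Φ g ≥ Φ u + ⟪w, g - u⟫` for every `g`. -/
def InSubdiff (Φ : E → ℝ≥0∞) (u w : E) : Prop :=
  Φ u ≠ ∞ ∧ ∀ g : E, Φ g ≠ ∞ → (Φ u).toReal + ⟪w, g - u⟫_ℝ ≤ (Φ g).toReal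

/-- `u : (0, ∞) → E` is the gradient flow of `Φ` starting from `f`: `u` is differentiable on
`(0, ∞)`, `-u'(t)` is in the subdifferential of `Φ` at `u t`, and `u t → f` as `t → 0`. -/
def IsGradFlow (Φ : E → ℝ≥0∞) (f : E) (u : ℝ → E) : Prop :=
  Tendsto u (𝓝[>] 0) (𝓝 f) ∧ ∀ t : ℝ, 0 < t → ∃ v : E, HasDerivAt u v t ∧ InSubdiff Φ (u t) (-v)

/-- `Φ` is a lower semicontinuous extended quadratic form. -/
structure IsQuad (Φ : E → ℝ≥0∞) : Prop where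
  smul : ∀ (c : ℝ) (f : E), c ≠ 0 → Φ (c • f) = ENNReal.ofReal (c ^ 2) * Φ f
  par : ∀ f g : E, Φ (f + g) + Φ (f - g) = 2 * Φ f + 2 * Φ g
  lsc : LowerSemicontinuous Φ

variable {Φ : E → ℝ≥0∞}

/-- `⟪w, u⟫ ≤ 2 Φ u` for `w` in the subdifferential at `u`. -/
theorem InSubdiff.inner_self_le (hΦ : IsQuad Φ) {u w : E} (h : InSubdiff Φ u w) :
    ⟪w, u⟫_ℝ ≤ 2 * (Φ u).toReal := by
  obtain ⟨hu, hs⟩ := h
  have key : ∀ ε : ℝ, 0 < ε → ⟪w, u⟫_ℝ ≤ (2 + ε) * (Φ u).toReal := by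
    intro ε hε
    have h1 : Φ ((1 + ε) • u) = ENNReal.ofReal ((1 + ε) ^ 2) * Φ u :=
      hΦ.smul _ _ (by positivity)
    have h2 : Φ ((1 + ε) • u) ≠ ∞ := by
      rw [h1]
      exact ENNReal.mul_ne_top ENNReal.ofReal_ne_top hu
    have h3 := hs _ h2
    rw [h1, ENNReal.toReal_mul, ENNReal.toReal_ofReal (by positivity)] at h3
    have h4 : (1 + ε) • u - u = ε • u := by
      rw [add_smul, one_smul]
      abel
    rw [h4, real_inner_smul_right] at h3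
    have h5 : ε * ⟪w, u⟫_ℝ ≤ ε * ((2 + ε) * (Φ u).toReal) := by
      have : (1 + ε) ^ 2 * (Φ u).toReal = (Φ u).toReal + ε * ((2 + ε) * (Φ u).toReal) := by ring
      linarith
    exact le_of_mul_le_mul_left h5 hε
  have h6 : Tendsto (fun ε : ℝ => (2 + ε) * (Φ u).toReal) (𝓝[>] 0)
      (𝓝 ((2 + 0) * (Φ u).toReal)) := by
    refine Tendsto.mono_left ?_ nhdsWithin_le_nhds
    exact (Continuous.tendsto (by fun_prop) 0)
  rw [add_zero] at h6
  refine ge_of_tendsto h6 ?_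
  filter_upwards [self_mem_nhdsWithin] with ε hε
  exact key ε hε

theorem hasDerivAt_half_sq {f v : E} {u : ℝ → E} {t : ℝ} (h : HasDerivAt u v t) :
    HasDerivAt (fun s => (1 / 2 : ℝ) * ‖u s - f‖ ^ 2) ⟪v, u t - f⟫_ℝ t := by
  have h1 := (h.sub_const f).norm_sq.const_mul (1 / 2 : ℝ)
  refine h1.congr_deriv ?_
  rw [real_inner_comm]
  ring

theorem hasDerivAt_inner {f v : E} {u : ℝ → E} {t : ℝ} (h : HasDerivAt u v t) :
    HasDerivAt (fun s => ⟪u s, f⟫_ℝ) ⟪v, f⟫_ℝ t := by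
  have h1 := h.inner ℝ (hasDerivAt_const t f)
  simpa using h1

/-- The upper bound `⟪f - u t, f⟫ ≤ 2 t Φ f` for the gradient flow `u` of `Φ` from `f`. -/
theorem IsGradFlow.upper (hΦ : IsQuad Φ) {f : E} {u : ℝ → E} (hu : IsGradFlow Φ f u)
    (hf : Φ f ≠ ∞) {t : ℝ} (ht : 0 < t) : ⟪f - u t, f⟫_ℝ ≤ 2 * t * (Φ f).toReal := by
  obtain ⟨h0, hd⟩ := hu
  choose! v hv hsub using hd
  let G : ℝ → ℝ := fun s => (1 / 2 : ℝ) * ‖u s - f‖ ^ 2 - ⟪u s, f⟫_ℝ - 2 * (Φ f).toReal * s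
  have hG : ∀ s, 0 < s → HasDerivAt G (⟪v s, u s - f⟫_ℝ - ⟪v s, f⟫_ℝ - 2 * (Φ f).toReal) s := by
    intro s hs
    have h1 := ((hasDerivAt_half_sq (f := f) (hv s hs)).sub (hasDerivAt_inner (f := f) (hv s hs))).sub
      ((hasDerivAt_id s).const_mul (2 * (Φ f).toReal))
    rw [mul_one] at h1
    exact h1
  have hneg : ∀ s, 0 < s → ⟪v s, u s - f⟫_ℝ - ⟪v s, f⟫_ℝ - 2 * (Φ f).toReal ≤ 0 := by
    intro s hs
    have h1 := (hsub s hs).2 f hf
    have h2 := (hsub s hs).inner_self_le hΦ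
    rw [inner_neg_left] at h1 h2
    have h3 : ⟪v s, f - u s⟫_ℝ = -⟪v s, u s - f⟫_ℝ := by
      rw [← inner_neg_right, neg_sub]
    have h4 : ⟪v s, u s - f⟫_ℝ = ⟪v s, u s⟫_ℝ - ⟪v s, f⟫_ℝ := inner_sub_right _ _ _
    rw [h3] at h1
    linarith
  have hanti : AntitoneOn G (Ioi 0) := by
    refine antitoneOn_of_deriv_nonpos (convex_Ioi 0) ?_ ?_ ?_
    · exact fun s hs => (hG s hs).continuousAt.continuousWithinAt
    · intro s hs
      rw [interior_Ioi] at hs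
      exact (hG s hs).differentiableAt.differentiableWithinAt
    · intro s hs
      rw [interior_Ioi] at hs
      rw [(hG s hs).deriv]
      exact hneg s hs
  have hlim : Tendsto G (𝓝[>] 0) (𝓝 ((1 / 2 : ℝ) * ‖f - f‖ ^ 2 - ⟪f, f⟫_ℝ - 2 * (Φ f).toReal * 0)) := by
    have hid : Tendsto (fun s : ℝ => s) (𝓝[>] 0) (𝓝 0) := tendsto_id.mono_left nhdsWithin_le_nhds
    exact ((((h0.sub_const f).norm.pow 2).const_mul _).sub (h0.inner tendsto_const_nhds)).sub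
      (hid.const_mul _)
  have hle : G t ≤ (1 / 2 : ℝ) * ‖f - f‖ ^ 2 - ⟪f, f⟫_ℝ - 2 * (Φ f).toReal * 0 := by
    refine ge_of_tendsto hlim ?_
    have h1 : Ioo (0 : ℝ) t ∈ 𝓝[>] (0 : ℝ) := Ioo_mem_nhdsGT ht
    filter_upwards [h1] with s hs
    exact hanti hs.1 ht hs.2.le
  simp only [G, sub_self, norm_zero, mul_zero, sub_zero] at hle
  rw [inner_sub_left]
  have h5 := sq_nonneg ‖u t - f‖
  have h6 : (0 : ℝ) ^ 2 = 0 := by norm_num
  rw [h6] at hle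
  linarith

/-- The lower bound: `⟪f - u t, f⟫ ≥ (2 Φ f - δ) t` for small `t`. -/
theorem IsGradFlow.lower (hΦ : IsQuad Φ) {f : E} {u : ℝ → E} (hu : IsGradFlow Φ f u)
    (hf : Φ f ≠ ∞) {δ : ℝ} (hδ : 0 < δ) :
    ∃ t₀ > 0, ∀ t, 0 < t → t < t₀ → (2 * (Φ f).toReal - δ) * t ≤ ⟪f - u t, f⟫_ℝ := by
  obtain ⟨h0, hd⟩ := hu
  choose! v hv hsub using hd
  set M := (Φ f).toReal with hM
  have hM0 : 0 ≤ M := ENNReal.toReal_nonneg
  obtain ⟨ε, hε, hεM⟩ : ∃ ε : ℝ, 0 < ε ∧ ε * M ≤ δ / 2 := by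
    refine ⟨δ / (2 * (M + 1)), by positivity, ?_⟩
    rw [div_mul_eq_mul_div, div_le_div_iff₀ (by positivity) (by norm_num)]
    nlinarith
  -- lower semicontinuity at `(1 + ε) f`
  have hΦ1 : Φ ((1 + ε) • f) = ENNReal.ofReal ((1 + ε) ^ 2) * Φ f := hΦ.smul _ _ (by positivity)
  have hΦε : Φ (ε • f) = ENNReal.ofReal (ε ^ 2) * Φ f := hΦ.smul _ _ hε.ne'
  have hΦε' : Φ (ε • f) ≠ ∞ := by
    rw [hΦε]
    exact ENNReal.mul_ne_top ENNReal.ofReal_ne_top hf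
  have hlsc : ∀ᶠ s in 𝓝[>] (0 : ℝ), (1 + ε) ^ 2 * M - ε * δ / 2 ≤ (Φ (u s + ε • f)).toReal ∨
      Φ (u s + ε • f) = ∞ := by
    by_cases hneg : (1 + ε) ^ 2 * M - ε * δ / 2 ≤ 0
    · exact Eventually.of_forall fun s => Or.inl (hneg.trans ENNReal.toReal_nonneg)
    · rw [not_le] at hneg
      have h1 : ENNReal.ofReal ((1 + ε) ^ 2 * M - ε * δ / 2) < Φ ((1 + ε) • f) := by
        rw [hΦ1, ← ENNReal.ofReal_toReal hf, ← ENNReal.ofReal_mul (by positivity)]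
        refine (ENNReal.ofReal_lt_ofReal_iff_of_nonneg hneg.le).2 ?_
        have : 0 < ε * δ / 2 := by positivity
        linarith
      have h2 : Tendsto (fun s => u s + ε • f) (𝓝[>] 0) (𝓝 ((1 + ε) • f)) := by
        rw [add_smul, one_smul]
        exact h0.add tendsto_const_nhds
      filter_upwards [h2.eventually (hΦ.lsc _ _ h1)] with s hs
      by_cases htop : Φ (u s + ε • f) = ∞
      · exact Or.inr htop
      · left
        exact (ENNReal.ofReal_le_iff_le_toReal htop).1 hs.le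
  obtain ⟨t₀, ht₀, hball⟩ := mem_nhdsGT_iff_exists_Ioo_subset.1 hlsc
  refine ⟨t₀, ht₀, fun t ht htt => ?_⟩
  have hkey : ∀ s, 0 < s → s < t₀ →
      (2 * ε - ε ^ 2) * M - ε * δ / 2 ≤ -(ε * ⟪v s, f⟫_ℝ) - ⟪v s, u s - f⟫_ℝ := by
    intro s hs hst
    have hus := (hsub s hs).1
    have hpar := hΦ.par (u s) (ε • f)
    have hne : Φ (u s + ε • f) + Φ (u s - ε • f) ≠ ∞ := by
      rw [hpar]
      exact ENNReal.add_ne_top.2 ⟨ENNReal.mul_ne_top (by norm_num) hus,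
        ENNReal.mul_ne_top (by norm_num) hΦε'⟩
    obtain ⟨hn1, hn2⟩ := ENNReal.add_ne_top.1 hne
    have h1 := (hball ⟨hs, hst⟩).resolve_right hn1
    have h2 := congrArg ENNReal.toReal hpar
    rw [ENNReal.toReal_add hn1 hn2, ENNReal.toReal_add (ENNReal.mul_ne_top (by norm_num) hus)
      (ENNReal.mul_ne_top (by norm_num) hΦε'), ENNReal.toReal_mul, ENNReal.toReal_mul, hΦε,
      ENNReal.toReal_mul, ENNReal.toReal_ofReal (by positivity)] at h2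
    have h3 := (hsub s hs).2 _ hn2
    have h4 : u s - ε • f - u s = -(ε • f) := by abel
    rw [h4, inner_neg_neg, real_inner_smul_right] at h3
    have h5 := (hsub s hs).2 f hf
    have h6 : ⟪-v s, f - u s⟫_ℝ = ⟪v s, u s - f⟫_ℝ := by
      rw [inner_neg_left, ← inner_neg_right, neg_sub]
    rw [h6] at h5
    simp only [ENNReal.toReal_ofNat] at h2
    nlinarith
  let H : ℝ → ℝ := fun s => -(ε * ⟪u s, f⟫_ℝ) - (1 / 2 : ℝ) * ‖u s - f‖ ^ 2 -
    ((2 * ε - ε ^ 2) * M - ε * δ / 2) * s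
  have hH : ∀ s, 0 < s → HasDerivAt H (-(ε * ⟪v s, f⟫_ℝ) - ⟪v s, u s - f⟫_ℝ -
      ((2 * ε - ε ^ 2) * M - ε * δ / 2)) s := by
    intro s hs
    have h1 := ((((hasDerivAt_inner (f := f) (hv s hs)).const_mul ε).neg).sub
      (hasDerivAt_half_sq (f := f) (hv s hs))).sub
      ((hasDerivAt_id s).const_mul ((2 * ε - ε ^ 2) * M - ε * δ / 2))
    rw [mul_one] at h1
    exact h1
  have hmono : MonotoneOn H (Ioo 0 t₀) := by
    refine monotoneOn_of_deriv_nonneg (convex_Ioo 0 t₀) ?_ ?_ ?_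
    · exact fun s hs => (hH s hs.1).continuousAt.continuousWithinAt
    · intro s hs
      rw [interior_Ioo] at hs
      exact (hH s hs.1).differentiableAt.differentiableWithinAt
    · intro s hs
      rw [interior_Ioo] at hs
      rw [(hH s hs.1).deriv]
      linarith [hkey s hs.1 hs.2]
  have hlim : Tendsto H (𝓝[>] 0) (𝓝 (-(ε * ⟪f, f⟫_ℝ) - (1 / 2 : ℝ) * ‖f - f‖ ^ 2 -
      ((2 * ε - ε ^ 2) * M - ε * δ / 2) * 0)) := by
    have hid : Tendsto (fun s : ℝ => s) (𝓝[>] 0) (𝓝 0) := tendsto_id.mono_left nhdsWithin_le_nhds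
    exact ((((h0.inner tendsto_const_nhds).const_mul ε).neg).sub
      (((h0.sub_const f).norm.pow 2).const_mul _)).sub (hid.const_mul _)
  have hle : -(ε * ⟪f, f⟫_ℝ) - (1 / 2 : ℝ) * ‖f - f‖ ^ 2 -
      ((2 * ε - ε ^ 2) * M - ε * δ / 2) * 0 ≤ H t := by
    refine le_of_tendsto hlim ?_
    have h1 : Ioo (0 : ℝ) t ∈ 𝓝[>] (0 : ℝ) := Ioo_mem_nhdsGT ht
    filter_upwards [h1] with s hs
    exact hmono ⟨hs.1, hs.2.trans htt⟩ ⟨ht, htt⟩ hs.2.le
  simp only [H, sub_self, norm_zero, mul_zero, sub_zero] at hle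
  have h5 := sq_nonneg ‖u t - f‖
  have h6 : (0 : ℝ) ^ 2 = 0 := by norm_num
  rw [h6] at hle
  have h7 : ε * ((2 * M - δ) * t) ≤ ε * ⟪f - u t, f⟫_ℝ := by
    rw [inner_sub_left]
    have h8 : ε * ((2 * M - δ) * t) ≤ ((2 * ε - ε ^ 2) * M - ε * δ / 2) * t := by
      have h9 : ε * (2 * M - δ) ≤ (2 * ε - ε ^ 2) * M - ε * δ / 2 := by nlinarith
      calc ε * ((2 * M - δ) * t) = (ε * (2 * M - δ)) * t := by ring
        _ ≤ _ := mul_le_mul_of_nonneg_right h9 ht.le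
    linarith
  exact le_of_mul_le_mul_left h7 hε

end Pool.Agent.helper65.MMS
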