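import Pool.Agent.helper65.MMS
import Pool.Agent.helper65.GradFlow

/-!
# The heat flow and the heat kernel of a metric measure space
-/

open MeasureTheory Filter Topology Set Metric
open scoped ENNReal NNReal InnerProductSpace

namespace Pool.Agent.helper65.MMS

section Defs

variable {X : Type*} [MetricSpace X] [MeasurableSpace X] (m : Measure X)

/-- The Cheeger energy as a functional on the Hilbert space `L²(m)`. -/
noncomputable def cheegerL (f : Lp ℝ 2 m) : ℝ≥0∞ := cheeger m f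

/-- `u` is the heat flow starting from `f`: the `L²`-gradient flow of the Cheeger energy. -/
def IsHeatFlow (f : Lp ℝ 2 m) (u : ℝ → Lp ℝ 2 m) : Prop := IsGradFlow (cheegerL m) f u

/-- `p` is the heat kernel: for every `t > 0` the function `p t` is continuous on `X × X`, and the
heat flow starting from `f ∈ L²(m)` is `x ↦ ∫ p t x y f(y) dm(y)`. -/
structure IsHeatKernel (p : ℝ → X → X → ℝ) : Prop where
  cont : ∀ t, 0 < t → Continuous fun z : X × X => p t z.1 z.2
  repr : ∀ f : Lp ℝ 2 m, ∃ u : ℝ → Lp ℝ 2 m, IsHeatFlow m f u ∧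
    ∀ t, 0 < t → ∀ᵐ x ∂m, Integrable (fun y => p t x y * f y) m ∧
      u t x = ∫ y, p t x y * f y ∂m

end Defs

/-- Convergence of the heat kernels `p i` of the spaces `X i` to the heat kernel `q` of `Y`. -/
def HeatKernelConv {X : ℕ → MMSpace} {Y : MMSpace} (r : Realisation X Y)
    (p : ∀ i, ℝ → X i → X i → ℝ) (q : ℝ → Y → Y → ℝ) : Prop :=
  ∀ t, 0 < t → ∀ (x y : ∀ i, X i) (x' y' : Y),
    Tendsto (fun i => r.emb i (x i)) atTop (𝓝 (r.lim x')) →
    Tendsto (fun i => r.emb i (y i)) atTop (𝓝 (r.lim y')) →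
    Tendsto (fun i => p i t (x i) (y i)) atTop (𝓝 (q t x' y'))

section Basic

variable {X : Type*} [MetricSpace X] [MeasurableSpace X] {m : Measure X}

theorem LipApprox.congr {u : ℕ → X → ℝ} {f g : X → ℝ} (h : LipApprox m u f) (hfg : f =ᵐ[m] g) :
    LipApprox m u g := by
  refine ⟨h.1, h.2.congr fun n => eLpNorm_congr_ae ?_⟩
  filter_upwards [hfg] with x hx
  rw [hx]

theorem cheeger_congr {f g : X → ℝ} (h : f =ᵐ[m] g) : cheeger m f = cheeger m g := by
  unfold cheeger
  refine le_antisymm ?_ ?_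
  · exact le_iInf₂ fun u hu => iInf₂_le u (hu.congr h.symm)
  · exact le_iInf₂ fun u hu => iInf₂_le u (hu.congr h)

omit [MeasurableSpace X] in
theorem locLip_const_mul (c : ℝ) (u : X → ℝ) (x : X) :
    locLip (fun y => c * u y) x = ENNReal.ofReal |c| * locLip u x := by
  unfold locLip
  rw [← ENNReal.limsup_const_mul_of_ne_top ENNReal.ofReal_ne_top]
  congr 1
  funext y
  rw [← mul_div_assoc]
  congr 1
  rw [edist_dist, edist_dist, Real.dist_eq, Real.dist_eq, ← mul_sub, abs_mul,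
    ENNReal.ofReal_mul (abs_nonneg _)]

theorem preCheeger_const_mul (c : ℝ) (u : X → ℝ) :
    preCheeger m (fun y => c * u y) = ENNReal.ofReal (c ^ 2) * preCheeger m u := by
  unfold preCheeger
  rw [← mul_assoc, mul_comm (ENNReal.ofReal (c ^ 2)), mul_assoc]
  congr 1
  rw [← lintegral_const_mul' _ _ ENNReal.ofReal_ne_top]
  refine lintegral_congr fun x => ?_
  rw [locLip_const_mul, mul_pow, ← ENNReal.ofReal_pow (abs_nonneg _), sq_abs]

omit [MeasurableSpace X] in
theorem IsLip.const_mul {u : X → ℝ} (hu : IsLip u) (c : ℝ) : IsLip fun y => c * u y := by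
  obtain ⟨K, hK⟩ := hu
  refine ⟨‖c‖₊ * K, LipschitzWith.of_dist_le_mul fun x y => ?_⟩
  have h1 := hK.dist_le_mul x y
  rw [Real.dist_eq] at h1 ⊢
  rw [← mul_sub, abs_mul, NNReal.coe_mul, coe_nnnorm, Real.norm_eq_abs, mul_assoc]
  exact mul_le_mul_of_nonneg_left h1 (abs_nonneg _)

theorem cheeger_const_mul_le {c : ℝ} (hc : c ≠ 0) (f : X → ℝ) :
    cheeger m (fun y => c * f y) ≤ ENNReal.ofReal (c ^ 2) * cheeger m f := by
  have h1 : ENNReal.ofReal (c ^ 2) * cheeger m f =
      ⨅ (u : ℕ → X → ℝ) (_ : LipApprox m u f),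
        ENNReal.ofReal (c ^ 2) * liminf (fun n => preCheeger m (u n)) atTop := by
    unfold cheeger
    have hc2 : ENNReal.ofReal (c ^ 2) ≠ 0 := by
      rw [ne_eq, ENNReal.ofReal_eq_zero, not_le]
      positivity
    rw [ENNReal.mul_iInf_of_ne hc2 ENNReal.ofReal_ne_top]
    congr 1
    funext u
    rw [ENNReal.mul_iInf_of_ne hc2 ENNReal.ofReal_ne_top]
  rw [h1]
  refine le_iInf₂ fun u hu => ?_
  have h2 : LipApprox m (fun n y => c * u n y) (fun y => c * f y) := by
    refine ⟨fun n => ⟨(hu.1 n).1.const_mul c, (hu.1 n).2.const_mul c⟩, ?_⟩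
    have h3 : ∀ n, eLpNorm (fun x => c * u n x - c * f x) 2 m =
        ENNReal.ofReal |c| * eLpNorm (fun x => u n x - f x) 2 m := by
      intro n
      have h4 : (fun x => c * u n x - c * f x) = c • fun x => u n x - f x := by
        funext x
        simp only [Pi.smul_apply, smul_eq_mul]
        ring
      rw [h4, eLpNorm_const_smul, Real.enorm_eq_ofReal_abs]
    simp_rw [h3]
    have h5 := ENNReal.Tendsto.const_mul (a := ENNReal.ofReal |c|) hu.2
      (Or.inr ENNReal.ofReal_ne_top)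
    simpa using h5
  have h3 : liminf (fun n => preCheeger m (fun y => c * u n y)) atTop =
      ENNReal.ofReal (c ^ 2) * liminf (fun n => preCheeger m (u n)) atTop := by
    simp_rw [preCheeger_const_mul]
    exact ENNReal.liminf_const_mul_of_ne_top ENNReal.ofReal_ne_top
  rw [← h3]
  exact iInf₂_le (fun n y => c * u n y) h2

theorem cheeger_const_mul {c : ℝ} (hc : c ≠ 0) (f : X → ℝ) :
    cheeger m (fun y => c * f y) = ENNReal.ofReal (c ^ 2) * cheeger m f := by
  refine le_antisymm (cheeger_const_mul_le hc f) ?_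
  have h1 := cheeger_const_mul_le (m := m) (inv_ne_zero hc) (fun y => c * f y)
  have h2 : (fun y => c⁻¹ * (c * f y)) = f := by
    funext y
    field_simp
  rw [h2] at h1
  calc ENNReal.ofReal (c ^ 2) * cheeger m f
      ≤ ENNReal.ofReal (c ^ 2) * (ENNReal.ofReal (c⁻¹ ^ 2) * cheeger m fun y => c * f y) :=
        mul_le_mul_right h1 _
    _ = _ := by
        rw [← mul_assoc, ← ENNReal.ofReal_mul (by positivity), ← mul_pow, mul_inv_cancel₀ hc]
        simp

theorem exists_approx {f : X → ℝ} {c : ℝ≥0∞} (h : cheeger m f < c) {δ : ℝ≥0∞} (hδ : 0 < δ) :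
    ∃ u : X → ℝ, IsLip u ∧ MemLp u 2 m ∧ eLpNorm (fun x => u x - f x) 2 m < δ ∧
      preCheeger m u < c := by
  unfold cheeger at h
  simp only [iInf_lt_iff] at h
  obtain ⟨u, ⟨hu, hconv⟩, hlt⟩ := h
  have h1 : ∃ᶠ n in atTop, preCheeger m (u n) < c := frequently_lt_of_liminf_lt (by isBoundedDefault) hlt
  have h2 : ∀ᶠ n in atTop, eLpNorm (fun x => u n x - f x) 2 m < δ := hconv.eventually (gt_mem_nhds hδ)
  obtain ⟨n, hn1, hn2⟩ := (h1.and_eventually h2).exists
  exact ⟨u n, (hu n).1, (hu n).2, hn2, hn1⟩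

/-- Lower semicontinuity of the Cheeger energy. -/
theorem cheegerL_lsc : LowerSemicontinuous (cheegerL m) := by
  intro f c hc
  by_contra hcon
  obtain ⟨c', hcc', hc'⟩ := exists_between hc
  have hinv : ∀ n : ℕ, (0 : ℝ≥0∞) < ((n : ℝ≥0∞) + 1)⁻¹ := fun n => ENNReal.inv_pos.2 (by finiteness)
  have h1 : ∀ n : ℕ, ∃ u : X → ℝ, IsLip u ∧ MemLp u 2 m ∧
      eLpNorm (fun x => u x - f x) 2 m < ((n : ℝ≥0∞) + 1)⁻¹ + ((n : ℝ≥0∞) + 1)⁻¹ ∧
      preCheeger m u < c' := by
    intro n
    have h2 : ∀ᶠ g in 𝓝 f, edist g f < ((n : ℝ≥0∞) + 1)⁻¹ := Metric.eball_mem_nhds f (hinv n)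
    obtain ⟨g, hg1, hg2⟩ := ((not_eventually.1 hcon).and_eventually h2).exists
    rw [not_lt] at hg1
    obtain ⟨u, hu1, hu2, hu3, hu4⟩ := exists_approx (m := m) (f := g) (c := c')
      (lt_of_le_of_lt hg1 hcc') (hinv n)
    refine ⟨u, hu1, hu2, ?_, hu4⟩
    have h3 : (fun x => u x - f x) = (fun x => u x - g x) + fun x => g x - f x := by
      funext x
      simp only [Pi.add_apply]
      ring
    rw [h3]
    refine lt_of_le_of_lt (eLpNorm_add_le (hu2.1.sub (Lp.aestronglyMeasurable g))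
      ((Lp.aestronglyMeasurable g).sub (Lp.aestronglyMeasurable f)) (by norm_num)) ?_
    refine ENNReal.add_lt_add hu3 ?_
    rw [Lp.edist_def] at hg2
    exact hg2
  choose u hu1 hu2 hu3 hu4 using h1
  have hlim : Tendsto (fun n : ℕ => ((n : ℝ≥0∞) + 1)⁻¹) atTop (𝓝 0) := by
    have := (tendsto_add_atTop_iff_nat (f := fun n : ℕ => (n : ℝ≥0∞)⁻¹) 1).2
      ENNReal.tendsto_inv_nat_nhds_zero
    simpa using this
  have hlim2 := hlim.add hlim
  rw [add_zero] at hlim2
  have happ : LipApprox m u f := ⟨fun n => ⟨hu1 n, hu2 n⟩,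
    tendsto_of_tendsto_of_tendsto_of_le_of_le tendsto_const_nhds hlim2 (fun _ => zero_le)
      (fun n => (hu3 n).le)⟩
  have h4 : cheeger m f ≤ liminf (fun n => preCheeger m (u n)) atTop := iInf₂_le u happ
  have h5 : liminf (fun n => preCheeger m (u n)) atTop ≤ c' :=
    (liminf_le_liminf (v := fun _ : ℕ => c') (Eventually.of_forall fun n => (hu4 n).le)).trans
      (le_of_eq (liminf_const _))
  exact absurd (h4.trans h5) (not_le.2 hc')

theorem cheegerL_isQuad (hm : IsIH m) : IsQuad (cheegerL m) := by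
  refine ⟨fun c f hc => ?_, fun f g => ?_, cheegerL_lsc⟩
  · unfold cheegerL
    rw [← cheeger_const_mul hc]
    exact cheeger_congr (Lp.coeFn_smul c f)
  · unfold cheegerL
    rw [cheeger_congr (Lp.coeFn_add f g), cheeger_congr (Lp.coeFn_sub f g)]
    exact hm _ _ (Lp.memLp f) (Lp.memLp g)

end Basic

end Pool.Agent.helper65.MMS
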