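import Pool.Agent.helper65.HeatOsc

/-!
# The heat kernels of the oscillating lines do not converge
-/

open MeasureTheory Filter Topology Set Metric
open scoped ENNReal NNReal InnerProductSpace

namespace Pool.Agent.helper65.MMS

theorem inner_eq_integral {m : Measure ℝ} {g f : ℝ → ℝ} (F : Lp ℝ 2 m) (G : Lp ℝ 2 m)
    (hF : F =ᵐ[m] f) (hG : G =ᵐ[m] g) : ⟪F, G⟫_ℝ = ∫ x, f x * g x ∂m := by
  rw [L2.inner_def]
  refine integral_congr_ae ?_
  filter_upwards [hF, hG] with x h1 h2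
  rw [h1, h2]
  simp only [RCLike.inner_apply, conj_trivial]
  ring

theorem kernel_inner {m : Measure ℝ} {p : ℝ → ℝ → ℝ → ℝ} {f : ℝ → ℝ} (hf : MemLp f 2 m)
    {u : ℝ → Lp ℝ 2 m} {t : ℝ}
    (h : ∀ᵐ x ∂m, Integrable (fun y => p t x y * (hf.toLp f) y) m ∧
      u t x = ∫ y, p t x y * (hf.toLp f) y ∂m) :
    ⟪u t, hf.toLp f⟫_ℝ = ∫ x, (∫ y, p t x y * f y ∂m) * f x ∂m := by
  refine inner_eq_integral (u t) (hf.toLp f) ?_ hf.coeFn_toLp
  filter_upwards [h] with x hx
  rw [hx.2]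
  refine integral_congr_ae ?_
  filter_upwards [hf.coeFn_toLp] with y hy
  rw [hy]

theorem no_heatKernelConv (p : ℕ → ℝ → ℝ → ℝ → ℝ) (q : ℝ → ℝ → ℝ → ℝ)
    (hp : ∀ i, IsHeatKernel (wm (osc i)) (p i)) (hq : IsHeatKernel (wm two) q)
    (hconv : ∀ t, 0 < t → ∀ (x y : ℕ → ℝ) (x' y' : ℝ), Tendsto x atTop (𝓝 x') →
      Tendsto y atTop (𝓝 y') → Tendsto (fun i => p i t (x i) (y i)) atTop (𝓝 (q t x' y'))) :
    False := by
  have hfi : ∀ i, MemLp (fosc i) 2 (wm (osc i)) :=
    fun i => (memLp_wm_iff (osc_isWeight i)).2 (fosc_memLp i)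
  have hf : MemLp tri 2 (wm two) := (memLp_wm_iff two_isWeight).2 tri_memLp
  choose u hu hur using fun i => (hp i).repr ((hfi i).toLp (fosc i))
  obtain ⟨v, hv, hvr⟩ := hq.repr (hf.toLp tri)
  have hCi : ∀ i, cheegerL (wm (osc i)) ((hfi i).toLp (fosc i)) ≤ 7 / 4 := by
    intro i
    unfold cheegerL
    rw [cheeger_congr (hfi i).coeFn_toLp]
    exact fosc_cheeger_le i
  have h74 : ((7 : ℝ≥0∞) / 4) ≠ ∞ := ENNReal.div_ne_top (by norm_num) (by norm_num)
  have hC : cheegerL (wm two) (hf.toLp tri) = cheeger (wm two) tri := by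
    unfold cheegerL
    rw [cheeger_congr hf.coeFn_toLp]
  have hCt : cheegerL (wm two) (hf.toLp tri) ≠ ∞ := by
    rw [hC]
    exact tri_cheeger_ne_top
  have hC19 : 19 / 10 ≤ (cheegerL (wm two) (hf.toLp tri)).toReal := by
    rw [hC]
    exact (ENNReal.ofReal_le_iff_le_toReal tri_cheeger_ne_top).1 le_cheeger_tri
  have hself : Tendsto (fun i => ⟪(hfi i).toLp (fosc i), (hfi i).toLp (fosc i)⟫_ℝ) atTop
      (𝓝 ⟪hf.toLp tri, hf.toLp tri⟫_ℝ) := by
    rw [inner_eq_integral _ _ hf.coeFn_toLp hf.coeFn_toLp]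
    simp_rw [fun i => inner_eq_integral _ _ (hfi i).coeFn_toLp (hfi i).coeFn_toLp]
    refine tendsto_integral_osc_of_bound (C := 4) ?_ ?_ ?_ ?_ ?_
    · exact fun n => (fosc_lip n).continuous.measurable.mul (fosc_lip n).continuous.measurable
    · exact tri_lip.continuous.measurable.mul tri_lip.continuous.measurable
    · intro x
      have h1 : Tendsto (fun n => fosc n x) atTop (𝓝 (tri x)) := by
        rw [tendsto_iff_norm_sub_tendsto_zero]
        exact squeeze_zero (fun n => norm_nonneg _) (fun n => fosc_sub_tri n x) tendsto_inv_fq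
      exact h1.mul h1
    · refine Eventually.of_forall fun n x => ?_
      have h1 := fosc_abs_le n x
      by_cases hx : x ∈ Icc (-1 : ℝ) 1
      · rw [indicator_of_mem hx] at h1 ⊢
        rw [abs_mul]
        nlinarith [abs_nonneg (fosc n x)]
      · rw [indicator_of_notMem hx] at h1 ⊢
        rw [abs_mul, le_antisymm h1 (abs_nonneg _), mul_zero]
    · intro x
      have h1 := tri_abs_le x
      by_cases hx : x ∈ Icc (-1 : ℝ) 1
      · rw [indicator_of_mem hx] at h1 ⊢
        rw [abs_mul]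
        nlinarith [abs_nonneg (tri x)]
      · rw [indicator_of_notMem hx] at h1 ⊢
        rw [abs_mul, le_antisymm h1 (abs_nonneg _), mul_zero]
  have hlim : ∀ t, 0 < t → Tendsto (fun i => ⟪(hfi i).toLp (fosc i) - u i t,
      (hfi i).toLp (fosc i)⟫_ℝ) atTop (𝓝 ⟪hf.toLp tri - v t, hf.toLp tri⟫_ℝ) := by
    intro t ht
    rw [inner_sub_left]
    simp_rw [inner_sub_left]
    refine hself.sub ?_
    rw [kernel_inner hf (hvr t ht)]
    simp_rw [fun i => kernel_inner (hfi i) (hur i t ht)]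
    refine tendsto_double (P := fun n z => p n t z.1 z.2) (Q := fun z => q t z.1 z.2)
      (fun n => (hp n).cont t ht) (hq.cont t ht) ?_
    intro z z' hz
    exact hconv t ht (fun n => (z n).1) (fun n => (z n).2) z'.1 z'.2
      ((continuous_fst.tendsto z').comp hz) ((continuous_snd.tendsto z').comp hz)
  have hupper : ∀ t, 0 < t → ⟪hf.toLp tri - v t, hf.toLp tri⟫_ℝ ≤ 7 / 2 * t := by
    intro t ht
    refine le_of_tendsto' (hlim t ht) fun i => ?_
    have h1 := IsGradFlow.upper (cheegerL_isQuad (isIH (osc_isWeight i))) (hu i)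
      (ne_top_of_le_ne_top h74 (hCi i)) ht
    have h2 : (cheegerL (wm (osc i)) ((hfi i).toLp (fosc i))).toReal ≤ 7 / 4 := by
      have := ENNReal.toReal_mono h74 (hCi i)
      simpa using this
    nlinarith
  obtain ⟨t₀, ht₀, hlow⟩ := IsGradFlow.lower (cheegerL_isQuad (isIH two_isWeight)) hv hCt
    (δ := 1 / 10) (by norm_num)
  have h1 := hlow (t₀ / 2) (by positivity) (by linarith)
  have h2 := hupper (t₀ / 2) (by positivity)
  nlinarith

end Pool.Agent.helper65.MMS
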