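import Pool.Agent.helper65.LineTri
import Pool.Agent.helper65.Heat

/-!
# Heat kernels on the oscillating lines
-/

open MeasureTheory Filter Topology Set Metric
open scoped ENNReal NNReal InnerProductSpace

namespace Pool.Agent.helper65.MMS

theorem tri_cheeger_ne_top : cheeger (wm two) tri ≠ ∞ := by
  have h1 : cheeger (wm two) tri ≤ preCheeger (wm two) tri := by
    refine (iInf₂_le (fun _ => tri) ?_).trans ?_
    · refine ⟨fun _ => ⟨⟨1, tri_lip⟩, (memLp_wm_iff two_isWeight).2 tri_memLp⟩, ?_⟩
      simp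
    · rw [liminf_const]
  refine ne_top_of_le_ne_top ?_ h1
  rw [preCheeger_two ⟨1, tri_lip⟩]
  have h2 : ∫⁻ x, ENNReal.ofReal (deriv tri x ^ 2) ≤
      ∫⁻ x, (Icc (-1 : ℝ) 1).indicator (fun _ => 1) x := by
    refine lintegral_mono fun x => ?_
    by_cases hx : x ∈ Icc (-1 : ℝ) 1
    · rw [indicator_of_mem hx]
      have h3 : ‖deriv tri x‖ ≤ (1 : ℝ≥0) := norm_deriv_le_of_lipschitz tri_lip
      rw [Real.norm_eq_abs, NNReal.coe_one, abs_le] at h3
      rw [← ENNReal.ofReal_one]
      refine ENNReal.ofReal_le_ofReal ?_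
      nlinarith
    · rw [indicator_of_notMem hx]
      have h3 : tri =ᶠ[𝓝 x] fun _ => 0 := by
        have h5 : (Icc (-1 : ℝ) 1)ᶜ ∈ 𝓝 x := isClosed_Icc.isOpen_compl.mem_nhds hx
        filter_upwards [h5] with y hy
        refine tri_eq_zero ?_
        by_contra hc
        rw [not_le, abs_lt] at hc
        exact hy ⟨hc.1.le, hc.2.le⟩
      rw [h3.deriv_eq]
      simp
  refine ne_top_of_le_ne_top ?_ h2
  rw [lintegral_indicator measurableSet_Icc]
  simp

/-- Convergence of the integrals of functions supported in `[-1, 1]`. -/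
theorem tendsto_integral_osc_of_bound {a : ℕ → ℝ → ℝ} {b : ℝ → ℝ} {C : ℝ}
    (ham : ∀ n, Measurable (a n)) (hbm : Measurable b)
    (hpt : ∀ x, Tendsto (fun n => a n x) atTop (𝓝 (b x)))
    (hbd : ∀ᶠ n in atTop, ∀ x, |a n x| ≤ (Icc (-1 : ℝ) 1).indicator (fun _ => C) x)
    (hbb : ∀ x, |b x| ≤ (Icc (-1 : ℝ) 1).indicator (fun _ => C) x) :
    Tendsto (fun n => ∫ x, a n x ∂(wm (osc n))) atTop (𝓝 (∫ x, b x ∂(wm two))) := by
  have hC : Integrable ((Icc (-1 : ℝ) 1).indicator (fun _ => C)) :=
    (integrable_indicator_iff measurableSet_Icc).2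
      (continuous_const.continuousOn.integrableOn_compact isCompact_Icc)
  have hbi : Integrable b := by
    refine hC.mono' hbm.aestronglyMeasurable (Eventually.of_forall fun x => ?_)
    exact hbb x
  have h1 := tendsto_integral_osc hbi
  have h2 : Tendsto (fun n => ∫ x, osc n x * (a n x - b x)) atTop (𝓝 (∫ _ : ℝ, (0 : ℝ))) := by
    refine tendsto_integral_filter_of_dominated_convergence
      (fun x => 3 * ((Icc (-1 : ℝ) 1).indicator (fun _ => C) x +
        (Icc (-1 : ℝ) 1).indicator (fun _ => C) x)) ?_ ?_ ((hC.add hC).const_mul 3) ?_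
    · exact Eventually.of_forall fun n =>
        ((osc_continuous n).measurable.mul ((ham n).sub hbm)).aestronglyMeasurable
    · filter_upwards [hbd] with n hn
      refine Eventually.of_forall fun x => ?_
      rw [Real.norm_eq_abs, abs_mul, abs_of_pos ((osc_isWeight n).pos x)]
      have h5 := (osc_isWeight n).le_three x
      have h6 := hn x
      have h7 := hbb x
      have h8 := abs_sub (a n x) (b x)
      have h9 := (osc_isWeight n).pos x
      have h10 : |a n x - b x| ≤ (Icc (-1 : ℝ) 1).indicator (fun _ => C) x +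
        (Icc (-1 : ℝ) 1).indicator (fun _ => C) x := by linarith
      gcongr
    · refine Eventually.of_forall fun x => ?_
      have h3 : Tendsto (fun n => a n x - b x) atTop (𝓝 0) := by
        simpa using (hpt x).sub_const (b x)
      have h4 : Tendsto (fun n => 3 * |a n x - b x|) atTop (𝓝 0) := by
        simpa using h3.abs.const_mul 3
      refine squeeze_zero_norm (fun n => ?_) h4
      rw [Real.norm_eq_abs, abs_mul, abs_of_pos ((osc_isWeight n).pos x)]
      have h5 := (osc_isWeight n).le_three x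
      gcongr
  rw [integral_zero] at h2
  have h3 := h2.add h1
  rw [zero_add] at h3
  refine h3.congr' ?_
  filter_upwards [hbd] with n hn
  have hai : Integrable (a n) := hC.mono' (ham n).aestronglyMeasurable (Eventually.of_forall hn)
  rw [integral_wm (osc_isWeight n), integral_wm (osc_isWeight n), ← integral_add]
  · refine integral_congr_ae (Eventually.of_forall fun x => ?_)
    simp only
    ring
  · refine ((hai.sub hbi).const_mul 3).mono ?_ (Eventually.of_forall fun x => ?_)
    · exact ((osc_continuous n).measurable.mul ((ham n).sub hbm)).aestronglyMeasurable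
    · rw [norm_mul, norm_mul, Real.norm_eq_abs (osc n x), abs_of_pos ((osc_isWeight n).pos x),
        Real.norm_eq_abs (3 : ℝ), abs_of_pos (by norm_num : (0 : ℝ) < 3)]
      exact mul_le_mul_of_nonneg_right ((osc_isWeight n).le_three x) (norm_nonneg _)
  · refine (hbi.const_mul 3).mono ?_ (Eventually.of_forall fun x => ?_)
    · exact ((osc_continuous n).measurable.mul hbm).aestronglyMeasurable
    · rw [norm_mul, norm_mul, Real.norm_eq_abs (osc n x), abs_of_pos ((osc_isWeight n).pos x),
        Real.norm_eq_abs (3 : ℝ), abs_of_pos (by norm_num : (0 : ℝ) < 3)]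
      exact mul_le_mul_of_nonneg_right ((osc_isWeight n).le_three x) (norm_nonneg _)

/-- Continuous convergence implies uniform convergence on compact sets. -/
theorem uniform_of_continuous_conv {P : ℕ → ℝ × ℝ → ℝ} {Q : ℝ × ℝ → ℝ} (hQ : Continuous Q)
    (h : ∀ (z : ℕ → ℝ × ℝ) (z' : ℝ × ℝ), Tendsto z atTop (𝓝 z') →
      Tendsto (fun n => P n (z n)) atTop (𝓝 (Q z')))
    {K : Set (ℝ × ℝ)} (hK : IsCompact K) {ε : ℝ} (hε : 0 < ε) :
    ∀ᶠ n in atTop, ∀ z ∈ K, |P n z - Q z| < ε := by
  by_contra hcon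
  rw [not_eventually] at hcon
  obtain ⟨φ, hφ, hφK⟩ := extraction_of_frequently_atTop hcon
  push Not at hφK
  choose z hzK hz using hφK
  obtain ⟨z', _, ψ, hψ, hlim⟩ := hK.tendsto_subseq hzK
  have hinj : Function.Injective (φ ∘ ψ) := (hφ.comp hψ).injective
  let ζ : ℕ → ℝ × ℝ := Function.extend (φ ∘ ψ) (z ∘ ψ) (fun _ => z')
  have hζ : Tendsto ζ atTop (𝓝 z') := by
    rw [Filter.tendsto_atTop']
    intro U hU
    obtain ⟨N, hN⟩ := eventually_atTop.1 (hlim.eventually hU)
    refine ⟨(φ ∘ ψ) N, fun n hn => ?_⟩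
    by_cases hr : ∃ k, (φ ∘ ψ) k = n
    · obtain ⟨k, rfl⟩ := hr
      simp only [ζ]
      rw [hinj.extend_apply]
      exact hN k ((hφ.comp hψ).le_iff_le.1 hn)
    · simp only [ζ]
      rw [Function.extend_apply' _ _ _ hr]
      exact mem_of_mem_nhds hU
  have h1 := (h ζ z' hζ).comp (hφ.comp hψ).tendsto_atTop
  have h2 : Tendsto (fun k => P (φ (ψ k)) (z (ψ k)) - Q (z (ψ k))) atTop (𝓝 (Q z' - Q z')) := by
    refine Tendsto.sub ?_ ((hQ.tendsto z').comp hlim)
    refine h1.congr fun k => ?_
    simp only [Function.comp_apply, ζ]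
    have := hinj.extend_apply (z ∘ ψ) (fun _ => z') k
    simp only [Function.comp_apply] at this
    rw [this]
  rw [sub_self] at h2
  have h3 := h2.abs
  rw [abs_zero] at h3
  obtain ⟨k, hk⟩ := (h3.eventually (gt_mem_nhds hε)).exists
  exact absurd hk (not_lt.2 (hz (ψ k)))

theorem abs_le_one_of_mem {x : ℝ} (hx : x ∈ Icc (-1 : ℝ) 1) : |x| ≤ 1 := abs_le.2 ⟨hx.1, hx.2⟩

/-- Convergence of `⟪P_t f_n, f_n⟫`. -/
theorem tendsto_double {P : ℕ → ℝ × ℝ → ℝ} {Q : ℝ × ℝ → ℝ} (hP : ∀ n, Continuous (P n))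
    (hQ : Continuous Q)
    (h : ∀ (z : ℕ → ℝ × ℝ) (z' : ℝ × ℝ), Tendsto z atTop (𝓝 z') →
      Tendsto (fun n => P n (z n)) atTop (𝓝 (Q z'))) :
    Tendsto (fun n => ∫ x, (∫ y, P n (x, y) * fosc n y ∂(wm (osc n))) * fosc n x ∂(wm (osc n)))
      atTop (𝓝 (∫ x, (∫ y, Q (x, y) * tri y ∂(wm two)) * tri x ∂(wm two))) := by
  have hK : IsCompact (Icc (-1 : ℝ) 1 ×ˢ Icc (-1 : ℝ) 1) := isCompact_Icc.prod isCompact_Icc
  obtain ⟨M, hM⟩ := hK.exists_bound_of_continuousOn hQ.continuousOn
  have hM0 : 0 ≤ M := (norm_nonneg _).trans (hM (0, 0) ⟨by constructor <;> norm_num, by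
    constructor <;> norm_num⟩)
  have huni := uniform_of_continuous_conv hQ h hK one_pos
  have hPb : ∀ᶠ n in atTop, ∀ z ∈ Icc (-1 : ℝ) 1 ×ˢ Icc (-1 : ℝ) 1, |P n z| ≤ M + 1 := by
    filter_upwards [huni] with n hn z hz
    have h1 := hn z hz
    have h2 := hM z hz
    rw [Real.norm_eq_abs] at h2
    have h3 : P n z = (P n z - Q z) + Q z := by ring
    rw [h3]
    exact (abs_add_le _ _).trans (by linarith)
  have hpt : ∀ z, Tendsto (fun n => P n z) atTop (𝓝 (Q z)) :=
    fun z => h (fun _ => z) z tendsto_const_nhds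
  have hft : ∀ x, Tendsto (fun n => fosc n x) atTop (𝓝 (tri x)) := by
    intro x
    rw [tendsto_iff_norm_sub_tendsto_zero]
    exact squeeze_zero (fun n => norm_nonneg _) (fun n => fosc_sub_tri n x) tendsto_inv_fq
  have hfm : ∀ n, Measurable (fosc n) := fun n => (fosc_lip n).continuous.measurable
  have htm : Measurable tri := tri_lip.continuous.measurable
  have hind : ∀ {c c' : ℝ} (x : ℝ), 0 ≤ c → c ≤ c' →
      (Icc (-1 : ℝ) 1).indicator (fun _ => c) x ≤ (Icc (-1 : ℝ) 1).indicator (fun _ => c') x := by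
    intro c c' x hc hcc
    exact indicator_le_indicator hcc
  -- inner integrals
  have hinner : ∀ x ∈ Icc (-1 : ℝ) 1, Tendsto (fun n => ∫ y, P n (x, y) * fosc n y ∂(wm (osc n)))
      atTop (𝓝 (∫ y, Q (x, y) * tri y ∂(wm two))) := by
    intro x hx
    refine tendsto_integral_osc_of_bound (C := (M + 1) * 2) ?_ ?_ ?_ ?_ ?_
    · intro n
      exact ((hP n).comp (by fun_prop : Continuous fun y : ℝ => (x, y))).measurable.mul (hfm n)
    · exact (hQ.comp (by fun_prop : Continuous fun y : ℝ => (x, y))).measurable.mul htm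
    · intro y
      exact (hpt (x, y)).mul (hft y)
    · filter_upwards [hPb] with n hn y
      have h1 := fosc_abs_le n y
      by_cases hy : y ∈ Icc (-1 : ℝ) 1
      · rw [indicator_of_mem hy] at h1 ⊢
        rw [abs_mul]
        exact mul_le_mul (hn _ ⟨hx, hy⟩) h1 (abs_nonneg _) (by positivity)
      · rw [indicator_of_notMem hy] at h1 ⊢
        rw [abs_mul, le_antisymm h1 (abs_nonneg _), mul_zero]
    · intro y
      have h1 := tri_abs_le y
      by_cases hy : y ∈ Icc (-1 : ℝ) 1
      · rw [indicator_of_mem hy] at h1 ⊢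
        rw [abs_mul]
        have h2 := hM (x, y) ⟨hx, hy⟩
        rw [Real.norm_eq_abs] at h2
        exact mul_le_mul (h2.trans (by linarith)) (h1.trans (by norm_num)) (abs_nonneg _)
          (by positivity)
      · rw [indicator_of_notMem hy] at h1 ⊢
        rw [abs_mul, le_antisymm h1 (abs_nonneg _), mul_zero]
  -- bounds of the inner integrals
  have hwm : ∀ (w : ℝ → ℝ) (hw : IsWeight w) (g : ℝ → ℝ) (C : ℝ), 0 ≤ C →
      (∀ y, |g y| ≤ (Icc (-1 : ℝ) 1).indicator (fun _ => C) y) → |∫ y, g y ∂(wm w)| ≤ 6 * C := by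
    intro w hw g C hC hg
    rw [integral_wm hw]
    have h4 : 6 * C = ∫ y, (Icc (-1 : ℝ) 1).indicator (fun _ => 3 * C) y := by
      rw [integral_indicator measurableSet_Icc]
      simp
      ring
    rw [h4, ← Real.norm_eq_abs]
    refine norm_integral_le_of_norm_le ?_ (Eventually.of_forall fun y => ?_)
    · exact (integrable_indicator_iff measurableSet_Icc).2
        (continuous_const.continuousOn.integrableOn_compact isCompact_Icc)
    · rw [Real.norm_eq_abs, abs_mul, abs_of_pos (hw.pos y)]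
      have h5 := hw.le_three y
      have h6 := hg y
      have h7 := hw.pos y
      by_cases hy : y ∈ Icc (-1 : ℝ) 1
      · rw [indicator_of_mem hy] at h6 ⊢
        gcongr
      · rw [indicator_of_notMem hy] at h6 ⊢
        rw [le_antisymm h6 (abs_nonneg _), mul_zero]
  have hsf : ∀ w : ℝ → ℝ, SFinite (wm w) := by
    intro w
    unfold wm
    infer_instance
  refine tendsto_integral_osc_of_bound (C := 6 * ((M + 1) * 2) * 2) ?_ ?_ ?_ ?_ ?_
  · intro n
    have := hsf (osc n)
    refine Measurable.mul ?_ (hfm n)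
    have h1 : StronglyMeasurable (fun z : ℝ × ℝ => P n z * fosc n z.2) :=
      ((hP n).mul ((fosc_lip n).continuous.comp continuous_snd)).stronglyMeasurable
    exact (h1.integral_prod_right' (ν := wm (osc n))).measurable
  · have := hsf two
    refine Measurable.mul ?_ htm
    have h1 : StronglyMeasurable (fun z : ℝ × ℝ => Q z * tri z.2) :=
      (hQ.mul (tri_lip.continuous.comp continuous_snd)).stronglyMeasurable
    exact (h1.integral_prod_right' (ν := wm two)).measurable
  · intro x
    by_cases hx : x ∈ Icc (-1 : ℝ) 1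
    · exact (hinner x hx).mul (hft x)
    · have h1 : tri x = 0 := by
        have := tri_abs_le x
        rw [indicator_of_notMem hx] at this
        exact abs_nonpos_iff.1 this
      have h2 : ∀ n, fosc n x = 0 := by
        intro n
        have := fosc_abs_le n x
        rw [indicator_of_notMem hx] at this
        exact abs_nonpos_iff.1 this
      simp_rw [h1, h2, mul_zero]
      exact tendsto_const_nhds
  · filter_upwards [hPb] with n hn x
    have h1 := fosc_abs_le n x
    by_cases hx : x ∈ Icc (-1 : ℝ) 1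
    · rw [indicator_of_mem hx] at h1 ⊢
      rw [abs_mul]
      refine mul_le_mul (hwm _ (osc_isWeight n) _ _ (by positivity) fun y => ?_) h1 (abs_nonneg _)
        (by positivity)
      have h3 := fosc_abs_le n y
      by_cases hy : y ∈ Icc (-1 : ℝ) 1
      · rw [indicator_of_mem hy] at h3 ⊢
        rw [abs_mul]
        exact mul_le_mul (hn _ ⟨hx, hy⟩) h3 (abs_nonneg _) (by positivity)
      · rw [indicator_of_notMem hy] at h3 ⊢
        rw [abs_mul, le_antisymm h3 (abs_nonneg _), mul_zero]
    · rw [indicator_of_notMem hx] at h1 ⊢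
      rw [abs_mul, le_antisymm h1 (abs_nonneg _), mul_zero]
  · intro x
    have h1 := tri_abs_le x
    by_cases hx : x ∈ Icc (-1 : ℝ) 1
    · rw [indicator_of_mem hx] at h1 ⊢
      rw [abs_mul]
      refine mul_le_mul (hwm _ two_isWeight _ _ (by positivity) fun y => ?_)
        (h1.trans (by norm_num)) (abs_nonneg _) (by positivity)
      have h3 := tri_abs_le y
      by_cases hy : y ∈ Icc (-1 : ℝ) 1
      · rw [indicator_of_mem hy] at h3 ⊢
        rw [abs_mul]
        have h2 := hM (x, y) ⟨hx, hy⟩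
        rw [Real.norm_eq_abs] at h2
        exact mul_le_mul (h2.trans (by linarith)) (h3.trans (by norm_num)) (abs_nonneg _)
          (by positivity)
      · rw [indicator_of_notMem hy] at h3 ⊢
        rw [abs_mul, le_antisymm h3 (abs_nonneg _), mul_zero]
    · rw [indicator_of_notMem hx] at h1 ⊢
      rw [abs_mul, le_antisymm h1 (abs_nonneg _), mul_zero]

end Pool.Agent.helper65.MMS
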