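import Pool.Agent.helper65.MMS

/-!
# Locally absolutely continuous functions on the line, local Lipschitz constants
-/

open MeasureTheory Filter Topology Set Metric
open scoped ENNReal NNReal

namespace Pool.Agent.helper65.MMS

/-! ### The local Lipschitz constant on the line -/

theorem locLip_eq_of_differentiableAt {u : ℝ → ℝ} {x : ℝ} (h : DifferentiableAt ℝ u x) :
    locLip u x = ‖deriv u x‖ₑ := by
  have h1 : Tendsto (fun y => slope u x y) (𝓝[≠] x) (𝓝 (deriv u x)) :=
    hasDerivAt_iff_tendsto_slope.1 h.hasDerivAt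
  have h2 : Tendsto (fun y => ‖slope u x y‖ₑ) (𝓝[≠] x) (𝓝 ‖deriv u x‖ₑ) :=
    (continuous_enorm.tendsto _).comp h1
  have h3 : (fun y => edist (u y) (u x) / edist y x) =ᶠ[𝓝[≠] x] fun y => ‖slope u x y‖ₑ := by
    filter_upwards [self_mem_nhdsWithin] with y hy
    have hne : y - x ≠ 0 := sub_ne_zero.2 hy
    rw [slope_def_field, div_eq_mul_inv (u y - u x), enorm_mul, enorm_inv hne, edist_eq_enorm_sub,
      edist_eq_enorm_sub, div_eq_mul_inv]
  unfold locLip
  rw [limsup_congr h3]
  exact h2.limsup_eq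

theorem locLip_le_of_lipschitz {X : Type*} [MetricSpace X] {u : X → ℝ} {K : ℝ≥0}
    (h : LipschitzWith K u) (x : X) : locLip u x ≤ K := by
  unfold locLip
  refine limsup_le_of_le (by isBoundedDefault) ?_
  filter_upwards [self_mem_nhdsWithin] with y hy
  refine ENNReal.div_le_of_le_mul ?_
  exact h y x

theorem IsLip.locLip_ae_eq {u : ℝ → ℝ} (hu : IsLip u) :
    ∀ᵐ x, locLip u x = ‖deriv u x‖ₑ := by
  obtain ⟨K, hK⟩ := hu
  filter_upwards [hK.ae_differentiableAt_real] with x hx
  exact locLip_eq_of_differentiableAt hx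

/-! ### Locally absolutely continuous functions -/

/-- `F` is absolutely continuous on every bounded interval. -/
def LAC (F : ℝ → ℝ) : Prop := ∀ a b, AbsolutelyContinuousOnInterval F a b

theorem IsLip.lac {u : ℝ → ℝ} (hu : IsLip u) : LAC u := by
  obtain ⟨K, hK⟩ := hu
  exact fun a b => hK.lipschitzOnWith.absolutelyContinuousOnInterval

theorem LAC.ftc {F : ℝ → ℝ} (h : LAC F) (a b : ℝ) : ∫ x in a..b, deriv F x = F b - F a :=
  (h a b).integral_deriv_eq_sub

theorem LAC.intervalIntegrable {F : ℝ → ℝ} (h : LAC F) (a b : ℝ) :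
    IntervalIntegrable (deriv F) volume a b := (h a b).intervalIntegrable_deriv

theorem LAC.continuous {F : ℝ → ℝ} (h : LAC F) : Continuous F := by
  rw [continuous_iff_continuousAt]
  intro x
  have h1 := (h (x - 1) (x + 1)).continuousOn
  refine h1.continuousAt ?_
  rw [uIcc_of_le (by linarith)]
  exact Icc_mem_nhds (by linarith) (by linarith)

theorem LAC.ae_differentiableAt {F : ℝ → ℝ} (h : LAC F) : ∀ᵐ x, DifferentiableAt ℝ F x := by
  have h1 : ∀ n : ℕ, ∀ᵐ x, x ∈ uIcc (-(n : ℝ)) n → DifferentiableAt ℝ F x :=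
    fun n => (h _ _).ae_differentiableAt
  filter_upwards [ae_all_iff.2 h1] with x hx
  obtain ⟨n, hn⟩ := exists_nat_ge |x|
  refine hx n ?_
  rw [uIcc_of_le (by linarith [abs_nonneg x])]
  exact ⟨by linarith [neg_abs_le x], by linarith [le_abs_self x]⟩

theorem LAC.add {F G : ℝ → ℝ} (hF : LAC F) (hG : LAC G) : LAC (fun x => F x + G x) :=
  fun a b => (hF a b).fun_add (hG a b)

theorem LAC.mul {F G : ℝ → ℝ} (hF : LAC F) (hG : LAC G) : LAC (fun x => F x * G x) :=
  fun a b => (hF a b).fun_mul (hG a b)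

theorem lac_integral {g : ℝ → ℝ} (hg : ∀ a b, IntervalIntegrable g volume a b) (c : ℝ) :
    LAC (fun x => ∫ t in c..x, g t) := by
  intro a b
  have h1 : AbsolutelyContinuousOnInterval (fun x => ∫ t in c..x, g t) (min a c ⊓ b) (max a c ⊔ b) := by
    refine (hg _ _).absolutelyContinuousOnInterval_intervalIntegral ?_
    rw [uIcc_of_le (by
      exact (inf_le_left.trans (min_le_left a c)).trans ((le_max_left a c).trans le_sup_left))]
    exact ⟨inf_le_left.trans (min_le_right _ _), (le_max_right _ _).trans le_sup_left⟩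
  refine h1.mono ?_
  rw [uIcc_of_le (a := min a c ⊓ b) (by
      exact (inf_le_left.trans (min_le_left a c)).trans ((le_max_left a c).trans le_sup_left))]
  intro x hx
  rcases le_total a b with hab | hab
  · rw [uIcc_of_le hab] at hx
    exact ⟨(inf_le_left.trans (min_le_left a c)).trans hx.1, hx.2.trans le_sup_right⟩
  · rw [uIcc_of_ge hab] at hx
    exact ⟨inf_le_right.trans hx.1, hx.2.trans ((le_max_left a c).trans le_sup_left)⟩

theorem ae_deriv_integral {g : ℝ → ℝ} (hg : ∀ a b, IntervalIntegrable g volume a b) (c : ℝ) :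
    ∀ᵐ x, HasDerivAt (fun x => ∫ t in c..x, g t) (g x) x := by
  have h1 : ∀ n : ℕ, ∀ᵐ x, x ∈ uIcc (-(n : ℝ) - |c|) (n + |c|) → ∀ d ∈ uIcc (-(n : ℝ) - |c|) (n + |c|),
      HasDerivAt (fun x => ∫ t in d..x, g t) (g x) x :=
    fun n => (hg _ _).ae_hasDerivAt_integral
  filter_upwards [ae_all_iff.2 h1] with x hx
  obtain ⟨n, hn⟩ := exists_nat_ge |x|
  have hn0 : (0 : ℝ) ≤ n := Nat.cast_nonneg n
  refine hx n ?_ c ?_
  · rw [uIcc_of_le (by linarith [abs_nonneg x, abs_nonneg c])]
    exact ⟨by linarith [neg_abs_le x, abs_nonneg c], by linarith [le_abs_self x, abs_nonneg c]⟩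
  · rw [uIcc_of_le (by linarith [abs_nonneg x, abs_nonneg c])]
    exact ⟨by linarith [neg_abs_le c], by linarith [le_abs_self c]⟩

/-- A function dominated in the sense of increments by an integral is absolutely continuous. -/
theorem lac_of_le_integral {F g : ℝ → ℝ} (hg : ∀ a b, IntervalIntegrable g volume a b)
    (h : ∀ x y, x ≤ y → |F y - F x| ≤ ∫ t in x..y, g t) :
    LAC F ∧ ∀ᵐ x, |deriv F x| ≤ g x := by
  -- the primitive
  let Φ : ℝ → ℝ := fun x => ∫ t in (0 : ℝ)..x, g t
  have hΦ : LAC Φ := lac_integral hg 0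
  have hsub : ∀ x y, Φ y - Φ x = ∫ t in x..y, g t := by
    intro x y
    simp only [Φ]
    rw [intervalIntegral.integral_interval_sub_left (hg _ _) (hg _ _)]
  have hle : ∀ x y, |F y - F x| ≤ |Φ y - Φ x| := by
    intro x y
    rcases le_total x y with hxy | hxy
    · rw [hsub]
      exact (h x y hxy).trans (le_abs_self _)
    · rw [abs_sub_comm (F y), abs_sub_comm (Φ y), hsub]
      exact (h y x hxy).trans (le_abs_self _)
  have hF : LAC F := by
    intro a b
    have h1 := hΦ a b
    rw [absolutelyContinuousOnInterval_iff] at h1 ⊢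
    intro ε hε
    obtain ⟨δ, hδ, hE⟩ := h1 ε hε
    refine ⟨δ, hδ, fun E hE1 hE2 => lt_of_le_of_lt ?_ (hE E hE1 hE2)⟩
    refine Finset.sum_le_sum fun i _ => ?_
    rw [Real.dist_eq, Real.dist_eq, abs_sub_comm (F _), abs_sub_comm (Φ _)]
    exact hle _ _
  refine ⟨hF, ?_⟩
  filter_upwards [hF.ae_differentiableAt, ae_deriv_integral hg 0] with x hx1 hx2
  have h1 : Tendsto (fun y => slope F x y) (𝓝[>] x) (𝓝 (deriv F x)) :=
    (hasDerivAt_iff_tendsto_slope.1 hx1.hasDerivAt).mono_left
      (nhdsWithin_mono x fun y hy => ne_of_gt hy)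
  have h2 : Tendsto (fun y => slope Φ x y) (𝓝[>] x) (𝓝 (g x)) :=
    (hasDerivAt_iff_tendsto_slope.1 hx2).mono_left
      (nhdsWithin_mono x fun y hy => ne_of_gt hy)
  refine le_of_tendsto_of_tendsto h1.abs h2 ?_
  filter_upwards [self_mem_nhdsWithin] with y hy
  have hy' : 0 < y - x := sub_pos.2 hy
  rw [slope_def_field, slope_def_field, abs_div, abs_of_pos hy', hsub]
  exact div_le_div_of_nonneg_right (h x y (le_of_lt hy)) hy'.le

end Pool.Agent.helper65.MMS
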