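import Pool.Agent.helper65.LineOsc

/-!
# The recovery-type sequence with too small energies
-/

open MeasureTheory Filter Topology Set Metric
open scoped ENNReal NNReal

namespace Pool.Agent.helper65.MMS

/-- The tent function. -/
noncomputable def tri (x : ℝ) : ℝ := 1 - min |x| 1

/-- The profile. -/
noncomputable def prof (n : ℕ) (t : ℝ) : ℝ := 1 - t + Real.sin (fq n * t) / (2 * fq n)

/-- The oscillating tent. -/
noncomputable def fosc (n : ℕ) (x : ℝ) : ℝ := prof n (min |x| 1)

theorem prof_hasDerivAt (n : ℕ) (t : ℝ) :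
    HasDerivAt (prof n) (-1 + Real.cos (fq n * t) / 2) t := by
  have h0 := (fq_pos n).ne'
  have h1 : HasDerivAt (fun t => fq n * t) (fq n) t := by
    simpa using (hasDerivAt_id t).const_mul (fq n)
  have h2 := ((Real.hasDerivAt_sin (fq n * t)).comp t h1).div_const (2 * fq n)
  have h3 : HasDerivAt (fun t : ℝ => 1 - t) (-1) t := by
    simpa using (hasDerivAt_id t).const_sub 1
  have h4 : -1 + Real.cos (fq n * t) / 2 = -1 + Real.cos (fq n * t) * fq n / (2 * fq n) := by
    field_simp
  rw [h4]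
  exact h3.add h2

theorem prof_lip (n : ℕ) : LipschitzWith 2 (prof n) := by
  refine lipschitzWith_of_nnnorm_deriv_le (fun x => (prof_hasDerivAt n x).differentiableAt)
    fun x => ?_
  rw [(prof_hasDerivAt n x).deriv, ← NNReal.coe_le_coe, coe_nnnorm, Real.norm_eq_abs, abs_le]
  have h1 := Real.neg_one_le_cos (fq n * x)
  have h2 := Real.cos_le_one (fq n * x)
  constructor
  · simp only [NNReal.coe_ofNat]
    linarith
  · simp only [NNReal.coe_ofNat]
    linarith

theorem minabs_lip : LipschitzWith 1 (fun x : ℝ => min |x| 1) := by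
  have h1 : LipschitzWith 1 (fun x : ℝ => |x|) := lipschitzWith_one_norm (E := ℝ)
  exact h1.min_const 1

theorem fosc_lip (n : ℕ) : LipschitzWith 2 (fosc n) := by
  have := (prof_lip n).comp minabs_lip
  rw [mul_one] at this
  exact this

theorem sin_fq (n : ℕ) : Real.sin (fq n) = 0 := by
  have h1 : fq n = ((2 * (n + 1) : ℕ) : ℝ) * Real.pi := by
    unfold fq
    push_cast
    ring
  rw [h1]
  exact Real.sin_nat_mul_pi _

theorem fosc_eq_zero {n : ℕ} {x : ℝ} (hx : 1 ≤ |x|) : fosc n x = 0 := by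
  unfold fosc prof
  rw [min_eq_right hx, mul_one, sin_fq]
  simp

theorem tri_eq_zero {x : ℝ} (hx : 1 ≤ |x|) : tri x = 0 := by
  unfold tri
  rw [min_eq_right hx]
  simp

theorem fosc_sub_tri (n : ℕ) (x : ℝ) : |fosc n x - tri x| ≤ 1 / (2 * fq n) := by
  unfold fosc prof tri
  have h0 := fq_pos n
  rw [show 1 - min |x| 1 + Real.sin (fq n * min |x| 1) / (2 * fq n) - (1 - min |x| 1) =
    Real.sin (fq n * min |x| 1) / (2 * fq n) by ring, abs_div, abs_of_pos (by positivity : 0 < 2 * fq n)]
  exact div_le_div_of_nonneg_right (Real.abs_sin_le_one _) (by positivity)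

theorem tri_lip : LipschitzWith 1 tri := by
  have h1 := (LipschitzWith.const (α := ℝ) (1 : ℝ)).sub minabs_lip
  rw [zero_add] at h1
  exact h1

theorem tri_abs_le (x : ℝ) : |tri x| ≤ (Icc (-1 : ℝ) 1).indicator (fun _ => (1 : ℝ)) x := by
  by_cases hx : x ∈ Icc (-1 : ℝ) 1
  · rw [indicator_of_mem hx]
    have h1 : |x| ≤ 1 := abs_le.2 ⟨hx.1, hx.2⟩
    unfold tri
    rw [min_eq_left h1, abs_le]
    have := abs_nonneg x
    constructor <;> linarith
  · rw [indicator_of_notMem hx, tri_eq_zero]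
    · simp
    · by_contra hc
      rw [not_le, abs_lt] at hc
      exact hx ⟨hc.1.le, hc.2.le⟩

theorem fosc_abs_le (n : ℕ) (x : ℝ) :
    |fosc n x| ≤ (Icc (-1 : ℝ) 1).indicator (fun _ => (2 : ℝ)) x := by
  by_cases hx : x ∈ Icc (-1 : ℝ) 1
  · rw [indicator_of_mem hx]
    have h1 := tri_abs_le x
    rw [indicator_of_mem hx] at h1
    have h2 := fosc_sub_tri n x
    have h3 : 1 / (2 * fq n) ≤ 1 := by
      rw [div_le_one (by have := fq_pos n; positivity)]
      unfold fq
      have h4 := Real.pi_gt_three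
      have h5 : (0 : ℝ) ≤ n := Nat.cast_nonneg n
      nlinarith
    have h4 : fosc n x = (fosc n x - tri x) + tri x := by ring
    rw [h4]
    refine (abs_add_le _ _).trans ?_
    linarith
  · rw [indicator_of_notMem hx, fosc_eq_zero]
    · simp
    · by_contra hc
      rw [not_le, abs_lt] at hc
      exact hx ⟨hc.1.le, hc.2.le⟩

theorem memLp_indicator (c : ℝ) : MemLp ((Icc (-1 : ℝ) 1).indicator (fun _ => c)) 2 volume :=
  memLp_indicator_const 2 measurableSet_Icc c (Or.inr (by simp))

theorem tri_memLp : MemLp tri 2 volume := by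
  refine (memLp_indicator 1).mono tri_lip.continuous.aestronglyMeasurable
    (Eventually.of_forall fun x => ?_)
  rw [Real.norm_eq_abs, Real.norm_eq_abs]
  exact (tri_abs_le x).trans (le_abs_self _)

theorem fosc_memLp (n : ℕ) : MemLp (fosc n) 2 volume := by
  refine (memLp_indicator 2).mono (fosc_lip n).continuous.aestronglyMeasurable
    (Eventually.of_forall fun x => ?_)
  rw [Real.norm_eq_abs, Real.norm_eq_abs]
  exact (fosc_abs_le n x).trans (le_abs_self _)

theorem fosc_deriv_sq (n : ℕ) {x : ℝ} (h0 : x ≠ 0) (h1 : x ≠ 1) (h2 : x ≠ -1) :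
    deriv (fosc n) x ^ 2 =
      (Icc (-1 : ℝ) 1).indicator (fun x => (1 - Real.cos (fq n * x) / 2) ^ 2) x := by
  by_cases hx : x ∈ Icc (-1 : ℝ) 1
  · rw [indicator_of_mem hx]
    rcases lt_or_gt_of_ne h0 with h3 | h3
    · have h4 : fosc n =ᶠ[𝓝 x] fun y => prof n (-y) := by
        have h5 : Ioo (-1 : ℝ) 0 ∈ 𝓝 x := Ioo_mem_nhds (lt_of_le_of_ne hx.1 (Ne.symm h2)) h3
        filter_upwards [h5] with y hy
        unfold fosc
        rw [abs_of_neg hy.2, min_eq_left (by linarith [hy.1])]
      have h5 : HasDerivAt (fun y => prof n (-y)) (-(-1 + Real.cos (fq n * -x) / 2)) x := by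
        have := (prof_hasDerivAt n (-x)).comp x (hasDerivAt_neg x)
        rw [mul_neg_one] at this
        exact this
      rw [h4.deriv_eq, h5.deriv]
      rw [mul_neg, Real.cos_neg]
      ring
    · have h4 : fosc n =ᶠ[𝓝 x] fun y => prof n y := by
        have h5 : Ioo (0 : ℝ) 1 ∈ 𝓝 x := Ioo_mem_nhds h3 (lt_of_le_of_ne hx.2 h1)
        filter_upwards [h5] with y hy
        unfold fosc
        rw [abs_of_pos hy.1, min_eq_left (by linarith [hy.2])]
      rw [h4.deriv_eq]
      change deriv (prof n) x ^ 2 = _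
      rw [(prof_hasDerivAt n x).deriv]
      ring
  · rw [indicator_of_notMem hx]
    have h3 : fosc n =ᶠ[𝓝 x] fun _ => 0 := by
      have h5 : (Icc (-1 : ℝ) 1)ᶜ ∈ 𝓝 x := isClosed_Icc.isOpen_compl.mem_nhds hx
      filter_upwards [h5] with y hy
      refine fosc_eq_zero ?_
      by_contra hc
      rw [not_le, abs_lt] at hc
      exact hy ⟨hc.1.le, hc.2.le⟩
    rw [h3.deriv_eq]
    simp

theorem energy_integral (n : ℕ) :
    ∫ x in (-1 : ℝ)..1, osc n x * (1 - Real.cos (fq n * x) / 2) ^ 2 = 7 / 2 := by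
  have h0 := (fq_pos n).ne'
  have key : ∀ x : ℝ, HasDerivAt (fun x : ℝ => 2 * x - Real.sin (fq n * x) / fq n -
      (x / 4 + Real.sin (fq n * x) * Real.cos (fq n * x) / (4 * fq n)) +
      (Real.sin (fq n * x) / (4 * fq n) - Real.sin (fq n * x) ^ 3 / (12 * fq n)))
      (osc n x * (1 - Real.cos (fq n * x) / 2) ^ 2) x := by
    intro x
    have h1 : HasDerivAt (fun t => fq n * t) (fq n) x := by
      simpa using (hasDerivAt_id x).const_mul (fq n)
    have hs : HasDerivAt (fun t => Real.sin (fq n * t)) (Real.cos (fq n * x) * fq n) x :=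
      (Real.hasDerivAt_sin (fq n * x)).comp x h1
    have hc : HasDerivAt (fun t => Real.cos (fq n * t)) (-Real.sin (fq n * x) * fq n) x :=
      (Real.hasDerivAt_cos (fq n * x)).comp x h1
    have hx : HasDerivAt (fun t : ℝ => t) 1 x := hasDerivAt_id x
    have := (((hx.const_mul 2).sub (hs.div_const (fq n))).sub
      ((hx.div_const 4).add ((hs.mul hc).div_const (4 * fq n)))).add
      ((hs.div_const (4 * fq n)).sub ((hs.pow 3).div_const (12 * fq n)))
    refine this.congr_deriv ?_
    have hsc := Real.sin_sq_add_cos_sq (fq n * x)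
    have hs2 : Real.sin (fq n * x) ^ 2 = 1 - Real.cos (fq n * x) ^ 2 := by linarith
    unfold osc
    field_simp
    ring_nf
    rw [hs2]
    ring
  rw [intervalIntegral.integral_eq_sub_of_hasDerivAt (fun x _ => key x)]
  · have h1 : Real.sin (fq n * 1) = 0 := by rw [mul_one, sin_fq]
    have h2 : Real.sin (fq n * -1) = 0 := by rw [mul_neg, mul_one, Real.sin_neg, sin_fq, neg_zero]
    simp only [h1, h2]
    ring
  · refine Continuous.intervalIntegrable ?_ _ _
    unfold osc
    fun_prop

theorem fosc_preCheeger (n : ℕ) : preCheeger (wm (osc n)) (fosc n) = 7 / 4 := by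
  rw [preCheeger_eq (osc_isWeight n) ⟨2, fosc_lip n⟩, lintegral_wm (osc_isWeight n)]
  have h1 : ∫⁻ x, ENNReal.ofReal (osc n x) * ENNReal.ofReal (deriv (fosc n) x ^ 2) =
      ∫⁻ x in Icc (-1 : ℝ) 1, ENNReal.ofReal (osc n x * (1 - Real.cos (fq n * x) / 2) ^ 2) := by
    rw [← lintegral_indicator measurableSet_Icc]
    have h2 : ∀ᵐ x : ℝ, x ∉ ({0, 1, -1} : Set ℝ) := by
      have : ({0, 1, -1} : Set ℝ).Countable := by
        exact (Set.toFinite _).countable
      exact this.ae_notMem volume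
    refine lintegral_congr_ae ?_
    filter_upwards [h2] with x hx
    simp only [mem_insert_iff, mem_singleton_iff, not_or] at hx
    rw [fosc_deriv_sq n hx.1 hx.2.1 hx.2.2, ← ENNReal.ofReal_mul ((osc_isWeight n).pos x).le]
    by_cases h : x ∈ Icc (-1 : ℝ) 1
    · simp [indicator_of_mem h]
    · simp [indicator_of_notMem h]
  have hcont : Continuous fun x => osc n x * (1 - Real.cos (fq n * x) / 2) ^ 2 := by
    unfold osc
    fun_prop
  rw [h1, ← ofReal_integral_eq_lintegral_ofReal]
  · rw [integral_Icc_eq_integral_Ioc, ← intervalIntegral.integral_of_le (by norm_num),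
      energy_integral]
    rw [show (7 / 2 : ℝ) = 2 * (7 / 4) by norm_num, ENNReal.ofReal_mul (by norm_num),
      ← mul_assoc]
    have h5 : (1 / 2 : ℝ≥0∞) * ENNReal.ofReal 2 = 1 := by
      rw [ENNReal.ofReal_ofNat, one_div]
      exact ENNReal.inv_mul_cancel (by norm_num) (by norm_num)
    rw [h5, one_mul, ENNReal.ofReal_div_of_pos (by norm_num)]
    norm_num
  · exact hcont.continuousOn.integrableOn_compact isCompact_Icc
  · exact Eventually.of_forall fun x => mul_nonneg ((osc_isWeight n).pos x).le (sq_nonneg _)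

theorem fosc_cheeger_le (n : ℕ) : cheeger (wm (osc n)) (fosc n) ≤ 7 / 4 := by
  refine (iInf₂_le (fun _ => fosc n) ?_).trans ?_
  · refine ⟨fun _ => ⟨⟨2, fosc_lip n⟩, (memLp_wm_iff (osc_isWeight n)).2 (fosc_memLp n)⟩, ?_⟩
    simp
  · rw [liminf_const, fosc_preCheeger]

end Pool.Agent.helper65.MMS
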