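import Pool.Agent.helper65.LineMin

/-!
# Harmonic functions on the weighted line
-/

open MeasureTheory Filter Topology Set Metric
open scoped ENNReal NNReal

namespace Pool.Agent.helper65.MMS

/-! ### Cut-off functions -/

/-- The cut-off function which is `1` on the ball of radius `s` and `0` outside that of radius
`t`. -/
noncomputable def cut (a s t : ℝ) (x : ℝ) : ℝ := max 0 (min 1 ((t - |x - a|) / (t - s)))

theorem cut_isLip {a s t : ℝ} (hst : s < t) : IsLip (cut a s t) := by
  have hpos : 0 < t - s := sub_pos.2 hst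
  have h1 : LipschitzWith (Real.toNNReal (1 / (t - s))) (fun x : ℝ => (t - |x - a|) / (t - s)) := by
    refine LipschitzWith.of_dist_le_mul fun x y => ?_
    rw [Real.coe_toNNReal _ (by positivity), Real.dist_eq, Real.dist_eq, ← sub_div, abs_div,
      abs_of_pos hpos, div_mul_eq_mul_div, one_mul]
    refine div_le_div_of_nonneg_right ?_ hpos.le
    rw [show t - |x - a| - (t - |y - a|) = |y - a| - |x - a| by ring]
    refine (abs_abs_sub_abs_le_abs_sub _ _).trans (le_of_eq ?_)
    rw [abs_sub_comm]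
    congr 1
    ring
  have h2 := (h1.const_min 1).const_max 0
  exact ⟨_, h2⟩

theorem cut_eq_one {a s t x : ℝ} (hst : s < t) (hx : |x - a| ≤ s) : cut a s t x = 1 := by
  have hpos : 0 < t - s := sub_pos.2 hst
  have h1 : 1 ≤ (t - |x - a|) / (t - s) := by
    rw [le_div_iff₀ hpos]
    linarith
  unfold cut
  rw [min_eq_left h1]
  simp

theorem cut_eq_zero {a s t x : ℝ} (hst : s < t) (hx : t ≤ |x - a|) : cut a s t x = 0 := by
  have hpos : 0 < t - s := sub_pos.2 hst
  have h1 : (t - |x - a|) / (t - s) ≤ 0 := div_nonpos_of_nonpos_of_nonneg (by linarith) hpos.le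
  unfold cut
  refine max_eq_left ((min_le_right _ _).trans h1)

theorem cut_tsupport {a s t : ℝ} (hst : s < t) : tsupport (cut a s t) ⊆ closedBall a t := by
  refine closure_minimal ?_ isClosed_closedBall
  intro x hx
  rw [mem_closedBall, Real.dist_eq]
  by_contra h
  exact hx (cut_eq_zero hst (not_le.1 h).le)

theorem cut_isLipc {a s t r : ℝ} (hst : s < t) (htr : t < r) : IsLipc (ball a r) (cut a s t) := by
  refine ⟨cut_isLip hst, ?_, ?_⟩
  · exact HasCompactSupport.of_support_subset_isCompact (isCompact_closedBall a t)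
      (subset_closure.trans (cut_tsupport hst))
  · exact (cut_tsupport hst).trans (closedBall_subset_ball htr)

theorem cut_eventually {a s t x : ℝ} (hst : s < t) (hx : x ∈ ball a s) :
    ∀ᶠ y in 𝓝 x, cut a s t y = 1 := by
  filter_upwards [isOpen_ball.mem_nhds hx] with y hy
  rw [mem_ball, Real.dist_eq] at hy
  exact cut_eq_one hst hy.le

/-- The radii exhausting a ball. -/
noncomputable def rad (r : ℝ) (k : ℕ) : ℝ := r - r / (k + 2)

theorem rad_lt {r : ℝ} (hr : 0 < r) (k : ℕ) : rad r k < r := by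
  unfold rad
  have : 0 < r / ((k : ℝ) + 2) := by positivity
  linarith

theorem rad_pos {r : ℝ} (hr : 0 < r) (k : ℕ) : 0 < rad r k := by
  unfold rad
  have h1 : r / ((k : ℝ) + 2) ≤ r / 2 := by
    refine div_le_div_of_nonneg_left hr.le (by norm_num) ?_
    have : (0 : ℝ) ≤ k := Nat.cast_nonneg k
    linarith
  linarith

theorem rad_strictMono {r : ℝ} (hr : 0 < r) : StrictMono (rad r) := by
  refine strictMono_nat_of_lt_succ fun k => ?_
  unfold rad
  have : r / (((k + 1 : ℕ) : ℝ) + 2) < r / ((k : ℝ) + 2) := by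
    refine div_lt_div_of_pos_left hr (by positivity) ?_
    push_cast
    linarith
  linarith

theorem tendsto_rad (r : ℝ) : Tendsto (rad r) atTop (𝓝 r) := by
  have h1 : Tendsto (fun k : ℕ => r / ((k : ℝ) + 2)) atTop (𝓝 0) :=
    tendsto_const_nhds.div_atTop (tendsto_atTop_add_const_right _ _ tendsto_natCast_atTop_atTop)
  have h2 := h1.const_sub r
  rw [sub_zero] at h2
  exact h2

theorem exists_rad {a r x : ℝ} (hx : x ∈ ball a r) : ∃ k, x ∈ ball a (rad r k) := by
  rw [mem_ball] at hx
  obtain ⟨k, hk⟩ := ((tendsto_rad r).eventually (lt_mem_nhds hx)).exists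
  exact ⟨k, hk⟩

/-- A compact subset of a ball lies in a smaller ball. -/
theorem exists_rad_of_compact {a r : ℝ} (hr : 0 < r) {K : Set ℝ} (hK : IsCompact K)
    (hKr : K ⊆ ball a r) : ∃ k, K ⊆ ball a (rad r k) := by
  obtain ⟨k, hk⟩ := hK.elim_directed_cover (fun k => ball a (rad r k)) (fun k => isOpen_ball)
    (fun x hx => mem_iUnion.2 (exists_rad (hKr hx)))
    (fun i j => ⟨max i j, ball_subset_ball ((rad_strictMono hr).monotone (le_max_left i j)),
      ball_subset_ball ((rad_strictMono hr).monotone (le_max_right i j))⟩)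
  exact ⟨k, hk⟩

/-- Two continuous functions equal a.e. on an open set are equal on it. -/
theorem eqOn_of_ae {F G : ℝ → ℝ} {U : Set ℝ} (hU : IsOpen U) (hF : Continuous F)
    (hG : Continuous G) (h : ∀ᵐ x, x ∈ U → F x = G x) : EqOn F G U := by
  intro x hx
  by_contra hne
  have hopen : IsOpen {y | y ∈ U ∧ F y ≠ G y} := hU.inter (isOpen_ne_fun hF hG)
  have hpos : 0 < volume {y | y ∈ U ∧ F y ≠ G y} := hopen.measure_pos volume ⟨x, hx, hne⟩
  have hzero : volume {y | y ∈ U ∧ F y ≠ G y} = 0 := by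
    refine measure_mono_null (t := {y | ¬ (y ∈ U → F y = G y)}) ?_ (ae_iff.1 h)
    rintro y ⟨hy1, hy2⟩ hy3
    exact hy2 (hy3 hy1)
  exact hpos.ne' hzero

/-! ### Local representatives -/

/-- `H` is locally a good function on `B`. -/
def LocGood (B : Set ℝ) (H : ℝ → ℝ) : Prop := ∀ χ : ℝ → ℝ, IsLipc B χ → Good (fun x => χ x * H x)

theorem LocGood.add_lip {B : Set ℝ} {H φ : ℝ → ℝ} (hH : LocGood B H) (hφ : IsLipc B φ) :
    LocGood B (fun x => H x + φ x) := by
  intro χ hχ
  have h1 := (hH χ hχ).add ((good_of_lip hφ.1 hφ.2.1).lip_mul hχ.1 hχ.2.1)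
  have h2 : (fun x => χ x * (H x + φ x)) = fun x => χ x * H x + χ x * φ x := by
    funext x; ring
  rw [h2]
  exact h1

/-- A locally good function is a.e. differentiable. -/
theorem LocGood.ae_diff {a r : ℝ} (hr : 0 < r) {H : ℝ → ℝ} (hH : LocGood (ball a r) H) :
    ∀ᵐ x, x ∈ ball a r → DifferentiableAt ℝ H x := by
  have h1 : ∀ k : ℕ, ∀ᵐ x, x ∈ ball a (rad r k) → DifferentiableAt ℝ H x := by
    intro k
    have hst := rad_strictMono hr (Nat.lt_succ_self k)
    have h2 := (hH _ (cut_isLipc (a := a) hst (rad_lt hr _))).lac.ae_differentiableAt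
    filter_upwards [h2] with x hx hxb
    refine hx.congr_of_eventuallyEq ?_
    filter_upwards [cut_eventually hst hxb] with y hy
    rw [hy, one_mul]
  filter_upwards [ae_all_iff.2 h1] with x hx hxb
  obtain ⟨k, hk⟩ := exists_rad hxb
  exact hx k hk

/-- The local slope of a function with a locally good representative. -/
theorem isLocSlope_of_locGood {w : ℝ → ℝ} (hw : IsWeight w) {a r : ℝ} {h H : ℝ → ℝ}
    (hH : LocGood (ball a r) H) (hhH : ∀ᵐ x, x ∈ ball a r → h x = H x) :
    IsLocSlope (wm w) (ball a r) h (fun x => |deriv H x|) := by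
  intro χ hχ
  have hgood := hH χ hχ
  have hae : (fun x => χ x * H x) =ᵐ[volume] fun x => χ x * h x := by
    filter_upwards [hhH] with x hx
    by_cases hxb : x ∈ ball a r
    · rw [hx hxb]
    · have : χ x = 0 := by
        by_contra hne
        exact hxb (hχ.2.2 (subset_tsupport χ hne))
      rw [this, zero_mul, zero_mul]
  refine ⟨(memLp_wm_iff hw).2 (hgood.memLp_self.ae_eq hae), fun x => |deriv (fun y => χ y * H y) x|,
    (hgood.isMinSlope hw).congr ((ae_wm_iff hw).2 hae), ?_⟩
  refine Eventually.of_forall fun x hx => ?_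
  have h1 : (fun y => χ y * H y) =ᶠ[𝓝 x] H := by
    filter_upwards [hx] with y hy
    rw [hy, one_mul]
  simp only
  rw [h1.deriv_eq]

/-- A function with a local slope has a locally good representative. -/
theorem exists_locGood {w : ℝ → ℝ} (hw : IsWeight w) {a r : ℝ} (hr : 0 < r) {h G : ℝ → ℝ}
    (hG : IsLocSlope (wm w) (ball a r) h G) :
    ∃ H : ℝ → ℝ, LocGood (ball a r) H ∧ (∀ᵐ x, x ∈ ball a r → h x = H x) ∧
      (∀ᵐ x, x ∈ ball a r → G x = |deriv H x|) := by
  classical
  have hst : ∀ k : ℕ, rad r k < rad r (k + 1) := fun k => rad_strictMono hr (Nat.lt_succ_self k)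
  have hex : ∀ k : ℕ, ∃ F : ℝ → ℝ, Good F ∧ (∀ᵐ x, x ∈ ball a (rad r k) → h x = F x) ∧
      (∀ᵐ x, x ∈ ball a (rad r k) → G x = |deriv F x|) := by
    intro k
    obtain ⟨hmem, S, hS, hGS⟩ := hG _ (cut_isLipc (a := a) (hst k) (rad_lt hr _))
    obtain ⟨F, hF, hfF, hSF⟩ := exists_good_rep hw hS ((memLp_wm_iff hw).1 hmem)
      (R := |a| + rad r (k + 1)) (by
        intro x hx
        rw [cut_eq_zero (hst k), zero_mul]
        have := abs_sub_abs_le_abs_sub x a
        linarith)
    refine ⟨F, hF, ?_, ?_⟩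
    · filter_upwards [hfF] with x hx hxb
      rw [← hx, (cut_eventually (hst k) hxb).self_of_nhds, one_mul]
    · filter_upwards [(ae_wm_iff hw).1 hGS, hSF] with x hx1 hx2 hxb
      rw [hx1 (cut_eventually (hst k) hxb), hx2]
  choose F hF hhF hGF using hex
  -- compatibility
  have hcomp : ∀ j k, j ≤ k → EqOn (F j) (F k) (ball a (rad r j)) := by
    intro j k hjk
    refine eqOn_of_ae isOpen_ball (hF j).cont (hF k).cont ?_
    filter_upwards [hhF j, hhF k] with x h1 h2 hx
    rw [← h1 hx, ← h2 (ball_subset_ball ((rad_strictMono hr).monotone hjk) hx)]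
  let H : ℝ → ℝ := fun x => if hx : ∃ k, x ∈ ball a (rad r k) then F (Nat.find hx) x else 0
  have hHF : ∀ k, EqOn H (F k) (ball a (rad r k)) := by
    intro k x hx
    have hex : ∃ k, x ∈ ball a (rad r k) := ⟨k, hx⟩
    simp only [H]
    rw [dif_pos hex]
    exact hcomp _ k (Nat.find_min' hex hx) (Nat.find_spec hex)
  have hHFe : ∀ k, ∀ x ∈ ball a (rad r k), H =ᶠ[𝓝 x] F k := by
    intro k x hx
    filter_upwards [isOpen_ball.mem_nhds hx] with y hy
    exact hHF k hy
  refine ⟨H, ?_, ?_, ?_⟩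
  · intro χ hχ
    obtain ⟨k, hk⟩ := exists_rad_of_compact hr hχ.2.1.isCompact hχ.2.2
    have h1 : (fun x => χ x * H x) = fun x => χ x * F k x := by
      funext x
      by_cases hx : x ∈ tsupport χ
      · rw [hHF k (hk hx)]
      · have : χ x = 0 := by
          by_contra hne
          exact hx (subset_tsupport χ hne)
        rw [this, zero_mul, zero_mul]
    rw [h1]
    exact (hF k).lip_mul hχ.1 hχ.2.1
  · filter_upwards [ae_all_iff.2 hhF] with x hx hxb
    obtain ⟨k, hk⟩ := exists_rad hxb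
    rw [hHF k hk]
    exact hx k hk
  · filter_upwards [ae_all_iff.2 hGF] with x hx hxb
    obtain ⟨k, hk⟩ := exists_rad hxb
    rw [(hHFe k x hk).deriv_eq]
    exact hx k hk

/-! ### The equation for harmonic functions -/

theorem IsLipc.neg {B : Set ℝ} {φ : ℝ → ℝ} (hφ : IsLipc B φ) : IsLipc B (fun x => -φ x) := by
  obtain ⟨⟨K, hK⟩, h2, h3⟩ := hφ
  refine ⟨⟨K, hK.neg⟩, h2.neg, ?_⟩
  have : tsupport (fun x => -φ x) = tsupport φ := by
    unfold tsupport
    congr 1
    ext x
    simp
  rw [this]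
  exact h3

/-- The weak form of the equation `(w H')' = 0`. -/
theorem harmonic_weak {w : ℝ → ℝ} (hw : IsWeight w) {a r : ℝ} (hr : 0 < r) {h H : ℝ → ℝ}
    (hH : LocGood (ball a r) H) (hhH : ∀ᵐ x, x ∈ ball a r → h x = H x)
    (hh : IsHarmonic (wm w) (ball a r) h) {φ : ℝ → ℝ} (hφ : IsLipc (ball a r) φ) :
    ∫ x in ball a r, w x * (deriv H x * deriv φ x) = 0 := by
  have h1 : IsLocSlope (wm w) (ball a r) (fun x => h x + φ x)
      (fun x => |deriv (fun y => H y + φ y) x|) := by
    refine isLocSlope_of_locGood hw (hH.add_lip hφ) ?_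
    filter_upwards [hhH] with x hx hxb
    rw [hx hxb]
  have h2 : IsLocSlope (wm w) (ball a r) (fun x => h x - φ x)
      (fun x => |deriv (fun y => H y + -φ y) x|) := by
    refine isLocSlope_of_locGood hw (hH.add_lip hφ.neg) ?_
    filter_upwards [hhH] with x hx hxb
    rw [hx hxb, sub_eq_add_neg]
  have h3 := hh.2 φ hφ _ _ h1 h2
  rw [setIntegral_wm hw _ measurableSet_ball] at h3
  rw [← h3]
  refine setIntegral_congr_ae measurableSet_ball ?_
  filter_upwards [hH.ae_diff hr, hφ.1.lac.ae_differentiableAt] with x hx1 hx2 hxb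
  have e1 : deriv (fun y => H y + φ y) x = deriv H x + deriv φ x :=
    ((hx1 hxb).hasDerivAt.add hx2.hasDerivAt).deriv
  have e2 : deriv (fun y => H y + -φ y) x = deriv H x + -deriv φ x :=
    ((hx1 hxb).hasDerivAt.add hx2.hasDerivAt.neg).deriv
  rw [e1, e2, sq_abs, sq_abs]
  ring

end Pool.Agent.helper65.MMS
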