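import Pool.Agent.helper65.LineWeight

/-!
# Minimal slopes of compactly supported functions on the weighted line
-/

open MeasureTheory Filter Topology Set Metric
open scoped ENNReal NNReal

namespace Pool.Agent.helper65.MMS

/-! ### Two facts on square integrable functions -/

/-- The Cauchy-Schwarz inequality on an interval. -/
theorem abs_integral_le {g : ℝ → ℝ} (hg : MemLp g 2 volume) {x y : ℝ} (hxy : x ≤ y) :
    |∫ t in x..y, g t| ≤ Real.sqrt (y - x) * (eLpNorm g 2 volume).toReal := by
  have hgi := intervalIntegrable_of_memLp hg x y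
  have h1 : |∫ t in x..y, g t| ≤ ∫ t in Ioc x y, ‖g t‖ := by
    rw [intervalIntegral.integral_of_le hxy, ← Real.norm_eq_abs]
    exact norm_integral_le_integral_norm (μ := volume.restrict (Ioc x y)) (fun t => g t)
  have h2 : ∫ t in Ioc x y, ‖g t‖ = (eLpNorm g 1 (volume.restrict (Ioc x y))).toReal := by
    rw [eLpNorm_one_eq_lintegral_enorm, integral_norm_eq_lintegral_enorm hg.1.restrict]
  have h3 : eLpNorm g 1 (volume.restrict (Ioc x y)) ≤
      eLpNorm g 2 volume * ENNReal.ofReal (Real.sqrt (y - x)) := by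
    have h4 := eLpNorm_le_eLpNorm_mul_rpow_measure_univ (μ := volume.restrict (Ioc x y))
      (p := 1) (q := 2) (by norm_num) hg.1.restrict
    refine h4.trans ?_
    have h5 : (volume.restrict (Ioc x y)) univ ^ (1 / (1 : ℝ≥0∞).toReal - 1 / (2 : ℝ≥0∞).toReal) =
        ENNReal.ofReal (Real.sqrt (y - x)) := by
      rw [Measure.restrict_apply_univ, Real.volume_Ioc, Real.sqrt_eq_rpow,
        ← ENNReal.ofReal_rpow_of_nonneg (by linarith) (by norm_num)]
      congr 1
      norm_num
    rw [h5]
    exact mul_le_mul_left (eLpNorm_mono_measure _ Measure.restrict_le_self) _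
  rw [h2] at h1
  refine h1.trans ?_
  have h6 := ENNReal.toReal_mono (ENNReal.mul_ne_top hg.2.ne ENNReal.ofReal_ne_top) h3
  rw [ENNReal.toReal_mul, ENNReal.toReal_ofReal (Real.sqrt_nonneg _)] at h6
  linarith

/-- Strong convergence in `L²` implies weak convergence. -/
theorem tendsto_integral_mul {X : Type*} [MeasurableSpace X] {μ : Measure X} {f ψ : X → ℝ}
    {F : ℕ → X → ℝ} (hf : MemLp f 2 μ) (hF : ∀ n, MemLp (F n) 2 μ) (hψ : MemLp ψ 2 μ)
    (h : Tendsto (fun n => eLpNorm (fun x => F n x - f x) 2 μ) atTop (𝓝 0)) :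
    Tendsto (fun n => ∫ x, F n x * ψ x ∂μ) atTop (𝓝 (∫ x, f x * ψ x ∂μ)) := by
  refine tendsto_integral_of_L1' (fun x => f x * ψ x) (hf.1.mul hψ.1) ?_ ?_
  · exact Eventually.of_forall fun n => (hF n).integrable_mul hψ
  · have h1 : Tendsto (fun n => eLpNorm (fun x => F n x - f x) 2 μ * eLpNorm ψ 2 μ) atTop (𝓝 0) := by
      have := ENNReal.Tendsto.mul_const (b := eLpNorm ψ 2 μ) h (Or.inr hψ.2.ne)
      simpa using this
    refine tendsto_of_tendsto_of_tendsto_of_le_of_le tendsto_const_nhds h1 (fun _ => zero_le)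
      (fun n => ?_)
    have h2 : (fun x => F n x * ψ x) - (fun x => f x * ψ x) =
        (fun x => F n x - f x) • ψ := by
      funext x
      simp only [Pi.sub_apply, Pi.smul_apply', smul_eq_mul]
      ring
    rw [h2]
    exact eLpNorm_smul_le_mul_eLpNorm hψ.1 ((hF n).1.sub hf.1)

/-! ### Good functions -/

/-- `F` is compactly supported, locally absolutely continuous with square integrable derivative. -/
structure Good (F : ℝ → ℝ) : Prop where
  lac : LAC F
  memLp : MemLp (deriv F) 2 volume
  supp : HasCompactSupport F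

theorem Good.cont {F : ℝ → ℝ} (h : Good F) : Continuous F := h.lac.continuous

theorem Good.memLp_self {F : ℝ → ℝ} (h : Good F) : MemLp F 2 volume :=
  h.cont.memLp_of_hasCompactSupport h.supp

/-- A good function vanishes outside a bounded interval. -/
theorem Good.exists_bound {F : ℝ → ℝ} (h : Good F) : ∃ R : ℝ, 0 < R ∧ ∀ x, R ≤ |x| → F x = 0 := by
  obtain ⟨R, hR⟩ := h.supp.isCompact.isBounded.exists_norm_le
  refine ⟨max R 0 + 1, by positivity, fun x hx => ?_⟩
  by_contra hne
  have h1 := hR x (subset_tsupport F hne)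
  rw [Real.norm_eq_abs] at h1
  have h2 := le_max_left R 0
  linarith

/-- Approximation of a good function by Lipschitz functions. -/
theorem Good.exists_approx {F : ℝ → ℝ} (h : Good F) {ε : ℝ} (hε : 0 < ε) :
    ∃ u : ℝ → ℝ, IsLip u ∧ MemLp u 2 volume ∧
      eLpNorm (fun x => u x - F x) 2 volume ≤ ENNReal.ofReal ε ∧
      eLpNorm (fun x => deriv u x - deriv F x) 2 volume ≤ ENNReal.ofReal ε := by
  obtain ⟨R, hR, hFR⟩ := h.exists_bound
  let g := deriv F
  have hgdef : g = deriv F := rfl
  have hgm : Measurable g := measurable_deriv F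
  have hg : MemLp g 2 volume := h.memLp
  -- the derivative vanishes outside `[-R, R]`
  have hg0 : ∀ x, R < |x| → g x = 0 := by
    intro x hx
    have h1 : F =ᶠ[𝓝 x] fun _ => 0 := by
      have h2 : ∀ᶠ y in 𝓝 x, R < |y| := continuous_abs.continuousAt.eventually (lt_mem_nhds hx)
      filter_upwards [h2] with y hy
      exact hFR y hy.le
    rw [hgdef, h1.deriv_eq, deriv_const]
  -- a bounded function close to `g`
  set K : ℝ := Real.sqrt (2 * R) with hK
  have hKpos : 0 < K := Real.sqrt_pos.2 (by positivity)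
  have hKsq : K * K = 2 * R := Real.mul_self_sqrt (by positivity)
  let ε' : ℝ := ε / (2 * (1 + K * K))
  have hε' : 0 < ε' := by positivity
  obtain ⟨M, hM⟩ := hg.eLpNorm_indicator_norm_ge_le hgm.stronglyMeasurable hε'
  let T : Set ℝ := {x | M ≤ ‖g x‖₊}
  have hT : MeasurableSet T := measurableSet_le measurable_const hgm.nnnorm.coe_nnreal_real
  let b : ℝ → ℝ := Tᶜ.indicator g
  have hb : MemLp b 2 volume := hg.indicator hT.compl
  have hbg : (fun x => b x - g x) = fun x => -(T.indicator g x) := by
    funext x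
    simp only [b, Set.indicator, mem_compl_iff]
    split_ifs <;> simp_all
  have hbg2 : eLpNorm (fun x => b x - g x) 2 volume ≤ ENNReal.ofReal ε' := by
    rw [hbg]
    have : eLpNorm (fun x => -(T.indicator g x)) 2 volume = eLpNorm (T.indicator g) 2 volume :=
      eLpNorm_neg _ _ _
    rw [this]
    exact hM
  have hbgm : MemLp (fun x => b x - g x) 2 volume := hb.sub hg
  have hbgr : (eLpNorm (fun x => b x - g x) 2 volume).toReal ≤ ε' := by
    have := ENNReal.toReal_mono ENNReal.ofReal_ne_top hbg2
    rwa [ENNReal.toReal_ofReal hε'.le] at this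
  -- the correction
  let c : ℝ := (∫ t in (-R)..R, b t) / (2 * R)
  have hint0 : ∫ t in (-R)..R, g t = 0 := by
    rw [hgdef, h.lac.ftc, hFR R (by rw [abs_of_pos hR]), hFR (-R) (by rw [abs_neg, abs_of_pos hR])]
    ring
  have hbi := intervalIntegrable_of_memLp hb
  have hgi := intervalIntegrable_of_memLp hg
  have hint1 : ∫ t in (-R)..R, b t = ∫ t in (-R)..R, (b t - g t) := by
    rw [intervalIntegral.integral_sub (hbi _ _) (hgi _ _), hint0, sub_zero]
  have hc : |c| ≤ K * ε' / (2 * R) := by
    have h1 := abs_integral_le hbgm (show -R ≤ R by linarith)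
    rw [show R - -R = 2 * R by ring, ← hint1] at h1
    simp only [c]
    rw [abs_div, abs_of_pos (show (0 : ℝ) < 2 * R by positivity)]
    refine div_le_div_of_nonneg_right (h1.trans ?_) (by positivity)
    exact mul_le_mul_of_nonneg_left hbgr (Real.sqrt_nonneg _)
  let I : Set ℝ := Ioc (-R) R
  let e : ℝ → ℝ := I.indicator fun _ => c
  have he : MemLp e 2 volume := memLp_indicator_const 2 measurableSet_Ioc c (Or.inr (by simp))
  have hen : eLpNorm e 2 volume ≤ ENNReal.ofReal (|c| * K) := by
    have h1 := eLpNorm_indicator_const (μ := (volume : Measure ℝ)) (p := 2) (c := c)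
      (measurableSet_Ioc (a := -R) (b := R)) (by norm_num) (by norm_num)
    have h2 : eLpNorm e 2 volume = ‖c‖ₑ * volume (Ioc (-R) R) ^ (1 / (2 : ℝ≥0∞).toReal) := h1
    rw [h2, Real.volume_Ioc, show R - -R = 2 * R by ring, ENNReal.ofReal_mul (abs_nonneg _),
      ← Real.norm_eq_abs, ofReal_norm, hK, Real.sqrt_eq_rpow,
      ← ENNReal.ofReal_rpow_of_nonneg (by positivity) (by norm_num)]
    simp
  let v : ℝ → ℝ := fun x => b x - e x
  have hv : MemLp v 2 volume := hb.sub he
  have hvi := intervalIntegrable_of_memLp hv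
  have hvg : eLpNorm (fun x => v x - g x) 2 volume ≤ ENNReal.ofReal (2 * ε') := by
    have h1 : (fun x => v x - g x) = (fun x => b x - g x) - e := by
      funext x
      simp only [v, Pi.sub_apply]
      ring
    rw [h1]
    refine (eLpNorm_sub_le hbgm.1 he.1 (by norm_num)).trans ?_
    rw [show 2 * ε' = ε' + ε' by ring, ENNReal.ofReal_add hε'.le hε'.le]
    refine add_le_add hbg2 (hen.trans (ENNReal.ofReal_le_ofReal ?_))
    calc |c| * K ≤ K * ε' / (2 * R) * K := mul_le_mul_of_nonneg_right hc hKpos.le
      _ = ε' := by rw [← hKsq]; field_simp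
  have hvgm : MemLp (fun x => v x - g x) 2 volume := hv.sub hg
  have hvgr : (eLpNorm (fun x => v x - g x) 2 volume).toReal ≤ 2 * ε' := by
    have := ENNReal.toReal_mono ENNReal.ofReal_ne_top hvg
    rwa [ENNReal.toReal_ofReal (by positivity)] at this
  -- the approximation
  let u : ℝ → ℝ := fun x => ∫ t in (-R)..x, v t
  have hulac : LAC u := lac_integral hvi (-R)
  have huF : ∀ x, u x - F x = ∫ t in (-R)..x, (v t - g t) := by
    intro x
    rw [intervalIntegral.integral_sub (hvi _ _) (hgi _ _), hgdef, h.lac.ftc,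
      hFR (-R) (by rw [abs_neg, abs_of_pos hR])]
    ring
  have hv0 : ∀ x, R < |x| → v x = 0 := by
    intro x hx
    have h1 : b x = 0 := by
      simp only [b, Set.indicator]
      rw [hg0 x hx]
      simp
    have h2 : e x = 0 := by
      refine Set.indicator_of_notMem ?_ _
      intro hxI
      have h3 : |x| ≤ R := abs_le.2 ⟨hxI.1.le, hxI.2⟩
      linarith
    simp only [v, h1, h2, sub_zero]
  have hIe : ∫ t in (-R)..R, e t = c * (2 * R) := by
    have h1 : ∫ t in (-R)..R, e t = ∫ t in (-R)..R, c := by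
      refine intervalIntegral.integral_congr_ae ?_
      refine Eventually.of_forall fun x hx => ?_
      rw [uIoc_of_le (by linarith)] at hx
      exact Set.indicator_of_mem hx _
    rw [h1, intervalIntegral.integral_const, smul_eq_mul]
    ring
  have huR : u R = 0 := by
    simp only [u, v]
    rw [intervalIntegral.integral_sub (hbi _ _) (intervalIntegrable_of_memLp he _ _), hIe]
    simp only [c]
    field_simp
    ring
  have hu0 : ∀ x, R < |x| → u x = 0 := by
    intro x hx
    rcases lt_abs.1 hx with h1 | h1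
    · have h2 : u x = u R + ∫ t in R..x, v t := by
        simp only [u]
        rw [intervalIntegral.integral_add_adjacent_intervals (hvi _ _) (hvi _ _)]
      rw [h2, huR, zero_add]
      refine intervalIntegral.integral_zero_ae (Eventually.of_forall fun y hy => ?_)
      rw [uIoc_of_le h1.le] at hy
      exact hv0 y (lt_of_lt_of_le hy.1 (le_abs_self _))
    · simp only [u]
      rw [intervalIntegral.integral_symm, neg_eq_zero]
      refine intervalIntegral.integral_zero_ae ?_
      have hne : ∀ᵐ y : ℝ, y ≠ -R := by simp [ae_iff, measure_singleton]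
      filter_upwards [hne] with y hy1 hy
      rw [uIoc_of_le (by linarith)] at hy
      have h3 : y < -R := lt_of_le_of_ne hy.2 hy1
      exact hv0 y (by rw [lt_abs]; right; linarith)
  have hvb : ∀ x, ‖v x‖ ≤ |M| + |c| := by
    intro x
    have h1 : ‖b x‖ ≤ |M| := by
      by_cases hx : x ∈ T
      · have h2 : b x = 0 := Set.indicator_of_notMem (by simpa using hx) _
        rw [h2]
        simp
      · have h2 : b x = g x := Set.indicator_of_mem hx _
        rw [h2]
        have h3 : ‖g x‖ < M := not_le.1 hx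
        exact h3.le.trans (le_abs_self _)
    have h2 : ‖e x‖ ≤ |c| := by
      simp only [e, Set.indicator]
      split_ifs <;> simp
    exact (norm_sub_le _ _).trans (add_le_add h1 h2)
  have hulip : IsLip u := by
    refine ⟨Real.toNNReal (|M| + |c|), LipschitzWith.of_dist_le_mul fun x y => ?_⟩
    rw [Real.coe_toNNReal _ (by positivity), dist_comm, Real.dist_eq, dist_comm, Real.dist_eq]
    have h1 : u y - u x = ∫ t in x..y, v t := by
      simp only [u]
      rw [intervalIntegral.integral_interval_sub_left (hvi _ _) (hvi _ _)]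
    rw [h1]
    exact intervalIntegral.norm_integral_le_of_norm_le_const fun t _ => hvb t
  have hderu : ∀ᵐ x, deriv u x = v x := by
    filter_upwards [ae_deriv_integral hvi (-R)] with x hx
    exact hx.deriv
  have husup : ∀ x, |u x - F x| ≤ 2 * K * ε' := by
    intro x
    rcases lt_or_ge R |x| with hx | hx
    · rw [hu0 x hx, hFR x hx.le]
      simp
      positivity
    · have h1 : -R ≤ x := (abs_le.1 hx).1
      have h2 : x ≤ R := (abs_le.1 hx).2
      rw [huF]
      refine (abs_integral_le hvgm h1).trans ?_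
      have h3 : Real.sqrt (x - -R) ≤ K := Real.sqrt_le_sqrt (by linarith)
      calc Real.sqrt (x - -R) * (eLpNorm (fun x => v x - g x) 2 volume).toReal
          ≤ K * (2 * ε') := mul_le_mul h3 hvgr ENNReal.toReal_nonneg hKpos.le
        _ = 2 * K * ε' := by ring
  refine ⟨u, hulip, ?_, ?_, ?_⟩
  · -- square integrability
    refine hulac.continuous.memLp_of_hasCompactSupport ?_
    refine HasCompactSupport.of_support_subset_isCompact (isCompact_Icc (a := -R) (b := R)) ?_
    intro x hx
    have h1 : ¬ R < |x| := fun h2 => hx (hu0 x h2)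
    exact abs_le.1 (not_lt.1 h1)
  · -- closeness in `L²`
    let D : ℝ := 2 * K * ε'
    have hD : 0 ≤ D := by positivity
    have h1 : eLpNorm (fun x => u x - F x) 2 volume ≤
        eLpNorm ((Icc (-R) R).indicator fun _ => D) 2 volume := by
      refine eLpNorm_mono_real fun x => ?_
      simp only [Set.indicator]
      split_ifs with hx
      · exact husup x
      · have h2 : R < |x| := by
          rw [← not_le]
          exact fun h3 => hx (abs_le.1 h3)
        rw [hu0 x h2, hFR x h2.le]
        simp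
    refine h1.trans ?_
    rw [eLpNorm_indicator_const measurableSet_Icc (by norm_num) (by norm_num), Real.volume_Icc,
      show R - -R = 2 * R by ring]
    have h2 : ‖D‖ₑ = ENNReal.ofReal D := by
      rw [← ofReal_norm, Real.norm_of_nonneg hD]
    rw [h2]
    have h3 : ENNReal.ofReal (2 * R) ^ (1 / (2 : ℝ≥0∞).toReal) = ENNReal.ofReal K := by
      rw [hK, Real.sqrt_eq_rpow, ← ENNReal.ofReal_rpow_of_nonneg (by positivity) (by norm_num)]
      simp
    rw [h3, ← ENNReal.ofReal_mul hD]
    refine ENNReal.ofReal_le_ofReal ?_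
    have h4 : D * K = 2 * (K * K) * ε' := by simp only [D]; ring
    rw [h4]
    simp only [ε']
    have h5 : 0 ≤ K * K := by positivity
    rw [mul_div_assoc', div_le_iff₀ (by positivity)]
    nlinarith
  · -- closeness of the derivatives
    have h1 : eLpNorm (fun x => deriv u x - deriv F x) 2 volume =
        eLpNorm (fun x => v x - g x) 2 volume := by
      refine eLpNorm_congr_ae ?_
      filter_upwards [hderu] with x hx
      rw [hx]
    rw [h1]
    refine hvg.trans (ENNReal.ofReal_le_ofReal ?_)
    simp only [ε']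
    have h5 : 0 ≤ K * K := by positivity
    rw [mul_div_assoc', div_le_iff₀ (by positivity)]
    nlinarith

/-! ### Minimal slopes -/

theorem IsMinSlope.ae_eq {X : Type*} [MetricSpace X] [MeasurableSpace X] {m : Measure X}
    {f S S' : X → ℝ} (h : IsMinSlope m f S) (h' : IsMinSlope m f S') : S =ᵐ[m] S' := by
  filter_upwards [h.2 S' h'.1, h'.2 S h.1] with x h1 h2
  exact le_antisymm h1 h2

theorem IsRelaxedSlope.congr {X : Type*} [MetricSpace X] [MeasurableSpace X] {m : Measure X}
    {f f' G : X → ℝ} (h : IsRelaxedSlope m f G) (hff : f =ᵐ[m] f') : IsRelaxedSlope m f' G := by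
  obtain ⟨hG, u, g, ⟨hu, hconv⟩, hL, hg, hweak, hgG⟩ := h
  refine ⟨hG, u, g, ⟨hu, ?_⟩, hL, hg, hweak, hgG⟩
  refine hconv.congr fun n => eLpNorm_congr_ae ?_
  filter_upwards [hff] with x hx
  rw [hx]

theorem IsMinSlope.congr {X : Type*} [MetricSpace X] [MeasurableSpace X] {m : Measure X}
    {f f' G : X → ℝ} (h : IsMinSlope m f G) (hff : f =ᵐ[m] f') : IsMinSlope m f' G :=
  ⟨h.1.congr hff, fun G' hG' => h.2 G' (hG'.congr hff.symm)⟩

/-- The minimal slope of a good function on the weighted line. -/
theorem Good.isMinSlope {w : ℝ → ℝ} (hw : IsWeight w) {F : ℝ → ℝ} (h : Good F) :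
    IsMinSlope (wm w) F (fun x => |deriv F x|) := by
  have hG : MemLp (fun x => |deriv F x|) 2 volume := h.memLp.abs
  refine ⟨⟨(memLp_wm_iff hw).2 hG, ?_⟩, ?_⟩
  · have hex : ∀ n : ℕ, ∃ u : ℝ → ℝ, IsLip u ∧ MemLp u 2 volume ∧
        eLpNorm (fun x => u x - F x) 2 volume ≤ ENNReal.ofReal (1 / ((n : ℝ) + 1)) ∧
        eLpNorm (fun x => deriv u x - deriv F x) 2 volume ≤ ENNReal.ofReal (1 / ((n : ℝ) + 1)) :=
      fun n => h.exists_approx (by positivity)
    choose u hulip hum hu1 hu2 using hex
    have hlim : Tendsto (fun n : ℕ => ENNReal.ofReal (1 / ((n : ℝ) + 1))) atTop (𝓝 0) := by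
      have := ENNReal.tendsto_ofReal (tendsto_one_div_add_atTop_nhds_zero_nat (𝕜 := ℝ))
      simpa using this
    have hc1 : Tendsto (fun n => eLpNorm (fun x => u n x - F x) 2 volume) atTop (𝓝 0) :=
      tendsto_of_tendsto_of_tendsto_of_le_of_le tendsto_const_nhds hlim (fun _ => zero_le) hu1
    have hc2 : Tendsto (fun n => eLpNorm (fun x => deriv (u n) x - deriv F x) 2 volume) atTop (𝓝 0) :=
      tendsto_of_tendsto_of_tendsto_of_le_of_le tendsto_const_nhds hlim (fun _ => zero_le) hu2
    have hderm : ∀ n, MemLp (deriv (u n)) 2 volume := by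
      intro n
      have h1 : MemLp (fun x => deriv (u n) x - deriv F x) 2 volume :=
        ⟨((measurable_deriv _).sub (measurable_deriv _)).aestronglyMeasurable,
          lt_of_le_of_lt (hu2 n) ENNReal.ofReal_lt_top⟩
      have h2 := h1.add h.memLp
      refine h2.ae_eq (Eventually.of_forall fun x => ?_)
      simp
    have hLip : ∀ n, ∀ᵐ x, (locLip (u n) x).toReal = |deriv (u n) x| := by
      intro n
      filter_upwards [(hulip n).locLip_ae_eq] with x hx
      rw [hx]
      simp
    have hLipm : ∀ n, MemLp (fun x => (locLip (u n) x).toReal) 2 volume := by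
      intro n
      exact (hderm n).abs.ae_eq ((hLip n).mono fun x hx => hx.symm)
    refine ⟨u, fun x => |deriv F x|, ⟨fun n => ⟨hulip n, (memLp_wm_iff hw).2 (hum n)⟩,
      (tendsto_eLpNorm_wm_iff hw).2 hc1⟩, fun n => (memLp_wm_iff hw).2 (hLipm n),
      (memLp_wm_iff hw).2 hG, ?_, EventuallyLE.refl _ _⟩
    intro ψ hψ
    refine tendsto_integral_mul ((memLp_wm_iff hw).2 hG) (fun n => (memLp_wm_iff hw).2 (hLipm n))
      hψ ?_
    rw [tendsto_eLpNorm_wm_iff hw]
    refine tendsto_of_tendsto_of_tendsto_of_le_of_le tendsto_const_nhds hc2 (fun _ => zero_le)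
      (fun n => ?_)
    refine eLpNorm_mono_ae ?_
    filter_upwards [hLip n] with x hx
    rw [hx, Real.norm_eq_abs, Real.norm_eq_abs]
    exact abs_abs_sub_abs_le_abs_sub _ _
  · intro G' hG'
    obtain ⟨F', hFF', hF', _, hle⟩ := exists_lac_of_relaxedSlope hw hG'
      h.cont.aestronglyMeasurable
    have heq : F = F' := (Continuous.ae_eq_iff_eq volume h.cont hF'.continuous).1 hFF'
    subst heq
    exact (ae_wm_iff hw).2 hle

/-- The representative of a compactly supported function with a minimal slope. -/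
theorem exists_good_rep {w : ℝ → ℝ} (hw : IsWeight w) {f S : ℝ → ℝ}
    (h : IsMinSlope (wm w) f S) (hf : MemLp f 2 volume) {R : ℝ} (hR : ∀ x, R < |x| → f x = 0) :
    ∃ F : ℝ → ℝ, Good F ∧ f =ᵐ[volume] F ∧ S =ᵐ[volume] fun x => |deriv F x| := by
  obtain ⟨F, hfF, hF, hFm, _⟩ := exists_lac_of_relaxedSlope hw h.1 hf.1
  have hF0 : ∀ x, R < |x| → F x = 0 := by
    intro x hx
    by_contra hne
    -- the open set where `F ≠ 0` and `|x| > R` has measure zero
    have hopen : IsOpen {y | R < |y| ∧ F y ≠ 0} :=
      (isOpen_lt continuous_const continuous_abs).inter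
        (isOpen_ne_fun hF.continuous continuous_const)
    have hpos : 0 < volume {y | R < |y| ∧ F y ≠ 0} := hopen.measure_pos volume ⟨x, hx, hne⟩
    have hzero : volume {y | R < |y| ∧ F y ≠ 0} = 0 := by
      refine measure_mono_null (t := {y | ¬ f y = F y}) ?_ (ae_iff.1 hfF)
      rintro y ⟨hy1, hy2⟩ hy3
      exact hy2 (by rw [← hy3, hR y hy1])
    exact hpos.ne' hzero
  have hsupp : HasCompactSupport F := by
    refine HasCompactSupport.of_support_subset_isCompact (isCompact_Icc (a := -R) (b := R)) ?_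
    intro x hx
    have h1 : ¬ R < |x| := fun h2 => hx (hF0 x h2)
    exact abs_le.1 (not_lt.1 h1)
  have hgood : Good F := ⟨hF, hFm, hsupp⟩
  refine ⟨F, hgood, hfF, ?_⟩
  have h1 := (hgood.isMinSlope hw).congr ((ae_wm_iff hw).2 hfF.symm)
  exact (ae_wm_iff hw).1 (h.ae_eq h1)

/-! ### Operations on good functions -/

theorem Good.add {F G : ℝ → ℝ} (hF : Good F) (hG : Good G) : Good (fun x => F x + G x) := by
  refine ⟨hF.lac.add hG.lac, ?_, hF.supp.add hG.supp⟩
  refine (hF.memLp.add hG.memLp).ae_eq ?_
  filter_upwards [hF.lac.ae_differentiableAt, hG.lac.ae_differentiableAt] with x h1 h2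
  simp only [Pi.add_apply]
  exact (h1.hasDerivAt.add h2.hasDerivAt).deriv.symm

/-- The product of a compactly supported Lipschitz function with a good function is good. -/
theorem Good.lip_mul {χ F : ℝ → ℝ} (hχ : IsLip χ) (hχs : HasCompactSupport χ) (hF : Good F) :
    Good (fun x => χ x * F x) := by
  refine ⟨hχ.lac.mul hF.lac, ?_, hχs.mul_right⟩
  obtain ⟨K, hK⟩ := hχ
  obtain ⟨C, hC⟩ := hχs.exists_bound_of_continuous hK.continuous
  have h1 : MemLp (fun x => deriv χ x * F x) 2 volume := by
    refine (hF.memLp_self.const_mul (K : ℝ)).mono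
      ((measurable_deriv χ).aestronglyMeasurable.mul hF.cont.aestronglyMeasurable)
      (Eventually.of_forall fun x => ?_)
    rw [norm_mul, norm_mul, Real.norm_of_nonneg (NNReal.coe_nonneg K)]
    exact mul_le_mul_of_nonneg_right (norm_deriv_le_of_lipschitz hK) (norm_nonneg _)
  have h2 : MemLp (fun x => χ x * deriv F x) 2 volume := by
    refine (hF.memLp.const_mul C).mono
      (hK.continuous.aestronglyMeasurable.mul (measurable_deriv F).aestronglyMeasurable)
      (Eventually.of_forall fun x => ?_)
    rw [norm_mul, norm_mul]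
    exact mul_le_mul_of_nonneg_right ((hC x).trans (le_abs_self C)) (norm_nonneg _)
  refine (h1.add h2).ae_eq ?_
  filter_upwards [hK.ae_differentiableAt_real, hF.lac.ae_differentiableAt] with x h3 h4
  simp only [Pi.add_apply]
  exact (h3.hasDerivAt.mul h4.hasDerivAt).deriv.symm

theorem good_of_lip {φ : ℝ → ℝ} (hφ : IsLip φ) (hφs : HasCompactSupport φ) : Good φ := by
  refine ⟨hφ.lac, ?_, hφs⟩
  obtain ⟨K, hK⟩ := hφ
  obtain ⟨R, hR⟩ := hφs.isCompact.isBounded.exists_norm_le
  have h0 : ∀ x, R < |x| → deriv φ x = 0 := by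
    intro x hx
    have h1 : φ =ᶠ[𝓝 x] fun _ => 0 := by
      have h2 : ∀ᶠ y in 𝓝 x, R < |y| := continuous_abs.continuousAt.eventually (lt_mem_nhds hx)
      filter_upwards [h2] with y hy
      by_contra hne
      have := hR y (subset_tsupport φ hne)
      rw [Real.norm_eq_abs] at this
      linarith
    rw [h1.deriv_eq, deriv_const]
  have h1 : MemLp ((Icc (-R) R).indicator fun _ : ℝ => (K : ℝ)) 2 volume :=
    memLp_indicator_const 2 measurableSet_Icc _ (Or.inr (by simp))
  refine h1.mono (measurable_deriv φ).aestronglyMeasurable (Eventually.of_forall fun x => ?_)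
  by_cases hx : x ∈ Icc (-R) R
  · rw [Set.indicator_of_mem hx, Real.norm_of_nonneg (NNReal.coe_nonneg K)]
    exact norm_deriv_le_of_lipschitz hK
  · have h2 : R < |x| := by
      rw [← not_le]
      exact fun h3 => hx (abs_le.1 h3)
    rw [h0 x h2, norm_zero]
    exact norm_nonneg _

end Pool.Agent.helper65.MMS
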