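import Pool.Agent.helper65.LinePI

/-!
# Oscillating weights on the line
-/

open MeasureTheory Filter Topology Set Metric
open scoped ENNReal NNReal

namespace Pool.Agent.helper65.MMS

/-- The frequency `2 π (n + 1)`. -/
noncomputable def fq (n : ℕ) : ℝ := 2 * Real.pi * (n + 1)

theorem fq_pos (n : ℕ) : 0 < fq n := by
  unfold fq
  positivity

/-- The weight `2 + cos (2 π (n + 1) x)`. -/
noncomputable def osc (n : ℕ) (x : ℝ) : ℝ := 2 + Real.cos (fq n * x)

theorem osc_isWeight (n : ℕ) : IsWeight (osc n) := by
  refine ⟨?_, fun x => ?_, fun x => ?_⟩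
  · unfold osc
    fun_prop
  · have := Real.neg_one_le_cos (fq n * x)
    unfold osc
    linarith
  · have := Real.cos_le_one (fq n * x)
    unfold osc
    linarith

/-- The constant weight `2`. -/
noncomputable def two (_ : ℝ) : ℝ := 2

theorem two_isWeight : IsWeight two :=
  isWeight_of_const (c := (2 : ℝ)) (by norm_num) (by norm_num)

/-- The Riemann-Lebesgue lemma. -/
theorem tendsto_integral_cos {g : ℝ → ℝ} (hg : Integrable g) :
    Tendsto (fun n : ℕ => ∫ x, Real.cos (fq n * x) * g x) atTop (𝓝 0) := by
  have h1 := Real.tendsto_integral_exp_smul_cocompact (fun x => (g x : ℂ))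
  have h2 : Tendsto (fun n : ℕ => ((n : ℝ) + 1)) atTop (cocompact ℝ) :=
    (tendsto_atTop_add_const_right _ _ tendsto_natCast_atTop_atTop).mono_right
      atTop_le_cocompact
  have h3 := (Complex.continuous_re.tendsto _).comp (h1.comp h2)
  simp only [Complex.zero_re] at h3
  refine h3.congr fun n => ?_
  simp only [Function.comp_apply]
  have h4 : ∀ x : ℝ, Real.cos (fq n * x) * g x =
      RCLike.re ((Real.fourierChar (-(x * ((n : ℝ) + 1)))) • (g x : ℂ)) := by
    intro x
    rw [Circle.smul_def, Real.fourierChar_apply, smul_eq_mul]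
    have h5 : ((2 * Real.pi * -(x * ((n : ℝ) + 1)) : ℝ) : ℂ) * Complex.I =
        ((-(fq n * x) : ℝ) : ℂ) * Complex.I := by
      congr 2
      unfold fq
      ring
    rw [h5]
    simp only [RCLike.re_eq_complex_re, Complex.mul_re, Complex.ofReal_re, Complex.ofReal_im,
      mul_zero, sub_zero]
    rw [Complex.exp_ofReal_mul_I_re, Real.cos_neg]
  simp_rw [h4]
  rw [integral_re]
  · rfl
  · have h6 : Integrable fun x => (g x : ℂ) := hg.ofReal
    have h7 := (Real.fourierIntegral_convergent_iff ((n : ℝ) + 1)).2 h6
    refine h7.congr (Eventually.of_forall fun x => ?_)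
    simp only [RCLike.inner_apply, conj_trivial]
    rw [mul_comm]

/-- The oscillating measures converge to the limit measure against integrable functions. -/
theorem tendsto_integral_osc {g : ℝ → ℝ} (hg : Integrable g) :
    Tendsto (fun n : ℕ => ∫ x, g x ∂(wm (osc n))) atTop (𝓝 (∫ x, g x ∂(wm two))) := by
  have h1 := (tendsto_integral_cos hg).const_add (∫ x, g x ∂(wm two))
  rw [add_zero] at h1
  refine h1.congr fun n => ?_
  rw [integral_wm two_isWeight, integral_wm (osc_isWeight n), ← integral_add]
  · refine integral_congr_ae (Eventually.of_forall fun x => ?_)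
    simp only [two, osc]
    ring
  · exact hg.const_mul 2
  · refine hg.bdd_mul (c := 1) ?_ ?_
    · exact (by fun_prop : Continuous fun x => Real.cos (fq n * x)).aestronglyMeasurable
    · exact Eventually.of_forall fun x => by
        rw [Real.norm_eq_abs]
        exact Real.abs_cos_le_one _

/-- The weighted line. -/
noncomputable def lineSpace (w : ℝ → ℝ) (hw : IsWeight w) : MMSpace where
  carrier := ℝ
  vol := wm w
  ball_pos := fun x r hr =>
    lt_of_lt_of_le (ENNReal.ofReal_pos.2 (by positivity)) (le_wm_ball hw x r)
  ball_lt_top := fun x r => lt_of_le_of_lt (wm_ball_le hw x r) ENNReal.ofReal_lt_top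

/-- The oscillating lines converge to the line with the constant weight `2`. -/
noncomputable def oscReal :
    Realisation (fun n => lineSpace (osc n) (osc_isWeight n)) (lineSpace two two_isWeight) where
  Z := ℝ
  emb := fun _ => id
  isometry_emb := fun _ => isometry_id
  lim := id
  isometry_lim := isometry_id
  pt := fun _ => (0 : ℝ)
  ptLim := (0 : ℝ)
  tendsto_pt := tendsto_const_nhds
  close_ball := by
    intro R ε hε
    refine Eventually.of_forall fun i => ⟨fun x _ => ⟨x, ?_⟩, fun y _ => ⟨y, ?_⟩⟩
    · exact (dist_self _).trans_lt hε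
    · exact (dist_self _).trans_lt hε
  weak := by
    intro φ hφ hb hs
    refine tendsto_integral_osc (g := φ) ?_
    refine hφ.integrable_of_hasCompactSupport ?_
    exact Metric.isCompact_of_isClosed_isBounded isClosed_closure hs.closure

end Pool.Agent.helper65.MMS
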