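import Pool.Agent.helper65.LineQL

/-!
# The weighted line is PI and infinitesimally Hilbertian
-/

open MeasureTheory Filter Topology Set Metric
open scoped ENNReal NNReal

namespace Pool.Agent.helper65.MMS

/-! ### Doubling and the Poincaré inequality -/

theorem IsLip.aemeasurable_locLip {w : ℝ → ℝ} (hw : IsWeight w) {f : ℝ → ℝ} (hf : IsLip f) :
    AEMeasurable (locLip f) (wm w) := by
  refine ⟨fun x => ‖deriv f x‖ₑ, (measurable_deriv f).enorm, ?_⟩
  exact (ae_wm_iff hw).2 hf.locLip_ae_eq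

theorem isPI {w : ℝ → ℝ} (hw : IsWeight w) : IsPI (wm w) (fun _ => 6) (fun _ => 6) 1 := by
  intro R _ a r hr _
  refine ⟨?_, ?_⟩
  · refine (wm_ball_le hw a (2 * r)).trans ?_
    rw [show 6 * (2 * r) = 6 * (2 * r) by ring, ENNReal.ofReal_mul (by norm_num)]
    exact mul_le_mul_right (le_wm_ball hw a r) _
  · intro f hf
    rw [one_mul]
    set B := ball a r with hB
    have hBm : MeasurableSet B := measurableSet_ball
    have hBpos : wm w B ≠ 0 := by
      intro h0
      have h1 := le_wm_ball hw a r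
      rw [← hB, h0] at h1
      have h2 : 0 < ENNReal.ofReal (2 * r) := ENNReal.ofReal_pos.2 (by positivity)
      exact absurd h1 (not_le.2 h2)
    have hBtop : wm w B ≠ ∞ := ne_top_of_le_ne_top ENNReal.ofReal_ne_top (wm_ball_le hw a r)
    have hlac := hf.lac
    obtain ⟨K, hK⟩ := hf
    -- the oscillation is at most the integral of `|f'|`
    let D : ℝ := ∫ x in (a - r)..(a + r), |deriv f x|
    have hdi : ∀ x y, IntervalIntegrable (fun x => |deriv f x|) volume x y :=
      fun x y => (hlac.intervalIntegrable x y).abs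
    have hosc : ∀ y ∈ B, ∀ z ∈ B, |f y - f z| ≤ D := by
      have haux : ∀ y ∈ B, ∀ z ∈ B, y ≤ z → |f y - f z| ≤ D := by
        intro y hy z hz hyz
        rw [hB, mem_ball, Real.dist_eq, abs_lt] at hy hz
        rw [abs_sub_comm, ← hlac.ftc]
        refine (intervalIntegral.abs_integral_le_integral_abs hyz).trans ?_
        refine intervalIntegral.integral_mono_interval (by linarith [hy.1]) hyz
          (by linarith [hz.2]) (Eventually.of_forall fun x => abs_nonneg _) (hdi _ _)
      intro y hy z hz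
      rcases le_total y z with h | h
      · exact haux y hy z hz h
      · rw [abs_sub_comm]
        exact haux z hz y hy h
    have hD0 : 0 ≤ D := intervalIntegral.integral_nonneg (by linarith) fun x _ => abs_nonneg _
    -- the deviation from the mean
    have hfin : IntegrableOn f B (wm w) := by
      have h1 : IntegrableOn f (Icc (a - r) (a + r)) (volume : Measure ℝ) :=
        hK.continuous.integrableOn_Icc
      have h2 : IntegrableOn f B (volume : Measure ℝ) := by
        refine h1.mono_set fun x hx => ?_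
        rw [hB, mem_ball, Real.dist_eq, abs_lt] at hx
        constructor <;> linarith [hx.1, hx.2]
      have h3 : (wm w).restrict B ≤ (3 : ℝ≥0∞) • (volume.restrict B) := by
        rw [← Measure.restrict_smul]
        exact Measure.restrict_mono le_rfl (wm_le hw)
      exact Integrable.mono_measure (h2.smul_measure (by norm_num)) h3
    have hdev : ∀ y ∈ B, ‖f y - ⨍ z in B, f z ∂(wm w)‖ₑ ≤ ENNReal.ofReal D := by
      intro y hy
      have h1 : f y - ⨍ z in B, f z ∂(wm w) = ⨍ z in B, (f y - f z) ∂(wm w) := by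
        have hc : ⨍ _z in B, f y ∂(wm w) = f y := setAverage_const hBpos hBtop (f y)
        have hci : Integrable (fun _ : ℝ => f y) ((wm w).restrict B) :=
          integrableOn_const (C := f y) hBtop (by simp)
        rw [setAverage_eq] at hc
        rw [setAverage_eq, setAverage_eq, integral_sub hci hfin, smul_sub, hc]
      rw [h1, ← ofReal_norm]
      refine ENNReal.ofReal_le_ofReal ?_
      rw [setAverage_eq]
      have h2 : ‖∫ z in B, (f y - f z) ∂(wm w)‖ ≤ D * (wm w).real B := by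
        refine norm_setIntegral_le_of_norm_le_const (lt_top_iff_ne_top.2 hBtop) ?_
        intro z hz
        exact hosc y hy z hz
      have h3 : 0 < (wm w).real B := ENNReal.toReal_pos hBpos hBtop
      rw [norm_smul, norm_inv, Real.norm_of_nonneg h3.le]
      calc ((wm w).real B)⁻¹ * ‖∫ z in B, (f y - f z) ∂(wm w)‖
          ≤ ((wm w).real B)⁻¹ * (D * (wm w).real B) :=
            mul_le_mul_of_nonneg_left h2 (inv_nonneg.2 h3.le)
        _ = D := by field_simp
    have hleft : ⨍⁻ y in B, ‖f y - ⨍ z in B, f z ∂(wm w)‖ₑ ∂(wm w) ≤ ENNReal.ofReal D := by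
      rw [setLAverage_eq]
      refine ENNReal.div_le_of_le_mul ?_
      calc ∫⁻ y in B, ‖f y - ⨍ z in B, f z ∂(wm w)‖ₑ ∂(wm w)
          ≤ ∫⁻ _y in B, ENNReal.ofReal D ∂(wm w) := setLIntegral_mono' hBm hdev
        _ = ENNReal.ofReal D * wm w B := by simp
    refine hleft.trans ?_
    -- the integral of `|f'|` is bounded by the average of `Lip f`
    have hf' : IsLip f := ⟨K, hK⟩
    have hD1 : ENNReal.ofReal D ≤ ∫⁻ x in B, locLip f x ∂(wm w) := by
      have h1 : ENNReal.ofReal D = ∫⁻ x in Ioc (a - r) (a + r), ‖deriv f x‖ₑ := by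
        simp only [D]
        rw [intervalIntegral.integral_of_le (by linarith), ofReal_integral_eq_lintegral_ofReal
          ((intervalIntegrable_iff_integrableOn_Ioc_of_le (by linarith)).1 (hdi _ _))
          (Eventually.of_forall fun x => abs_nonneg _)]
        refine lintegral_congr fun x => ?_
        rw [Real.enorm_eq_ofReal_abs]
      have h2 : ∫⁻ x in Ioc (a - r) (a + r), ‖deriv f x‖ₑ = ∫⁻ x in B, locLip f x := by
        rw [← lintegral_indicator measurableSet_Ioc, ← lintegral_indicator hBm]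
        refine lintegral_congr_ae ?_
        have hne : ∀ᵐ x : ℝ, x ≠ a + r := by simp [ae_iff, measure_singleton]
        filter_upwards [hf'.locLip_ae_eq, hne] with x hx hxne
        by_cases hxB : x ∈ B
        · have hxI : x ∈ Ioc (a - r) (a + r) := by
            rw [hB, mem_ball, Real.dist_eq, abs_lt] at hxB
            constructor <;> linarith [hxB.1, hxB.2]
          rw [Set.indicator_of_mem hxB, Set.indicator_of_mem hxI, hx]
        · have hxI : x ∉ Ioc (a - r) (a + r) := by
            intro hxI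
            apply hxB
            rw [hB, mem_ball, Real.dist_eq, abs_lt]
            have h2 : x < a + r := lt_of_le_of_ne hxI.2 hxne
            constructor <;> linarith [hxI.1]
          rw [Set.indicator_of_notMem hxB, Set.indicator_of_notMem hxI]
      rw [h1, h2]
      exact lintegral_mono' (Measure.restrict_mono le_rfl (volume_le_wm hw)) le_rfl
    refine hD1.trans ?_
    have hcs : ∫⁻ x in B, locLip f x ∂(wm w) ≤
        (∫⁻ x in B, locLip f x ^ 2 ∂(wm w)) ^ (1 / 2 : ℝ) * (wm w B) ^ (1 / 2 : ℝ) := by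
      have h1 := ENNReal.lintegral_mul_le_Lp_mul_Lq ((wm w).restrict B) Real.HolderConjugate.two_two
        (f := locLip f) (g := fun _ => 1) (hf'.aemeasurable_locLip hw).restrict aemeasurable_const
      have h2 : ∫⁻ x in B, locLip f x ∂(wm w) =
          ∫⁻ x in B, ((locLip f * fun _ => (1 : ℝ≥0∞)) : ℝ → ℝ≥0∞) x ∂(wm w) := by
        refine lintegral_congr fun x => ?_
        simp
      rw [h2]
      refine h1.trans (le_of_eq ?_)
      congr 1
      · congr 1
        refine lintegral_congr fun x => ?_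
        exact_mod_cast ENNReal.rpow_natCast (locLip f x) 2
      · congr 1
        simp
    refine hcs.trans ?_
    rw [setLAverage_eq, ENNReal.div_rpow_of_nonneg _ _ (by norm_num)]
    have hs : (wm w B) ^ (1 / 2 : ℝ) ≠ 0 := by
      rw [Ne, ENNReal.rpow_eq_zero_iff]
      push Not
      exact ⟨fun h => absurd h hBpos, fun h => absurd h hBtop⟩
    have hs' : (wm w B) ^ (1 / 2 : ℝ) ≠ ∞ := ENNReal.rpow_ne_top_of_nonneg (by norm_num) hBtop
    have hsq : (wm w B) ^ (1 / 2 : ℝ) * (wm w B) ^ (1 / 2 : ℝ) = wm w B := by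
      rw [← ENNReal.rpow_add_of_nonneg _ _ (by norm_num) (by norm_num)]
      norm_num
    have haux : ∀ X t V : ℝ≥0∞, t ≠ 0 → t ≠ ∞ → t * t = V → X * t = V * (X / t) := by
      intro X t V h1 h2 h3
      rw [← h3, div_eq_mul_inv, mul_assoc, ← mul_assoc t X, mul_comm t X, mul_assoc X,
        ENNReal.mul_inv_cancel h1 h2, mul_one, mul_comm]
    rw [haux _ _ _ hs hs' hsq]
    exact mul_le_mul_left (wm_ball_le hw a r) _

/-! ### The Cheeger energy is quadratic -/

theorem IsLip.add {X : Type*} [MetricSpace X] {u v : X → ℝ} (hu : IsLip u) (hv : IsLip v) :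
    IsLip (u + v) := by
  obtain ⟨K, hK⟩ := hu
  obtain ⟨L, hL⟩ := hv
  exact ⟨K + L, hK.add hL⟩

theorem IsLip.sub {X : Type*} [MetricSpace X] {u v : X → ℝ} (hu : IsLip u) (hv : IsLip v) :
    IsLip (u - v) := by
  obtain ⟨K, hK⟩ := hu
  obtain ⟨L, hL⟩ := hv
  exact ⟨K + L, hK.sub hL⟩

theorem preCheeger_eq {w : ℝ → ℝ} (hw : IsWeight w) {u : ℝ → ℝ} (hu : IsLip u) :
    preCheeger (wm w) u = (1 / 2) * ∫⁻ x, ENNReal.ofReal (deriv u x ^ 2) ∂(wm w) := by
  unfold preCheeger
  congr 1
  refine lintegral_congr_ae ((ae_wm_iff hw).2 ?_)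
  filter_upwards [hu.locLip_ae_eq] with x hx
  rw [hx, Real.enorm_eq_ofReal_abs, ← ENNReal.ofReal_pow (abs_nonneg _), sq_abs]

theorem preCheeger_parallelogram {w : ℝ → ℝ} (hw : IsWeight w) {u v : ℝ → ℝ} (hu : IsLip u)
    (hv : IsLip v) :
    preCheeger (wm w) (u + v) + preCheeger (wm w) (u - v) =
      2 * preCheeger (wm w) u + 2 * preCheeger (wm w) v := by
  rw [preCheeger_eq hw (hu.add hv), preCheeger_eq hw (hu.sub hv), preCheeger_eq hw hu,
    preCheeger_eq hw hv]
  have hm : ∀ f : ℝ → ℝ, Measurable fun x => ENNReal.ofReal (deriv f x ^ 2) :=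
    fun f => ENNReal.measurable_ofReal.comp ((measurable_deriv f).pow_const 2)
  have h1 : (∫⁻ x, ENNReal.ofReal (deriv (u + v) x ^ 2) ∂(wm w)) +
      ∫⁻ x, ENNReal.ofReal (deriv (u - v) x ^ 2) ∂(wm w) =
      2 * (∫⁻ x, ENNReal.ofReal (deriv u x ^ 2) ∂(wm w)) +
      2 * ∫⁻ x, ENNReal.ofReal (deriv v x ^ 2) ∂(wm w) := by
    rw [← lintegral_add_left (hm _), ← lintegral_const_mul _ (hm _), ← lintegral_const_mul _ (hm _),
      ← lintegral_add_left ((hm u).const_mul 2)]
    refine lintegral_congr_ae ((ae_wm_iff hw).2 ?_)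
    filter_upwards [hu.lac.ae_differentiableAt, hv.lac.ae_differentiableAt] with x h1 h2
    rw [(h1.hasDerivAt.add h2.hasDerivAt).deriv, (h1.hasDerivAt.sub h2.hasDerivAt).deriv,
      ← ENNReal.ofReal_add (by positivity) (by positivity),
      show (2 : ℝ≥0∞) = ENNReal.ofReal 2 by norm_num,
      ← ENNReal.ofReal_mul (by norm_num), ← ENNReal.ofReal_mul (by norm_num),
      ← ENNReal.ofReal_add (by positivity) (by positivity)]
    congr 1
    ring
  rw [← mul_add, h1]
  ring

/-- Almost optimal approximations. -/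
theorem exists_approx_of_cheeger_lt {X : Type*} [MetricSpace X] [MeasurableSpace X]
    {m : Measure X} {f : X → ℝ} {c : ℝ≥0∞} (h : cheeger m f < c) {δ : ℝ≥0∞} (hδ : 0 < δ) :
    ∃ u : X → ℝ, IsLip u ∧ MemLp u 2 m ∧ eLpNorm (fun x => u x - f x) 2 m < δ ∧
      preCheeger m u < c := by
  unfold cheeger at h
  simp only [iInf_lt_iff] at h
  obtain ⟨u, ⟨hu, hconv⟩, hlt⟩ := h
  have h1 : ∃ᶠ n in atTop, preCheeger m (u n) < c := frequently_lt_of_liminf_lt (by isBoundedDefault) hlt
  have h2 : ∀ᶠ n in atTop, eLpNorm (fun x => u n x - f x) 2 m < δ := hconv.eventually (gt_mem_nhds hδ)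
  obtain ⟨n, hn1, hn2⟩ := (h1.and_eventually h2).exists
  exact ⟨u n, (hu n).1, (hu n).2, hn2, hn1⟩

/-- A sequence with bounded energies converging to `f`. -/
theorem exists_seq_of_cheeger_lt {X : Type*} [MetricSpace X] [MeasurableSpace X]
    {m : Measure X} {f : X → ℝ} {c : ℝ≥0∞} (h : cheeger m f < c) :
    ∃ u : ℕ → X → ℝ, LipApprox m u f ∧ ∀ n, preCheeger m (u n) < c := by
  have h1 : ∀ n : ℕ, ∃ u : X → ℝ, IsLip u ∧ MemLp u 2 m ∧
      eLpNorm (fun x => u x - f x) 2 m < ((n : ℝ≥0∞) + 1)⁻¹ ∧ preCheeger m u < c :=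
    fun n => exists_approx_of_cheeger_lt h (ENNReal.inv_pos.2 (by finiteness))
  choose u hu1 hu2 hu3 hu4 using h1
  refine ⟨u, ⟨fun n => ⟨hu1 n, hu2 n⟩, ?_⟩, hu4⟩
  have hlim : Tendsto (fun n : ℕ => ((n : ℝ≥0∞) + 1)⁻¹) atTop (𝓝 0) := by
    have := (tendsto_add_atTop_iff_nat (f := fun n : ℕ => (n : ℝ≥0∞)⁻¹) 1).2
      ENNReal.tendsto_inv_nat_nhds_zero
    simpa using this
  exact tendsto_of_tendsto_of_tendsto_of_le_of_le tendsto_const_nhds hlim (fun _ => zero_le)
    (fun n => (hu3 n).le)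

theorem liminf_add_liminf_le (a b : ℕ → ℝ≥0∞) :
    liminf a atTop + liminf b atTop ≤ liminf (fun n => a n + b n) atTop := by
  rw [liminf_eq_iSup_iInf_of_nat, liminf_eq_iSup_iInf_of_nat, liminf_eq_iSup_iInf_of_nat,
    ENNReal.iSup_add_iSup_of_monotone]
  · refine iSup_mono fun n => le_iInf₂ fun i hi => add_le_add (iInf₂_le i hi) (iInf₂_le i hi)
  · intro m n hmn
    exact le_iInf₂ fun i hi => iInf₂_le i (hmn.trans hi)
  · intro m n hmn
    exact le_iInf₂ fun i hi => iInf₂_le i (hmn.trans hi)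

theorem cheeger_add_sub_le {w : ℝ → ℝ} (hw : IsWeight w) {f g : ℝ → ℝ}
    (hf : AEStronglyMeasurable f (wm w)) (hg : AEStronglyMeasurable g (wm w)) :
    cheeger (wm w) (f + g) + cheeger (wm w) (f - g) ≤
      2 * cheeger (wm w) f + 2 * cheeger (wm w) g := by
  refine le_of_forall_gt fun c hc => ?_
  have htop : 2 * cheeger (wm w) f + 2 * cheeger (wm w) g ≠ ∞ := ne_top_of_lt hc
  have hftop : cheeger (wm w) f ≠ ∞ := by
    intro h; rw [h] at htop; simp at htop
  have hgtop : cheeger (wm w) g ≠ ∞ := by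
    intro h; rw [h] at htop; simp at htop
  -- room
  obtain ⟨ε, hε, hεc⟩ : ∃ ε : ℝ≥0∞, 0 < ε ∧
      2 * (cheeger (wm w) f + ε) + 2 * (cheeger (wm w) g + ε) < c := by
    obtain ⟨d, hd1, hd2⟩ := exists_between hc
    have hd : 0 < d - (2 * cheeger (wm w) f + 2 * cheeger (wm w) g) := tsub_pos_of_lt hd1
    refine ⟨(d - (2 * cheeger (wm w) f + 2 * cheeger (wm w) g)) / 4,
      ENNReal.div_pos hd.ne' (by norm_num), lt_of_le_of_lt (le_of_eq ?_) hd2⟩
    have h4 : (4 : ℝ≥0∞) * ((d - (2 * cheeger (wm w) f + 2 * cheeger (wm w) g)) / 4) =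
        d - (2 * cheeger (wm w) f + 2 * cheeger (wm w) g) :=
      ENNReal.mul_div_cancel (by norm_num) (by norm_num)
    calc 2 * (cheeger (wm w) f + (d - (2 * cheeger (wm w) f + 2 * cheeger (wm w) g)) / 4) +
          2 * (cheeger (wm w) g + (d - (2 * cheeger (wm w) f + 2 * cheeger (wm w) g)) / 4)
        = (2 * cheeger (wm w) f + 2 * cheeger (wm w) g) +
          4 * ((d - (2 * cheeger (wm w) f + 2 * cheeger (wm w) g)) / 4) := by ring
      _ = d := by rw [h4]; exact add_tsub_cancel_of_le hd1.le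
  obtain ⟨u, ⟨hu, huf⟩, hue⟩ := exists_seq_of_cheeger_lt
    (ENNReal.lt_add_right hftop hε.ne' : cheeger (wm w) f < cheeger (wm w) f + ε)
  obtain ⟨v, ⟨hv, hvg⟩, hve⟩ := exists_seq_of_cheeger_lt
    (ENNReal.lt_add_right hgtop hε.ne' : cheeger (wm w) g < cheeger (wm w) g + ε)
  have hsum : Tendsto (fun n => eLpNorm (fun x => u n x - f x) 2 (wm w) +
      eLpNorm (fun x => v n x - g x) 2 (wm w)) atTop (𝓝 0) := by
    simpa using huf.add hvg
  have hadd : LipApprox (wm w) (fun n => u n + v n) (f + g) := by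
    refine ⟨fun n => ⟨(hu n).1.add (hv n).1, (hu n).2.add (hv n).2⟩, ?_⟩
    refine tendsto_of_tendsto_of_tendsto_of_le_of_le tendsto_const_nhds hsum (fun _ => zero_le)
      (fun n => ?_)
    have h1 : (fun x => (u n + v n) x - (f + g) x) =
        (fun x => u n x - f x) + (fun x => v n x - g x) := by
      funext x; simp only [Pi.add_apply]; ring
    simp only [h1]
    exact eLpNorm_add_le ((hu n).2.1.sub hf) ((hv n).2.1.sub hg) (by norm_num)
  have hsubc : LipApprox (wm w) (fun n => u n - v n) (f - g) := by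
    refine ⟨fun n => ⟨(hu n).1.sub (hv n).1, (hu n).2.sub (hv n).2⟩, ?_⟩
    refine tendsto_of_tendsto_of_tendsto_of_le_of_le tendsto_const_nhds hsum (fun _ => zero_le)
      (fun n => ?_)
    have h1 : (fun x => (u n - v n) x - (f - g) x) =
        (fun x => u n x - f x) - (fun x => v n x - g x) := by
      funext x; simp only [Pi.sub_apply]; ring
    simp only [h1]
    exact eLpNorm_sub_le ((hu n).2.1.sub hf) ((hv n).2.1.sub hg) (by norm_num)
  have hle1 : cheeger (wm w) (f + g) ≤ liminf (fun n => preCheeger (wm w) (u n + v n)) atTop :=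
    iInf₂_le (fun n => u n + v n) hadd
  have hle2 : cheeger (wm w) (f - g) ≤ liminf (fun n => preCheeger (wm w) (u n - v n)) atTop :=
    iInf₂_le (fun n => u n - v n) hsubc
  refine lt_of_le_of_lt ((add_le_add hle1 hle2).trans (le_trans (liminf_add_liminf_le _ _) ?_)) hεc
  refine (liminf_le_liminf (v := fun _ : ℕ => 2 * (cheeger (wm w) f + ε) + 2 * (cheeger (wm w) g + ε))
    (Eventually.of_forall fun n => ?_)).trans (le_of_eq (liminf_const _))
  rw [preCheeger_parallelogram hw (hu n).1 (hv n).1]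
  exact add_le_add (mul_le_mul_right (hue n).le _) (mul_le_mul_right (hve n).le _)

/-- Scaling. -/
theorem cheeger_half {w : ℝ → ℝ} (hw : IsWeight w) (f : ℝ → ℝ) :
    4 * cheeger (wm w) f ≤ cheeger (wm w) (f + f) := by
  refine le_of_forall_gt_imp_ge_of_dense fun c hc => ?_
  obtain ⟨u, ⟨hu, huf⟩, hue⟩ := exists_seq_of_cheeger_lt hc
  have hlip : ∀ n, IsLip (fun x => (1 / 2 : ℝ) * u n x) := by
    intro n
    obtain ⟨K, hK⟩ := (hu n).1
    refine ⟨K, LipschitzWith.of_dist_le_mul fun x y => ?_⟩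
    have h1 := hK.dist_le_mul x y
    rw [Real.dist_eq] at h1 ⊢
    rw [← mul_sub, abs_mul, abs_of_pos (by norm_num : (0 : ℝ) < 1 / 2)]
    have h2 := abs_nonneg (u n x - u n y)
    linarith
  have happ : LipApprox (wm w) (fun n x => (1 / 2 : ℝ) * u n x) f := by
    refine ⟨fun n => ⟨hlip n, (hu n).2.const_mul _⟩, ?_⟩
    refine tendsto_of_tendsto_of_tendsto_of_le_of_le tendsto_const_nhds huf (fun _ => zero_le)
      (fun n => ?_)
    refine eLpNorm_mono fun x => ?_
    simp only [Pi.add_apply]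
    have h1 : (1 / 2 : ℝ) * u n x - f x = (1 / 2) * (u n x - (f x + f x)) := by ring
    rw [h1, norm_mul, Real.norm_of_nonneg (by norm_num : (0 : ℝ) ≤ 1 / 2)]
    have h2 := norm_nonneg (u n x - (f x + f x))
    linarith
  have hpre : ∀ n, 4 * preCheeger (wm w) (fun x => (1 / 2 : ℝ) * u n x) =
      preCheeger (wm w) (u n) := by
    intro n
    rw [preCheeger_eq hw (hlip n), preCheeger_eq hw (hu n).1]
    have h1 : ∀ x, deriv (fun x => (1 / 2 : ℝ) * u n x) x = (1 / 2) * deriv (u n) x := by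
      intro x
      exact deriv_const_mul_field _
    have h2 : ∫⁻ x, ENNReal.ofReal (deriv (u n) x ^ 2) ∂(wm w) =
        4 * ∫⁻ x, ENNReal.ofReal (deriv (fun x => (1 / 2 : ℝ) * u n x) x ^ 2) ∂(wm w) := by
      rw [← lintegral_const_mul' _ _ (by norm_num)]
      refine lintegral_congr fun x => ?_
      rw [h1, show (4 : ℝ≥0∞) = ENNReal.ofReal 4 by norm_num, ← ENNReal.ofReal_mul (by norm_num)]
      congr 1
      ring
    rw [h2]
    ring
  have hle : cheeger (wm w) f ≤
      liminf (fun n => preCheeger (wm w) (fun x => (1 / 2 : ℝ) * u n x)) atTop :=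
    iInf₂_le (fun n x => (1 / 2 : ℝ) * u n x) happ
  have h3 : liminf (fun n => preCheeger (wm w) (fun x => (1 / 2 : ℝ) * u n x)) atTop ≤ c / 4 := by
    refine (liminf_le_liminf (v := fun _ : ℕ => c / 4)
      (Eventually.of_forall fun n => ?_)).trans (le_of_eq (liminf_const _))
    rw [ENNReal.le_div_iff_mul_le (by norm_num) (by norm_num), mul_comm, hpre]
    exact (hue n).le
  calc 4 * cheeger (wm w) f ≤ 4 * (c / 4) := mul_le_mul_right (hle.trans h3) _
    _ = c := ENNReal.mul_div_cancel (by norm_num) (by norm_num)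

theorem isIH {w : ℝ → ℝ} (hw : IsWeight w) : IsIH (wm w) := by
  intro f g hf hg
  refine le_antisymm (cheeger_add_sub_le hw hf.1 hg.1) ?_
  have h1 := cheeger_add_sub_le hw (hf.add hg).1 (hf.sub hg).1
  have h2 : (f + g) + (f - g) = f + f := by
    funext x; simp only [Pi.add_apply, Pi.sub_apply]; ring
  have h3 : (f + g) - (f - g) = g + g := by
    funext x; simp only [Pi.add_apply, Pi.sub_apply]; ring
  rw [h2, h3] at h1
  have h4 := (add_le_add (cheeger_half hw f) (cheeger_half hw g)).trans h1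
  have h5 : (2 : ℝ≥0∞) * (2 * cheeger (wm w) f + 2 * cheeger (wm w) g) ≤
      2 * (cheeger (wm w) (f + g) + cheeger (wm w) (f - g)) := by
    calc (2 : ℝ≥0∞) * (2 * cheeger (wm w) f + 2 * cheeger (wm w) g)
        = 4 * cheeger (wm w) f + 4 * cheeger (wm w) g := by ring
      _ ≤ _ := h4
      _ = _ := by ring
  exact (ENNReal.mul_le_mul_iff_right (by norm_num) (by norm_num)).1 h5

end Pool.Agent.helper65.MMS
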