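import Pool.Agent.helper65.LineHarm

/-!
# The weighted line is PI and QL
-/

open MeasureTheory Filter Topology Set Metric
open scoped ENNReal NNReal

namespace Pool.Agent.helper65.MMS

/-- Bounded measurable functions are integrable on bounded intervals. -/
theorem intervalIntegrable_of_bound {f : ℝ → ℝ} (hf : Measurable f) {C : ℝ} (hC : ∀ x, |f x| ≤ C)
    (a b : ℝ) : IntervalIntegrable f volume a b := by
  refine (intervalIntegrable_const (c := C)).mono_fun hf.aestronglyMeasurable ?_
  refine Eventually.of_forall fun x => ?_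
  simp only [Real.norm_eq_abs]
  exact (hC x).trans (le_abs_self C)

/-- The lemma of du Bois-Reymond: `w H'` is constant for harmonic `H`. -/
theorem harmonic_const {w : ℝ → ℝ} (hw : IsWeight w) {a r : ℝ} (hr : 0 < r) {h H : ℝ → ℝ}
    (hH : LocGood (ball a r) H) (hhH : ∀ᵐ x, x ∈ ball a r → h x = H x)
    (hh : IsHarmonic (wm w) (ball a r) h) :
    ∃ c : ℝ, ∀ᵐ x, x ∈ ball a r → w x * deriv H x = c := by
  classical
  have hk : ∀ k : ℕ, ∃ c : ℝ, ∀ᵐ x, x ∈ ball a (rad r k) → w x * deriv H x = c := by
    intro k
    set ρ := rad r k with hρ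
    have hρ0 : 0 < ρ := rad_pos hr k
    have hρr : ρ < r := rad_lt hr k
    have hst : ρ < rad r (k + 1) := rad_strictMono hr (Nat.lt_succ_self k)
    -- the good function which equals `H` near the small ball
    let F : ℝ → ℝ := fun x => cut a ρ (rad r (k + 1)) x * H x
    have hF : Good F := hH _ (cut_isLipc hst (rad_lt hr _))
    have hFH : ∀ x ∈ ball a ρ, deriv F x = deriv H x := by
      intro x hx
      have h1 : F =ᶠ[𝓝 x] H := by
        filter_upwards [cut_eventually hst hx] with y hy
        simp only [F]
        rw [hy, one_mul]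
      exact h1.deriv_eq
    let g : ℝ → ℝ := fun x => w x * deriv F x
    have hgm : Measurable g := hw.meas.mul (measurable_deriv F)
    have hg2 : MemLp g 2 volume := by
      refine (hF.memLp.const_mul 3).mono hgm.aestronglyMeasurable (Eventually.of_forall fun x => ?_)
      simp only [g]
      rw [norm_mul, norm_mul, Real.norm_of_nonneg (hw.pos x).le,
        Real.norm_of_nonneg (show (0 : ℝ) ≤ 3 by norm_num)]
      exact mul_le_mul_of_nonneg_right (hw.le_three x) (norm_nonneg _)
    have hgi := intervalIntegrable_of_memLp hg2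
    set A := a - ρ with hA
    set B := a + ρ with hB
    have hAB : A ≤ B := by simp only [hA, hB]; linarith
    have hBA : B - A = 2 * ρ := by simp only [hA, hB]; ring
    let c : ℝ := (∫ x in A..B, g x) / (2 * ρ)
    have hc : ∫ x in A..B, g x = c * (2 * ρ) := by simp only [c]; field_simp
    let s : ℝ → ℝ := fun x => if 0 ≤ g x - c then 1 else -1
    have hsm : Measurable s :=
      Measurable.ite (measurableSet_le measurable_const (hgm.sub_const c)) measurable_const
        measurable_const
    have hsb : ∀ x, |s x| ≤ 1 := by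
      intro x
      simp only [s]
      split_ifs <;> simp
    have hsi := intervalIntegrable_of_bound hsm hsb
    have hsabs : ∀ x, (g x - c) * s x = |g x - c| := by
      intro x
      simp only [s]
      split_ifs with h0
      · rw [abs_of_nonneg h0, mul_one]
      · rw [abs_of_neg (not_le.1 h0), mul_neg, mul_one]
    let σ : ℝ := (∫ x in A..B, s x) / (2 * ρ)
    have hσ : ∫ x in A..B, s x = σ * (2 * ρ) := by simp only [σ]; field_simp
    let θ : ℝ → ℝ := (Ioc A B).indicator fun x => s x - σ
    have hθm : Measurable θ := (hsm.sub_const σ).indicator measurableSet_Ioc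
    have hθb : ∀ x, |θ x| ≤ 1 + |σ| := by
      intro x
      by_cases hx : x ∈ Ioc A B
      · simp only [θ]
        rw [Set.indicator_of_mem hx]
        exact (abs_sub _ _).trans (add_le_add (hsb x) le_rfl)
      · simp only [θ]
        rw [Set.indicator_of_notMem hx]
        simp
        positivity
    have hθi := intervalIntegrable_of_bound hθm hθb
    have hθint : ∫ x in A..B, θ x = 0 := by
      have h1 : ∫ x in A..B, θ x = ∫ x in A..B, (s x - σ) := by
        refine intervalIntegral.integral_congr_ae (Eventually.of_forall fun x hx => ?_)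
        rw [uIoc_of_le hAB] at hx
        exact Set.indicator_of_mem hx _
      rw [h1, intervalIntegral.integral_sub (hsi _ _) intervalIntegrable_const, hσ,
        intervalIntegral.integral_const, hBA, smul_eq_mul]
      ring
    let φ : ℝ → ℝ := fun x => ∫ t in A..x, θ t
    have hφlip : IsLip φ := by
      refine ⟨Real.toNNReal (1 + |σ|), LipschitzWith.of_dist_le_mul fun x y => ?_⟩
      rw [Real.coe_toNNReal _ (by positivity), dist_comm, Real.dist_eq, dist_comm, Real.dist_eq]
      have h1 : φ y - φ x = ∫ t in x..y, θ t := by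
        simp only [φ]
        rw [intervalIntegral.integral_interval_sub_left (hθi _ _) (hθi _ _)]
      rw [h1]
      have hθb' : ∀ t, ‖θ t‖ ≤ 1 + |σ| := hθb
      have h9 : ‖∫ t in x..y, θ t‖ ≤ (1 + |σ|) * |y - x| :=
        intervalIntegral.norm_integral_le_of_norm_le_const fun t _ => hθb' t
      exact h9
    have hφ0 : ∀ x, x ∉ closedBall a ρ → φ x = 0 := by
      intro x hx
      rw [mem_closedBall, Real.dist_eq, not_le] at hx
      rcases lt_abs.1 hx with h1 | h1
      · have h2 : φ x = φ B + ∫ t in B..x, θ t := by
          simp only [φ]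
          rw [intervalIntegral.integral_add_adjacent_intervals (hθi _ _) (hθi _ _)]
        have h3 : φ B = 0 := hθint
        rw [h2, h3, zero_add]
        refine intervalIntegral.integral_zero_ae (Eventually.of_forall fun y hy => ?_)
        rw [uIoc_of_le (by simp only [hB]; linarith)] at hy
        exact Set.indicator_of_notMem (fun h4 => not_lt.2 h4.2 hy.1) _
      · simp only [φ]
        rw [intervalIntegral.integral_symm, neg_eq_zero]
        refine intervalIntegral.integral_zero_ae (Eventually.of_forall fun y hy => ?_)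
        rw [uIoc_of_le (by simp only [hA]; linarith)] at hy
        exact Set.indicator_of_notMem (fun h4 => not_lt.2 hy.2 h4.1) _
    have hφts : tsupport φ ⊆ closedBall a ρ := by
      refine closure_minimal ?_ isClosed_closedBall
      intro x hx
      by_contra h1
      exact hx (hφ0 x h1)
    have hφc : IsLipc (ball a r) φ :=
      ⟨hφlip, HasCompactSupport.of_support_subset_isCompact (isCompact_closedBall a ρ)
        (subset_closure.trans hφts), hφts.trans (closedBall_subset_ball hρr)⟩
    have hweak := harmonic_weak hw hr hH hhH hh hφc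
    have hderφ : ∀ᵐ x, deriv φ x = θ x := by
      filter_upwards [ae_deriv_integral hθi A] with x hx
      exact hx.deriv
    -- the integral over the ball is the integral of `|g - c|`
    have hneB : ∀ᵐ x : ℝ, x ≠ B := by simp [ae_iff, measure_singleton]
    have hmain : ∫ x in A..B, |g x - c| = 0 := by
      have h1 : ∫ x in A..B, |g x - c| =
          ∫ x in A..B, (|g x - c| + c * s x - σ * g x) := by
        have hi1 : IntervalIntegrable (fun x => |g x - c|) volume A B :=
          ((hgi A B).sub intervalIntegrable_const).abs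
        have hi2 : IntervalIntegrable (fun x => c * s x) volume A B := (hsi A B).const_mul c
        have hi3 : IntervalIntegrable (fun x => σ * g x) volume A B := (hgi A B).const_mul σ
        rw [intervalIntegral.integral_sub (hi1.add hi2) hi3,
          intervalIntegral.integral_add hi1 hi2, intervalIntegral.integral_const_mul,
          intervalIntegral.integral_const_mul, hσ, hc]
        ring
      rw [h1, intervalIntegral.integral_of_le hAB, ← integral_indicator measurableSet_Ioc,
        ← hweak, ← integral_indicator measurableSet_ball]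
      refine integral_congr_ae ?_
      filter_upwards [hderφ, hneB] with x hx hxB
      by_cases hxI : x ∈ Ioc A B
      · have hxρ : x ∈ ball a ρ := by
          rw [mem_ball, Real.dist_eq, abs_lt]
          have h2 : x < B := lt_of_le_of_ne hxI.2 hxB
          have h3 := hxI.1
          simp only [hA, hB] at h2 h3
          constructor <;> linarith
        have hxr : x ∈ ball a r := ball_subset_ball hρr.le hxρ
        rw [Set.indicator_of_mem hxI, Set.indicator_of_mem hxr, hx, ← hFH x hxρ]
        have h4 : θ x = s x - σ := Set.indicator_of_mem hxI _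
        rw [h4, ← hsabs]
        simp only [g]
        ring
      · rw [Set.indicator_of_notMem hxI]
        have h4 : θ x = 0 := Set.indicator_of_notMem hxI _
        by_cases hxr : x ∈ ball a r
        · rw [Set.indicator_of_mem hxr, hx, h4]
          ring
        · rw [Set.indicator_of_notMem hxr]
    refine ⟨c, ?_⟩
    rw [intervalIntegral.integral_of_le hAB] at hmain
    have hint : Integrable (fun x => |g x - c|) (volume.restrict (Ioc A B)) := by
      have := ((hgi A B).sub (intervalIntegrable_const (c := c))).abs
      rwa [intervalIntegrable_iff_integrableOn_Ioc_of_le hAB] at this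
    have h5 := (integral_eq_zero_iff_of_nonneg (fun x => abs_nonneg _) hint).1 hmain
    have h6 := (ae_restrict_iff' measurableSet_Ioc).1 h5
    filter_upwards [h6] with x hx hxb
    have hxI : x ∈ Ioc A B := by
      rw [mem_ball, Real.dist_eq, abs_lt] at hxb
      constructor
      · simp only [hA]; linarith [hxb.1]
      · simp only [hB]; linarith [hxb.2]
    have h7 : |g x - c| = 0 := hx hxI
    rw [← hFH x hxb]
    have h8 := abs_eq_zero.1 h7
    simp only [g] at h8
    linarith
  -- the constants agree
  choose c hc using hk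
  refine ⟨c 0, ?_⟩
  have hcc : ∀ k, c k = c 0 := by
    intro k
    by_contra hne
    have h1 : ∀ᵐ x, x ∉ ball a (rad r 0) := by
      filter_upwards [hc k, hc 0] with x h1 h2 hx
      have h3 := h1 (ball_subset_ball ((rad_strictMono hr).monotone (Nat.zero_le k)) hx)
      have h4 := h2 hx
      exact hne (h3.symm.trans h4)
    have h2 : volume (ball a (rad r 0)) = 0 :=
      measure_mono_null (fun x hx => not_not.2 hx) (ae_iff.1 h1)
    exact (isOpen_ball.measure_pos volume ⟨a, mem_ball_self (rad_pos hr 0)⟩).ne' h2
  filter_upwards [ae_all_iff.2 hc] with x hx hxb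
  obtain ⟨k, hk⟩ := exists_rad hxb
  rw [hx k hk, hcc k]

/-- A lower bound for the integral of a function with `w F' = c` on an interval. -/
theorem lower_bound {w : ℝ → ℝ} (hw : IsWeight w) {F : ℝ → ℝ} (hF : LAC F) {a ρ c : ℝ}
    (hρ : 0 < ρ) (hc : ∀ᵐ x, x ∈ ball a ρ → w x * deriv F x = c) :
    |c| * ρ ^ 2 / 3 ≤ ∫ x in (a - ρ)..(a + ρ), |F x| := by
  -- increments
  have hinc : ∀ t ∈ Icc 0 ρ, 2 * |c| * t / 3 ≤ |F (a + t)| + |F (a - t)| := by
    intro t ht
    have h1 : F (a + t) - F (a - t) = c * ∫ x in (a - t)..(a + t), (w x)⁻¹ := by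
      rw [← hF.ftc, ← intervalIntegral.integral_const_mul]
      refine intervalIntegral.integral_congr_ae ?_
      have hne : ∀ᵐ x : ℝ, x ≠ a + ρ := by simp [ae_iff, measure_singleton]
      filter_upwards [hc, hne] with x hx hxne hxI
      rw [uIoc_of_le (by linarith [ht.1])] at hxI
      have hxb : x ∈ ball a ρ := by
        rw [mem_ball, Real.dist_eq, abs_lt]
        have h2 : x < a + ρ := lt_of_le_of_ne (by linarith [hxI.2, ht.2]) hxne
        constructor <;> linarith [hxI.1, ht.2]
      have h3 := hx hxb
      have h4 := (hw.pos x).ne'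
      rw [← h3]
      field_simp
    have hwi : IntervalIntegrable (fun x => (w x)⁻¹) volume (a - t) (a + t) := by
      refine intervalIntegrable_of_bound hw.meas.inv (C := 1) (fun x => ?_) _ _
      rw [Pi.inv_apply, abs_inv, abs_of_pos (hw.pos x)]
      exact inv_le_one_of_one_le₀ (hw.one_le x)
    have h2 : 2 * t / 3 ≤ ∫ x in (a - t)..(a + t), (w x)⁻¹ := by
      have h3 : ∫ x in (a - t)..(a + t), (3 : ℝ)⁻¹ = 2 * t / 3 := by
        rw [intervalIntegral.integral_const, smul_eq_mul]
        ring
      rw [← h3]
      refine intervalIntegral.integral_mono_on (by linarith [ht.1]) intervalIntegrable_const hwi ?_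
      intro x _
      exact inv_anti₀ (hw.pos x) (hw.le_three x)
    have h5 : |c| * (2 * t / 3) ≤ |F (a + t) - F (a - t)| := by
      rw [h1, abs_mul]
      refine mul_le_mul_of_nonneg_left (h2.trans (le_abs_self _)) (abs_nonneg c)
    calc 2 * |c| * t / 3 = |c| * (2 * t / 3) := by ring
      _ ≤ |F (a + t) - F (a - t)| := h5
      _ ≤ |F (a + t)| + |F (a - t)| := abs_sub _ _
  have hcont : Continuous fun x => |F x| := hF.continuous.abs
  have hsplit : ∫ x in (a - ρ)..(a + ρ), |F x| = ∫ t in (0 : ℝ)..ρ, (|F (a + t)| + |F (a - t)|) := by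
    have h1 : ∫ t in (0 : ℝ)..ρ, |F (a + t)| = ∫ x in a..(a + ρ), |F x| := by
      rw [intervalIntegral.integral_comp_add_left (fun x => |F x|) a, add_zero]
    have h2 : ∫ t in (0 : ℝ)..ρ, |F (a - t)| = ∫ x in (a - ρ)..a, |F x| := by
      rw [intervalIntegral.integral_comp_sub_left (fun x => |F x|) a, sub_zero]
    have hc1 : Continuous fun t => |F (a + t)| := hcont.comp (continuous_const.add continuous_id)
    have hc2 : Continuous fun t => |F (a - t)| := hcont.comp (continuous_const.sub continuous_id)
    rw [intervalIntegral.integral_add (hc1.intervalIntegrable _ _) (hc2.intervalIntegrable _ _),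
      h1, h2, add_comm (∫ x in a..(a + ρ), |F x|), intervalIntegral.integral_add_adjacent_intervals
      (hcont.intervalIntegrable _ _) (hcont.intervalIntegrable _ _)]
  rw [hsplit]
  have h6 : ∫ t in (0 : ℝ)..ρ, 2 * |c| * t / 3 = |c| * ρ ^ 2 / 3 := by
    have h7 : (fun t : ℝ => 2 * |c| * t / 3) = fun t => (2 * |c| / 3) * t := by
      funext t; ring
    rw [h7, intervalIntegral.integral_const_mul, integral_id]
    ring
  rw [← h6]
  have hc1 : Continuous fun t => |F (a + t)| := hcont.comp (continuous_const.add continuous_id)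
  have hc2 : Continuous fun t => |F (a - t)| := hcont.comp (continuous_const.sub continuous_id)
  refine intervalIntegral.integral_mono_on hρ.le ?_ ((hc1.add hc2).intervalIntegrable _ _) hinc
  exact Continuous.intervalIntegrable (by fun_prop) _ _

/-- Measure of balls. -/
theorem wm_ball_le {w : ℝ → ℝ} (hw : IsWeight w) (a r : ℝ) :
    wm w (ball a r) ≤ ENNReal.ofReal (6 * r) := by
  have h1 := Measure.le_iff.1 (wm_le hw) (ball a r) measurableSet_ball
  refine h1.trans (le_of_eq ?_)
  rw [Measure.smul_apply, Real.volume_ball, smul_eq_mul,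
    show (3 : ℝ≥0∞) = ENNReal.ofReal 3 by norm_num, ← ENNReal.ofReal_mul (by norm_num)]
  congr 1
  ring

theorem le_wm_ball {w : ℝ → ℝ} (hw : IsWeight w) (a r : ℝ) :
    ENNReal.ofReal (2 * r) ≤ wm w (ball a r) := by
  have h1 := Measure.le_iff.1 (volume_le_wm hw) (ball a r) measurableSet_ball
  rwa [Real.volume_ball] at h1

theorem isQL {w : ℝ → ℝ} (hw : IsWeight w) : IsQL (wm w) (fun _ => 18) := by
  intro R _ a r hr _ h G hh hG
  obtain ⟨H, hH, hhH, hGH⟩ := exists_locGood hw hr hG
  obtain ⟨c, hc⟩ := harmonic_const hw hr hH hhH hh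
  -- lower bound for the integral of `|h|`
  let S : ℝ≥0∞ := ∫⁻ x in ball a r, ‖h x‖ₑ
  have hS : ENNReal.ofReal (|c| * r ^ 2 / 3) ≤ S := by
    have hk : ∀ k : ℕ, ENNReal.ofReal (|c| * (rad r k) ^ 2 / 3) ≤ S := by
      intro k
      set ρ := rad r k with hρ
      have hρ0 : 0 < ρ := rad_pos hr k
      have hρr : ρ < r := rad_lt hr k
      have hst : ρ < rad r (k + 1) := rad_strictMono hr (Nat.lt_succ_self k)
      let F : ℝ → ℝ := fun x => cut a ρ (rad r (k + 1)) x * H x
      have hF : Good F := hH _ (cut_isLipc hst (rad_lt hr _))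
      have hFHe : ∀ x ∈ ball a ρ, F =ᶠ[𝓝 x] H := by
        intro x hx
        filter_upwards [cut_eventually hst hx] with y hy
        simp only [F]
        rw [hy, one_mul]
      have hcF : ∀ᵐ x, x ∈ ball a ρ → w x * deriv F x = c := by
        filter_upwards [hc] with x hx hxb
        rw [(hFHe x hxb).deriv_eq]
        exact hx (ball_subset_ball hρr.le hxb)
      have h1 := lower_bound hw hF.lac hρ0 hcF
      refine (ENNReal.ofReal_le_ofReal h1).trans ?_
      rw [intervalIntegral.integral_of_le (by linarith),
        ofReal_integral_eq_lintegral_ofReal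
          (hF.cont.abs.integrableOn_Icc.mono_set Ioc_subset_Icc_self)
          (Eventually.of_forall fun x => abs_nonneg _)]
      have h2 : ∫⁻ x in Ioc (a - ρ) (a + ρ), ENNReal.ofReal |F x| =
          ∫⁻ x in ball a ρ, ‖h x‖ₑ := by
        rw [← lintegral_indicator measurableSet_Ioc, ← lintegral_indicator measurableSet_ball]
        refine lintegral_congr_ae ?_
        have hne : ∀ᵐ x : ℝ, x ≠ a + ρ := by simp [ae_iff, measure_singleton]
        filter_upwards [hhH, hne] with x hx hxne
        by_cases hxb : x ∈ ball a ρ
        · have hxI : x ∈ Ioc (a - ρ) (a + ρ) := by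
            rw [mem_ball, Real.dist_eq, abs_lt] at hxb
            constructor <;> linarith [hxb.1, hxb.2]
          rw [Set.indicator_of_mem hxb, Set.indicator_of_mem hxI, (hFHe x hxb).self_of_nhds,
            hx (ball_subset_ball hρr.le hxb), Real.enorm_eq_ofReal_abs]
        · have hxI : x ∉ Ioc (a - ρ) (a + ρ) := by
            intro hxI
            apply hxb
            rw [mem_ball, Real.dist_eq, abs_lt]
            have h2 : x < a + ρ := lt_of_le_of_ne hxI.2 hxne
            constructor <;> linarith [hxI.1]
          rw [Set.indicator_of_notMem hxb, Set.indicator_of_notMem hxI]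
      rw [h2]
      exact lintegral_mono_set (ball_subset_ball hρr.le)
    have hlim : Tendsto (fun k => ENNReal.ofReal (|c| * (rad r k) ^ 2 / 3)) atTop
        (𝓝 (ENNReal.ofReal (|c| * r ^ 2 / 3))) := by
      refine ENNReal.tendsto_ofReal ?_
      exact (((tendsto_rad r).pow 2).const_mul |c|).div_const 3
    exact le_of_tendsto' hlim hk
  have hlow : ENNReal.ofReal |c| ≤ ENNReal.ofReal (18 / r) * ⨍⁻ z in ball a r, ‖h z‖ₑ ∂(wm w) := by
    rw [setLAverage_eq]
    have h1 : S ≤ ∫⁻ z in ball a r, ‖h z‖ₑ ∂(wm w) :=
      lintegral_mono' (Measure.restrict_mono le_rfl (volume_le_wm hw)) le_rfl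
    have h2 : ENNReal.ofReal (|c| * r ^ 2 / 3) / ENNReal.ofReal (6 * r) ≤
        (∫⁻ z in ball a r, ‖h z‖ₑ ∂(wm w)) / wm w (ball a r) :=
      ENNReal.div_le_div (hS.trans h1) (wm_ball_le hw a r)
    refine le_trans (le_of_eq ?_) (mul_le_mul_right h2 _)
    rw [← ENNReal.ofReal_div_of_pos (by positivity), ← ENNReal.ofReal_mul (by positivity)]
    congr 1
    field_simp
    ring
  rw [ae_wm_iff hw]
  filter_upwards [hGH, hc] with x hx1 hx2 hxb
  have hxr : x ∈ ball a r := ball_subset_ball (by linarith) hxb
  refine le_trans (ENNReal.ofReal_le_ofReal ?_) hlow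
  rw [hx1 hxr, ← hx2 hxr, abs_mul, abs_of_pos (hw.pos x)]
  exact le_mul_of_one_le_left (abs_nonneg _) (hw.one_le x)

end Pool.Agent.helper65.MMS
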