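import Pool.Agent.helper65.Heat
import Pool.Agent.helper65.LinePI
import Pool.Agent.helper65.FlowLimit

/-!
# Functions of finite energy on the weighted line
-/

open MeasureTheory Filter Topology Set Metric
open scoped ENNReal NNReal InnerProductSpace

namespace Pool.Agent.helper65.MMS

variable {w : ℝ → ℝ}

theorem cheeger_ne_top_of_lip (hw : IsWeight w) {φ : ℝ → ℝ} (hφ : IsLip φ)
    (hφs : HasCompactSupport φ) : cheeger (wm w) φ ≠ ∞ := by
  have hg := good_of_lip hφ hφs
  have hm : MemLp φ 2 (wm w) := (memLp_wm_iff hw).2 hg.memLp_self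
  have h1 : cheeger (wm w) φ ≤ preCheeger (wm w) φ := by
    refine (iInf₂_le (fun _ => φ) ?_).trans ?_
    · refine ⟨fun _ => ⟨hφ, hm⟩, ?_⟩
      simp
    · rw [liminf_const]
  refine ne_top_of_le_ne_top ?_ h1
  rw [preCheeger_eq hw hφ]
  have h2 : MemLp (deriv φ) 2 (wm w) := (memLp_wm_iff hw).2 hg.memLp
  have h3 : ∫⁻ x, ENNReal.ofReal (deriv φ x ^ 2) ∂(wm w) < ∞ := by
    have h4 := (memLp_two_iff_integrable_sq h2.1).1 h2
    exact (hasFiniteIntegral_iff_ofReal (Eventually.of_forall fun x => sq_nonneg _)).1 h4.2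
  exact ENNReal.mul_ne_top (by norm_num) h3.ne

theorem dense_domain (hw : IsWeight w) : Dense {f : Lp ℝ 2 (wm w) | cheegerL (wm w) f ≠ ∞} := by
  have hΦ := cheegerL_isQuad (isIH hw)
  have h0 : cheegerL (wm w) (0 : Lp ℝ 2 (wm w)) ≠ ∞ := by
    unfold cheegerL
    rw [cheeger_congr (Lp.coeFn_zero ℝ 2 (wm w))]
    exact cheeger_ne_top_of_lip hw ⟨0, LipschitzWith.const (0 : ℝ)⟩
      HasCompactSupport.zero
  let D : Submodule ℝ (Lp ℝ 2 (wm w)) :=
    { carrier := {f | cheegerL (wm w) f ≠ ∞}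
      add_mem' := fun {a b} ha hb => (hΦ.add_sub_ne_top ha hb).1
      zero_mem' := h0
      smul_mem' := fun c x hx => hΦ.smul_ne_top hx c }
  have h1 : D.topologicalClosure = ⊤ := by
    rw [Submodule.topologicalClosure_eq_top_iff, Submodule.eq_bot_iff]
    intro g hg
    rw [Submodule.mem_orthogonal] at hg
    have hgm : MemLp g 2 volume := (memLp_wm_iff hw).1 (Lp.memLp g)
    have hwg : MemLp (fun x => w x * g x) 2 volume := by
      refine (hgm.const_mul 3).mono (hw.meas.aestronglyMeasurable.mul hgm.1)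
        (Eventually.of_forall fun x => ?_)
      rw [norm_mul, norm_mul, Real.norm_of_nonneg (hw.pos x).le,
        Real.norm_of_nonneg (by norm_num : (0 : ℝ) ≤ 3)]
      exact mul_le_mul_of_nonneg_right (hw.le_three x) (norm_nonneg _)
    have h2 : ∀ᵐ x, w x * g x = 0 := by
      refine ae_eq_zero_of_integral_contDiff_smul_eq_zero (hwg.locallyIntegrable (by norm_num)) ?_
      intro φ hφ hφs
      obtain ⟨C, hC⟩ := ContDiff.lipschitzWith_of_hasCompactSupport hφs hφ (by simp)
      have hm : MemLp φ 2 (wm w) :=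
        (memLp_wm_iff hw).2 (good_of_lip ⟨C, hC⟩ hφs).memLp_self
      have h3 := hg (hm.toLp φ) (by
        change cheegerL (wm w) (hm.toLp φ) ≠ ∞
        unfold cheegerL
        rw [cheeger_congr hm.coeFn_toLp]
        exact cheeger_ne_top_of_lip hw ⟨C, hC⟩ hφs)
      rw [L2.inner_def] at h3
      have h4 : ∫ x, φ x • (w x * g x) = ∫ x, φ x * g x ∂(wm w) := by
        rw [integral_wm hw]
        refine integral_congr_ae (Eventually.of_forall fun x => ?_)
        simp only [smul_eq_mul]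
        ring
      rw [h4, ← h3]
      refine integral_congr_ae ?_
      filter_upwards [hm.coeFn_toLp] with x hx
      rw [hx]
      simp only [RCLike.inner_apply, conj_trivial]
      ring
    refine Lp.ext ?_
    refine Filter.EventuallyEq.trans ?_ (Lp.coeFn_zero ℝ 2 (wm w)).symm
    refine (ae_wm_iff hw).2 ?_
    filter_upwards [h2] with x hx
    have := (hw.pos x).ne'
    simpa [this] using hx
  intro x
  have h2 : x ∈ D.topologicalClosure := by rw [h1]; trivial
  rw [← SetLike.mem_coe, Submodule.topologicalClosure_coe] at h2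
  exact h2

/-! ### Continuous representatives -/

theorem lip_holder {v : ℝ → ℝ} (hv : IsLip v) (hd : MemLp (deriv v) 2 volume) (x y : ℝ) :
    |v x - v y| ≤ Real.sqrt |x - y| * (eLpNorm (deriv v) 2 volume).toReal := by
  have key : ∀ a b : ℝ, a ≤ b → |v b - v a| ≤
      Real.sqrt |b - a| * (eLpNorm (deriv v) 2 volume).toReal := by
    intro a b hab
    have h1 := abs_integral_le hd hab
    rwa [hv.lac.ftc, ← abs_of_nonneg (sub_nonneg.2 hab)] at h1
  rcases le_total x y with h | h
  · rw [abs_sub_comm, abs_sub_comm x y]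
    exact key x y h
  · exact key y x h

theorem lip_sup {v : ℝ → ℝ} (hv : IsLip v) (hm : MemLp v 2 volume)
    (hd : MemLp (deriv v) 2 volume) {L : ℝ} (hL : 0 < L) (x : ℝ) :
    |v x| ≤ (eLpNorm v 2 volume).toReal / Real.sqrt L +
      Real.sqrt L * (eLpNorm (deriv v) 2 volume).toReal := by
  set A := (eLpNorm v 2 volume).toReal with hA
  set B := (eLpNorm (deriv v) 2 volume).toReal with hB
  have hA0 : 0 ≤ A := ENNReal.toReal_nonneg
  have hB0 : 0 ≤ B := ENNReal.toReal_nonneg
  by_contra hcon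
  rw [not_le] at hcon
  set q := |v x| - Real.sqrt L * B with hq
  have hqA : A / Real.sqrt L < q := by rw [hq]; linarith
  have hq0 : 0 < q := lt_of_le_of_lt (by positivity) hqA
  have h1 : ∀ y ∈ Ioc x (x + L), q ≤ |v y| := by
    intro y hy
    have h2 := lip_holder hv hd x y
    have h3 : Real.sqrt |x - y| ≤ Real.sqrt L := by
      refine Real.sqrt_le_sqrt ?_
      rw [abs_sub_comm, abs_of_pos (by linarith [hy.1])]
      linarith [hy.2]
    have h4 : Real.sqrt |x - y| * B ≤ Real.sqrt L * B := mul_le_mul_of_nonneg_right h3 hB0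
    have h5 := abs_sub_abs_le_abs_sub (v x) (v y)
    rw [hq]
    linarith
  have hsq := (memLp_two_iff_integrable_sq hm.1).1 hm
  have h2 : L * q ^ 2 ≤ ∫ y, v y ^ 2 := by
    have h3 : ∫ y in Ioc x (x + L), q ^ 2 ≤ ∫ y in Ioc x (x + L), v y ^ 2 := by
      refine setIntegral_mono_on (by simp) hsq.integrableOn measurableSet_Ioc fun y hy => ?_
      rw [← sq_abs (v y)]
      exact pow_le_pow_left₀ hq0.le (h1 y hy) 2
    have h4 : ∫ y in Ioc x (x + L), q ^ 2 = L * q ^ 2 := by
      simp [hL.le]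
    rw [h4] at h3
    exact h3.trans (setIntegral_le_integral hsq (Eventually.of_forall fun y => sq_nonneg _))
  have h3 : ∫ y, v y ^ 2 = A ^ 2 := by
    rw [hA, hm.eLpNorm_eq_integral_rpow_norm (by norm_num) (by norm_num)]
    rw [ENNReal.toReal_ofReal (by positivity)]
    have h5 : ∫ a, ‖v a‖ ^ (2 : ℝ≥0∞).toReal = ∫ a, v a ^ 2 := by
      refine integral_congr_ae (Eventually.of_forall fun y => ?_)
      simp
    rw [h5]
    have h6 : 0 ≤ ∫ a, v a ^ 2 := integral_nonneg fun y => sq_nonneg _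
    rw [← Real.rpow_natCast, ← Real.rpow_mul h6]
    norm_num
  rw [h3] at h2
  have h4 : A < q * Real.sqrt L := (div_lt_iff₀ (Real.sqrt_pos.2 hL)).1 hqA
  have h5 : A ^ 2 < (q * Real.sqrt L) ^ 2 := pow_lt_pow_left₀ h4 hA0 (by norm_num)
  rw [mul_pow, Real.sq_sqrt hL.le] at h5
  linarith

theorem deriv_norm_le (hw : IsWeight w) {v : ℝ → ℝ} (hv : IsLip v) {c : ℝ} (hc : 0 ≤ c)
    (h : preCheeger (wm w) v ≤ ENNReal.ofReal c) :
    MemLp (deriv v) 2 volume ∧ (eLpNorm (deriv v) 2 volume).toReal ≤ Real.sqrt (2 * c) := by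
  rw [preCheeger_eq hw hv] at h
  have h1 : ∫⁻ x, ENNReal.ofReal (deriv v x ^ 2) ≤
      ∫⁻ x, ENNReal.ofReal (deriv v x ^ 2) ∂(wm w) := lintegral_mono' (volume_le_wm hw) le_rfl
  have h2 : ∫⁻ x, ENNReal.ofReal (deriv v x ^ 2) ∂(wm w) ≤ ENNReal.ofReal (2 * c) := by
    have h3 := mul_le_mul_right h 2
    rw [← mul_assoc, show (2 : ℝ≥0∞) * (1 / 2) = 1 by
      rw [one_div]; exact ENNReal.mul_inv_cancel (by norm_num) (by norm_num), one_mul] at h3
    rwa [ENNReal.ofReal_mul (by norm_num), ENNReal.ofReal_ofNat]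
  have h3 := h1.trans h2
  have hmeas : Measurable fun x => deriv v x ^ 2 := (measurable_deriv v).pow_const 2
  have hint : Integrable fun x => deriv v x ^ 2 := by
    refine ⟨hmeas.aestronglyMeasurable, ?_⟩
    rw [hasFiniteIntegral_iff_ofReal (Eventually.of_forall fun x => sq_nonneg _)]
    exact lt_of_le_of_lt h3 ENNReal.ofReal_lt_top
  have hm : MemLp (deriv v) 2 volume :=
    (memLp_two_iff_integrable_sq (measurable_deriv v).aestronglyMeasurable).2 hint
  refine ⟨hm, ?_⟩
  rw [hm.eLpNorm_eq_integral_rpow_norm (by norm_num) (by norm_num),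
    ENNReal.toReal_ofReal (by positivity)]
  have h5 : ∫ a, ‖deriv v a‖ ^ (2 : ℝ≥0∞).toReal = ∫ a, deriv v a ^ 2 := by
    refine integral_congr_ae (Eventually.of_forall fun y => ?_)
    simp
  rw [h5]
  have h6 : ∫ a, deriv v a ^ 2 ≤ 2 * c := by
    rw [integral_eq_lintegral_of_nonneg_ae (Eventually.of_forall fun x => sq_nonneg _)
      hmeas.aestronglyMeasurable]
    exact ENNReal.toReal_le_of_le_ofReal (by positivity) h3
  rw [Real.sqrt_eq_rpow]
  have h7 : ((2 : ℝ≥0∞).toReal)⁻¹ = 1 / 2 := by norm_num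
  rw [h7]
  exact Real.rpow_le_rpow (integral_nonneg fun y => sq_nonneg _) h6 (by norm_num)

theorem eLpNorm_vol_le_norm (hw : IsWeight w) (u : Lp ℝ 2 (wm w)) :
    (eLpNorm u 2 volume).toReal ≤ ‖u‖ := by
  rw [Lp.norm_def]
  exact ENNReal.toReal_mono (Lp.eLpNorm_ne_top u) (eLpNorm_mono_measure _ (volume_le_wm hw))

theorem rep_aux (hw : IsWeight w) (u : Lp ℝ 2 (wm w)) {c : ℝ} (hc : 0 ≤ c)
    (h : cheegerL (wm w) u < ENNReal.ofReal c) :
    ∃ U : ℝ → ℝ, Continuous U ∧ u =ᵐ[volume] U ∧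
      (∀ x y, |U x - U y| ≤ Real.sqrt |x - y| * Real.sqrt (2 * c)) ∧
      ∀ x, |U x| ≤ ‖u‖ + Real.sqrt (2 * c) := by
  obtain ⟨v, ⟨hv, hvf⟩, hve⟩ := exists_seq_of_cheeger_lt h
  have hvf' := (tendsto_eLpNorm_wm_iff hw).1 hvf
  have hvm : ∀ n, MemLp (v n) 2 volume := fun n => (memLp_wm_iff hw).1 (hv n).2
  have hum : MemLp u 2 volume := (memLp_wm_iff hw).1 (Lp.memLp u)
  have hd := fun n => deriv_norm_le hw (hv n).1 hc (hve n).le
  -- differences
  have hdd : ∀ n m, MemLp (deriv (v n - v m)) 2 volume ∧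
      (eLpNorm (deriv (v n - v m)) 2 volume).toReal ≤ Real.sqrt (2 * (4 * c)) := by
    intro n m
    refine deriv_norm_le hw ((hv n).1.sub (hv m).1) (by positivity) ?_
    have h1 := preCheeger_parallelogram hw (hv n).1 (hv m).1
    calc preCheeger (wm w) (v n - v m) ≤
          preCheeger (wm w) (v n + v m) + preCheeger (wm w) (v n - v m) := le_add_self
      _ = 2 * preCheeger (wm w) (v n) + 2 * preCheeger (wm w) (v m) := h1
      _ ≤ 2 * ENNReal.ofReal c + 2 * ENNReal.ofReal c :=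
          add_le_add (mul_le_mul_right (hve n).le _) (mul_le_mul_right (hve m).le _)
      _ = ENNReal.ofReal (4 * c) := by
          rw [ENNReal.ofReal_mul (by norm_num), ENNReal.ofReal_ofNat]
          ring
  let a : ℕ → ℝ := fun n => (eLpNorm (fun x => v n x - u x) 2 volume).toReal
  have ha : Tendsto a atTop (𝓝 0) := by
    have := (ENNReal.tendsto_toReal ENNReal.zero_ne_top).comp hvf'
    rw [ENNReal.toReal_zero] at this
    exact this
  have hA : ∀ n m, (eLpNorm (v n - v m) 2 volume).toReal ≤ a n + a m := by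
    intro n m
    have h1 : v n - v m = (fun x => v n x - u x) - fun x => v m x - u x := by
      funext x
      simp
    have hm1 : MemLp (fun x => v n x - u x) 2 volume := (hvm n).sub hum
    have hm2 : MemLp (fun x => v m x - u x) 2 volume := (hvm m).sub hum
    rw [h1]
    have h2 := eLpNorm_sub_le hm1.1 hm2.1 (p := 2) (by norm_num)
    have h3 := ENNReal.toReal_mono (ENNReal.add_ne_top.2 ⟨hm1.2.ne, hm2.2.ne⟩) h2
    rwa [ENNReal.toReal_add hm1.2.ne hm2.2.ne] at h3
  have hcau : ∀ x, ∃ l, Tendsto (fun n => v n x) atTop (𝓝 l) := by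
    intro x
    refine cauchySeq_tendsto_of_complete (Metric.cauchySeq_iff'.2 fun δ hδ => ?_)
    set s := δ / (2 * (Real.sqrt (2 * (4 * c)) + 1)) with hs
    have hs0 : 0 < s := by positivity
    have h1 : ∀ᶠ n in atTop, a n < δ * s / 4 := ha.eventually (gt_mem_nhds (by positivity))
    obtain ⟨N, hN⟩ := eventually_atTop.1 h1
    refine ⟨N, fun n hn => ?_⟩
    have h2 := lip_sup ((hv n).1.sub (hv N).1) ((hvm n).sub (hvm N)) (hdd n N).1
      (L := s ^ 2) (by positivity) x
    rw [Real.sqrt_sq hs0.le] at h2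
    rw [Real.dist_eq]
    have h3 : (eLpNorm (v n - v N) 2 volume).toReal / s < δ / 2 := by
      rw [div_lt_iff₀ hs0]
      have := hA n N
      have h4 := hN n hn
      have h5 := hN N le_rfl
      nlinarith
    have h4 : s * (eLpNorm (deriv (v n - v N)) 2 volume).toReal ≤ δ / 2 := by
      have h5 := (hdd n N).2
      have h6 : s * (Real.sqrt (2 * (4 * c)) + 1) = δ / 2 := by
        rw [hs]
        field_simp
      nlinarith
    simp only [Pi.sub_apply] at h2
    linarith
  choose U hU using hcau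
  have hhol : ∀ x y, |U x - U y| ≤ Real.sqrt |x - y| * Real.sqrt (2 * c) := by
    intro x y
    refine le_of_tendsto' ((hU x).sub (hU y)).abs fun n => ?_
    refine (lip_holder (hv n).1 (hd n).1 x y).trans ?_
    exact mul_le_mul_of_nonneg_left (hd n).2 (Real.sqrt_nonneg _)
  refine ⟨U, ?_, ?_, hhol, ?_⟩
  · rw [continuous_iff_continuousAt]
    intro x
    rw [ContinuousAt, tendsto_iff_norm_sub_tendsto_zero]
    have h1 : Tendsto (fun y => Real.sqrt |y - x| * Real.sqrt (2 * c)) (𝓝 x) (𝓝 0) := by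
      have : Continuous fun y => Real.sqrt |y - x| * Real.sqrt (2 * c) := by fun_prop
      simpa using this.tendsto x
    exact squeeze_zero (fun y => norm_nonneg _) (fun y => hhol y x) h1
  · have hmeas : TendstoInMeasure volume v atTop u :=
      tendstoInMeasure_of_tendsto_eLpNorm (p := 2) (by norm_num) (fun n => (hvm n).1) hum.1 hvf'
    obtain ⟨ns, hns, hae⟩ := hmeas.exists_seq_tendsto_ae
    filter_upwards [hae] with x hx
    exact tendsto_nhds_unique hx ((hU x).comp hns.tendsto_atTop)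
  · intro x
    have h1 : ∀ n, |v n x| ≤ a n + ‖u‖ + Real.sqrt (2 * c) := by
      intro n
      have h2 := lip_sup (hv n).1 (hvm n) (hd n).1 one_pos x
      rw [Real.sqrt_one, div_one, one_mul] at h2
      have h3 : (eLpNorm (v n) 2 volume).toReal ≤ a n + ‖u‖ := by
        have hm1 : MemLp (fun x => v n x - u x) 2 volume := (hvm n).sub hum
        have e1 : v n = (fun x => v n x - u x) + u := by
          funext y
          simp
        have e2 := eLpNorm_add_le hm1.1 hum.1 (p := 2) (by norm_num)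
        rw [← e1] at e2
        have e3 := ENNReal.toReal_mono (ENNReal.add_ne_top.2 ⟨hm1.2.ne, hum.2.ne⟩) e2
        rw [ENNReal.toReal_add hm1.2.ne hum.2.ne] at e3
        exact e3.trans (add_le_add le_rfl (eLpNorm_vol_le_norm hw u))
      have h4 := (hd n).2
      linarith
    have h2 : Tendsto (fun n => a n + ‖u‖ + Real.sqrt (2 * c)) atTop
        (𝓝 (0 + ‖u‖ + Real.sqrt (2 * c))) := (ha.add_const _).add_const _
    rw [zero_add] at h2
    exact le_of_tendsto_of_tendsto' (hU x).abs h2 h1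

/-- Functions of finite energy have a continuous representative. -/
theorem exists_rep (hw : IsWeight w) (u : Lp ℝ 2 (wm w)) (hu : cheegerL (wm w) u ≠ ∞) :
    ∃ U : ℝ → ℝ, Continuous U ∧ u =ᵐ[volume] U ∧
      (∀ x y, |U x - U y| ≤
        Real.sqrt |x - y| * Real.sqrt (2 * (cheegerL (wm w) u).toReal)) ∧
      ∀ x, |U x| ≤ ‖u‖ + Real.sqrt (2 * (cheegerL (wm w) u).toReal) := by
  set M := (cheegerL (wm w) u).toReal with hM
  have hM0 : 0 ≤ M := ENNReal.toReal_nonneg
  have hlt : ∀ δ : ℝ, 0 < δ → cheegerL (wm w) u < ENNReal.ofReal (M + δ) := by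
    intro δ hδ
    rw [← ENNReal.ofReal_toReal hu]
    exact (ENNReal.ofReal_lt_ofReal_iff (by positivity)).2 (by linarith)
  obtain ⟨U, hU1, hU2, _, _⟩ := rep_aux hw u (c := M + 1) (by positivity) (hlt 1 one_pos)
  have hall : ∀ δ : ℝ, 0 < δ →
      (∀ x y, |U x - U y| ≤ Real.sqrt |x - y| * Real.sqrt (2 * (M + δ))) ∧
      ∀ x, |U x| ≤ ‖u‖ + Real.sqrt (2 * (M + δ)) := by
    intro δ hδ
    obtain ⟨V, hV1, hV2, hV3, hV4⟩ := rep_aux hw u (c := M + δ) (by positivity) (hlt δ hδ)
    have : V = U := (Continuous.ae_eq_iff_eq volume hV1 hU1).1 (hV2.symm.trans hU2)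
    rw [← this]
    exact ⟨hV3, hV4⟩
  have hlim : Tendsto (fun δ : ℝ => Real.sqrt (2 * (M + δ))) (𝓝[>] 0)
      (𝓝 (Real.sqrt (2 * (M + 0)))) := by
    refine Tendsto.mono_left ?_ nhdsWithin_le_nhds
    exact (Continuous.tendsto (by fun_prop) 0)
  rw [add_zero] at hlim
  refine ⟨U, hU1, hU2, fun x y => ?_, fun x => ?_⟩
  · refine ge_of_tendsto (hlim.const_mul (Real.sqrt |x - y|)) ?_
    filter_upwards [self_mem_nhdsWithin] with δ hδ
    exact (hall δ hδ).1 x y
  · refine ge_of_tendsto (hlim.const_add ‖u‖) ?_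
    filter_upwards [self_mem_nhdsWithin] with δ hδ
    exact (hall δ hδ).2 x

end Pool.Agent.helper65.MMS
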