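import Pool.Agent.helper65.LineFosc

/-!
# The energy of the tent function in the limit space
-/

open MeasureTheory Filter Topology Set Metric
open scoped ENNReal NNReal

namespace Pool.Agent.helper65.MMS

theorem preCheeger_two {v : ℝ → ℝ} (hv : IsLip v) :
    preCheeger (wm two) v = ∫⁻ x, ENNReal.ofReal (deriv v x ^ 2) := by
  rw [preCheeger_eq two_isWeight hv, lintegral_wm two_isWeight]
  simp only [two]
  rw [lintegral_const_mul' _ _ ENNReal.ofReal_ne_top, ← mul_assoc]
  have h5 : (1 / 2 : ℝ≥0∞) * ENNReal.ofReal 2 = 1 := by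
    rw [ENNReal.ofReal_ofNat, one_div]
    exact ENNReal.inv_mul_cancel (by norm_num) (by norm_num)
  rw [h5, one_mul]

theorem two_slopes {v : ℝ → ℝ} (hv : IsLip v) {c : ℝ} (hc : 0 ≤ c)
    (h : preCheeger (wm two) v ≤ ENNReal.ofReal c) {a b d e : ℝ} (hab : a < b) (hbd : b < d)
    (hde : d < e) :
    (2 * (v b - v a) - (b - a)) + (2 * (v d - v e) - (e - d)) ≤ c := by
  rw [preCheeger_two hv] at h
  have hmeas : Measurable fun x => deriv v x ^ 2 := (measurable_deriv v).pow_const 2
  have hint : Integrable fun x => deriv v x ^ 2 := by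
    refine ⟨hmeas.aestronglyMeasurable, ?_⟩
    rw [hasFiniteIntegral_iff_ofReal (Eventually.of_forall fun x => sq_nonneg _)]
    exact lt_of_le_of_lt h ENNReal.ofReal_lt_top
  have hle : ∫ x, deriv v x ^ 2 ≤ c := by
    rw [integral_eq_lintegral_of_nonneg_ae (Eventually.of_forall fun x => sq_nonneg _)
      hmeas.aestronglyMeasurable]
    exact ENNReal.toReal_le_of_le_ofReal hc h
  have hi : ∀ s t : ℝ, IntervalIntegrable (fun x => deriv v x) volume s t :=
    fun s t => hv.lac.intervalIntegrable s t
  have h1 : ∀ s t σ : ℝ, s ≤ t → σ ^ 2 = 1 →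
      2 * σ * (v t - v s) - (t - s) ≤ ∫ x in Ioc s t, deriv v x ^ 2 := by
    intro s t σ hst hσ
    have h2 : ∫ x in s..t, (2 * σ * deriv v x - 1) = 2 * σ * (v t - v s) - (t - s) := by
      rw [intervalIntegral.integral_sub ((hi s t).const_mul _) (by simp),
        intervalIntegral.integral_const_mul, hv.lac.ftc]
      simp
    rw [← h2, intervalIntegral.integral_of_le hst]
    refine setIntegral_mono (((hi s t).const_mul _).sub (by simp)).1 hint.integrableOn fun x => ?_
    nlinarith [sq_nonneg (deriv v x - σ)]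
  have h2 := h1 a b 1 hab.le (by norm_num)
  have h3 := h1 d e (-1) hde.le (by norm_num)
  have h4 : (∫ x in Ioc a b, deriv v x ^ 2) + ∫ x in Ioc d e, deriv v x ^ 2 ≤
      ∫ x, deriv v x ^ 2 := by
    rw [← setIntegral_union _ measurableSet_Ioc hint.integrableOn hint.integrableOn]
    · exact setIntegral_le_integral hint (Eventually.of_forall fun x => sq_nonneg _)
    · rw [Set.disjoint_left]
      intro x hx hx'
      exact absurd hx.2 (not_le.2 (hbd.trans hx'.1))
  linarith

theorem dense_of_ae {S : Set ℝ} (hS : ∀ᵐ x, x ∈ S) : Dense S := by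
  intro x
  rw [_root_.mem_closure_iff]
  intro U hU hx
  by_contra hne
  rw [Set.not_nonempty_iff_eq_empty] at hne
  have h1 : U ⊆ Sᶜ := fun y hy hyS => by
    have : y ∈ U ∩ S := ⟨hy, hyS⟩
    rw [hne] at this
    exact this
  have h2 : volume U = 0 := measure_mono_null h1 (by simpa [mem_ae_iff] using hS)
  exact (hU.measure_pos volume ⟨x, hx⟩).ne' h2

theorem le_cheeger_tri : ENNReal.ofReal (19 / 10) ≤ cheeger (wm two) tri := by
  by_contra hcon
  rw [not_le] at hcon
  obtain ⟨u, ⟨hu, huf⟩, hue⟩ := exists_seq_of_cheeger_lt hcon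
  have huf' := (tendsto_eLpNorm_wm_iff two_isWeight).1 huf
  have hum : ∀ n, MemLp (u n) 2 volume := fun n => (memLp_wm_iff two_isWeight).1 (hu n).2
  have hmeas : TendstoInMeasure volume u atTop tri :=
    tendstoInMeasure_of_tendsto_eLpNorm (p := 2) (by norm_num) (fun n => (hum n).1)
      tri_memLp.1 huf'
  obtain ⟨ns, hns, hae⟩ := hmeas.exists_seq_tendsto_ae
  have hSd := dense_of_ae hae
  obtain ⟨a, haI, haS⟩ := hSd.inter_open_nonempty (Ioo (-1) (-(99 / 100))) isOpen_Ioo
    ⟨-(995 / 1000), by constructor <;> norm_num⟩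
  obtain ⟨b, hbI, hbS⟩ := hSd.inter_open_nonempty (Ioo (-(1 / 100)) 0) isOpen_Ioo
    ⟨-(5 / 1000), by constructor <;> norm_num⟩
  obtain ⟨d, hdI, hdS⟩ := hSd.inter_open_nonempty (Ioo 0 (1 / 100)) isOpen_Ioo
    ⟨(5 / 1000), by constructor <;> norm_num⟩
  obtain ⟨e, heI, heS⟩ := hSd.inter_open_nonempty (Ioo (99 / 100) 1) isOpen_Ioo
    ⟨(995 / 1000), by constructor <;> norm_num⟩
  have ha : tri a = 1 + a := by
    unfold tri
    rw [abs_of_neg (by linarith [haI.2]), min_eq_left (by linarith [haI.1])]
    ring
  have hb : tri b = 1 + b := by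
    unfold tri
    rw [abs_of_neg hbI.2, min_eq_left (by linarith [hbI.1])]
    ring
  have hd : tri d = 1 - d := by
    unfold tri
    rw [abs_of_pos hdI.1, min_eq_left (by linarith [hdI.2])]
  have he : tri e = 1 - e := by
    unfold tri
    rw [abs_of_pos (by linarith [heI.1]), min_eq_left (by linarith [heI.2])]
  have hlim : Tendsto (fun k => (2 * (u (ns k) b - u (ns k) a) - (b - a)) +
      (2 * (u (ns k) d - u (ns k) e) - (e - d))) atTop
      (𝓝 ((2 * (tri b - tri a) - (b - a)) + (2 * (tri d - tri e) - (e - d)))) := by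
    have hbS' : Tendsto (fun k => u (ns k) b) atTop (𝓝 (tri b)) := hbS
    have haS' : Tendsto (fun k => u (ns k) a) atTop (𝓝 (tri a)) := haS
    have hdS' : Tendsto (fun k => u (ns k) d) atTop (𝓝 (tri d)) := hdS
    have heS' : Tendsto (fun k => u (ns k) e) atTop (𝓝 (tri e)) := heS
    exact (((hbS'.sub haS').const_mul 2).sub_const _).add
      (((hdS'.sub heS').const_mul 2).sub_const _)
  have hle := le_of_tendsto' hlim fun k => two_slopes (hu (ns k)).1 (c := 19 / 10) (by norm_num)
    (hue (ns k)).le (by linarith [haI.2, hbI.1]) (hbI.2.trans hdI.1) (by linarith [hdI.2, heI.1])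
  rw [ha, hb, hd, he] at hle
  linarith [haI.2, hbI.1, hdI.2, heI.1]

theorem fosc_tendsto {φ : ℝ → ℝ} (hφ : Continuous φ)
    (hs : Bornology.IsBounded (Function.support φ)) :
    Tendsto (fun n => ∫ x, φ x * fosc n x ∂(wm (osc n))) atTop
      (𝓝 (∫ x, φ x * tri x ∂(wm two))) := by
  have hcs : HasCompactSupport φ :=
    Metric.isCompact_of_isClosed_isBounded isClosed_closure hs.closure
  have hint : Integrable fun x => φ x * tri x :=
    (hφ.mul tri_lip.continuous).integrable_of_hasCompactSupport (hcs.mul_right)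
  have h1 := tendsto_integral_osc hint
  have h2 : Tendsto (fun n => (∫ x, φ x * fosc n x ∂(wm (osc n))) -
      ∫ x, φ x * tri x ∂(wm (osc n))) atTop (𝓝 0) := by
    have hb : ∀ n, ‖(∫ x, φ x * fosc n x ∂(wm (osc n))) -
        ∫ x, φ x * tri x ∂(wm (osc n))‖ ≤ 3 * (∫ x, |φ x|) * (1 / (2 * fq n)) := by
      intro n
      rw [integral_wm (osc_isWeight n), integral_wm (osc_isWeight n), ← integral_sub]
      · have h3 : ∀ x, osc n x * (φ x * fosc n x) - osc n x * (φ x * tri x) =
            osc n x * φ x * (fosc n x - tri x) := fun x => by ring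
        simp_rw [h3]
        have h4 : 3 * (∫ x, |φ x|) * (1 / (2 * fq n)) = ∫ x, 3 * |φ x| * (1 / (2 * fq n)) := by
          rw [integral_mul_const, integral_const_mul]
        rw [h4]
        refine norm_integral_le_of_norm_le ?_ (Eventually.of_forall fun x => ?_)
        · exact ((hφ.integrable_of_hasCompactSupport hcs).abs.const_mul 3).mul_const _
        · rw [Real.norm_eq_abs, abs_mul, abs_mul, abs_of_pos ((osc_isWeight n).pos x)]
          have h5 := (osc_isWeight n).le_three x
          have h6 := fosc_sub_tri n x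
          have h7 := (osc_isWeight n).pos x
          gcongr
      · have hco : Continuous (osc n) := by
          unfold osc
          fun_prop
        exact (hco.mul (hφ.mul (fosc_lip n).continuous)).integrable_of_hasCompactSupport
          (hcs.mul_right).mul_left
      · have hco : Continuous (osc n) := by
          unfold osc
          fun_prop
        exact (hco.mul (hφ.mul tri_lip.continuous)).integrable_of_hasCompactSupport
          (hcs.mul_right).mul_left
    refine squeeze_zero_norm hb ?_
    have h3 : Tendsto (fun n : ℕ => 1 / (2 * fq n)) atTop (𝓝 0) := by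
      refine tendsto_const_nhds.div_atTop ?_
      refine Tendsto.const_mul_atTop (by norm_num) ?_
      unfold fq
      refine Tendsto.const_mul_atTop (by positivity) ?_
      exact tendsto_atTop_add_const_right _ _ tendsto_natCast_atTop_atTop
    simpa using h3.const_mul (3 * ∫ x, |φ x|)
  simpa using h2.add h1

/-- The oscillating tents converge strongly (in particular weakly) to the tent. -/
theorem fosc_weakConv : WeakConv oscReal (fun n => fosc n) tri := by
  refine ⟨fun n => (memLp_wm_iff (osc_isWeight n)).2 (fosc_memLp n),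
    (memLp_wm_iff two_isWeight).2 tri_memLp, ?_, ?_⟩
  · have htop : eLpNorm ((Icc (-1 : ℝ) 1).indicator (fun _ => (2 : ℝ))) 2
        ((3 : ℝ≥0∞) • volume) < ∞ := ((memLp_indicator 2).smul_measure (by norm_num)).2
    refine ⟨(eLpNorm ((Icc (-1 : ℝ) 1).indicator (fun _ => (2 : ℝ))) 2
      ((3 : ℝ≥0∞) • volume)).toNNReal, fun n => ?_⟩
    rw [ENNReal.coe_toNNReal htop.ne]
    refine (eLpNorm_mono_measure _ (wm_le (osc_isWeight n))).trans (eLpNorm_mono_real fun x => ?_)
    exact fosc_abs_le n x
  · intro φ hφ _ hs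
    exact fosc_tendsto (φ := φ) hφ hs

theorem eLpNorm_two_eq {X : Type*} [MeasurableSpace X] {μ : Measure X} {f : X → ℝ}
    (hf : MemLp f 2 μ) : eLpNorm f 2 μ = ENNReal.ofReal (Real.sqrt (∫ x, f x ^ 2 ∂μ)) := by
  rw [hf.eLpNorm_eq_integral_rpow_norm (by norm_num) (by norm_num), Real.sqrt_eq_rpow]
  congr 2
  · refine integral_congr_ae (Eventually.of_forall fun x => ?_)
    simp
  · norm_num

theorem tendsto_inv_fq : Tendsto (fun n : ℕ => 1 / (2 * fq n)) atTop (𝓝 0) := by
  refine tendsto_const_nhds.div_atTop ?_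
  refine Tendsto.const_mul_atTop (by norm_num) ?_
  unfold fq
  refine Tendsto.const_mul_atTop (by positivity) ?_
  exact tendsto_atTop_add_const_right _ _ tendsto_natCast_atTop_atTop

theorem osc_continuous (n : ℕ) : Continuous (osc n) := by
  unfold osc
  fun_prop

theorem hasCompactSupport_of_bound {f : ℝ → ℝ} {c : ℝ}
    (h : ∀ x, |f x| ≤ (Icc (-1 : ℝ) 1).indicator (fun _ => c) x) : HasCompactSupport f := by
  refine HasCompactSupport.intro (K := Icc (-1 : ℝ) 1) isCompact_Icc fun x hx => ?_
  have := h x
  rw [indicator_of_notMem hx] at this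
  exact abs_nonpos_iff.1 this

theorem fosc_strongConv : StrongConv oscReal (fun n => fosc n) tri := by
  refine ⟨fosc_weakConv, ?_⟩
  change Tendsto (fun n => eLpNorm (fosc n) 2 (wm (osc n))) atTop (𝓝 (eLpNorm tri 2 (wm two)))
  have h0 : ∀ n, eLpNorm (fosc n) 2 (wm (osc n)) =
      ENNReal.ofReal (Real.sqrt (∫ x, fosc n x ^ 2 ∂(wm (osc n)))) :=
    fun n => eLpNorm_two_eq ((memLp_wm_iff (osc_isWeight n)).2 (fosc_memLp n))
  rw [eLpNorm_two_eq ((memLp_wm_iff two_isWeight).2 tri_memLp)]
  simp_rw [h0]
  refine ENNReal.tendsto_ofReal ((Real.continuous_sqrt.tendsto _).comp ?_)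
  have htc : HasCompactSupport tri := hasCompactSupport_of_bound tri_abs_le
  have hfc : ∀ n, HasCompactSupport (fosc n) := fun n => hasCompactSupport_of_bound (fosc_abs_le n)
  have hint : Integrable fun x => tri x ^ 2 := by
    have : Integrable fun x => tri x * tri x :=
      (tri_lip.continuous.mul tri_lip.continuous).integrable_of_hasCompactSupport htc.mul_left
    simpa [sq] using this
  have h1 := tendsto_integral_osc hint
  have h2 : Tendsto (fun n => (∫ x, fosc n x ^ 2 ∂(wm (osc n))) -
      ∫ x, tri x ^ 2 ∂(wm (osc n))) atTop (𝓝 0) := by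
    have hb : ∀ n, ‖(∫ x, fosc n x ^ 2 ∂(wm (osc n))) -
        ∫ x, tri x ^ 2 ∂(wm (osc n))‖ ≤ 18 * (1 / (2 * fq n)) := by
      intro n
      rw [integral_wm (osc_isWeight n), integral_wm (osc_isWeight n), ← integral_sub]
      · have h3 : ∀ x, osc n x * (fosc n x ^ 2) - osc n x * (tri x ^ 2) =
            osc n x * (fosc n x + tri x) * (fosc n x - tri x) := fun x => by ring
        simp_rw [h3]
        have h4 : 18 * (1 / (2 * fq n)) =
            ∫ x, (Icc (-1 : ℝ) 1).indicator (fun _ => 9 * (1 / (2 * fq n))) x := by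
          rw [integral_indicator measurableSet_Icc]
          simp
          ring
        rw [h4]
        refine norm_integral_le_of_norm_le ?_ (Eventually.of_forall fun x => ?_)
        · exact (integrable_indicator_iff measurableSet_Icc).2
            (continuous_const.continuousOn.integrableOn_compact isCompact_Icc)
        · rw [Real.norm_eq_abs, abs_mul, abs_mul, abs_of_pos ((osc_isWeight n).pos x)]
          have h5 := (osc_isWeight n).le_three x
          have h6 := fosc_sub_tri n x
          have h7 := (osc_isWeight n).pos x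
          have h8 := fosc_abs_le n x
          have h9 := tri_abs_le x
          have h10 := abs_add_le (fosc n x) (tri x)
          by_cases hx : x ∈ Icc (-1 : ℝ) 1
          · rw [indicator_of_mem hx] at h8 h9 ⊢
            have h11 : |fosc n x + tri x| ≤ 3 := by linarith
            have h12 := abs_nonneg (fosc n x - tri x)
            have h13 := abs_nonneg (fosc n x + tri x)
            calc osc n x * |fosc n x + tri x| * |fosc n x - tri x|
                ≤ 3 * 3 * (1 / (2 * fq n)) := by gcongr
              _ = _ := by ring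
          · rw [indicator_of_notMem hx] at h8 h9 ⊢
            have h11 : |fosc n x + tri x| = 0 := le_antisymm (by linarith) (abs_nonneg _)
            rw [h11]
            simp
      · refine ((osc_continuous n).mul ((fosc_lip n).continuous.pow 2)).integrable_of_hasCompactSupport ?_
        refine HasCompactSupport.mul_left ?_
        have : fosc n ^ 2 = fosc n * fosc n := sq _
        rw [this]
        exact (hfc n).mul_left
      · refine ((osc_continuous n).mul (tri_lip.continuous.pow 2)).integrable_of_hasCompactSupport ?_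
        refine HasCompactSupport.mul_left ?_
        have : tri ^ 2 = tri * tri := sq _
        rw [this]
        exact htc.mul_left
    refine squeeze_zero_norm hb ?_
    simpa using tendsto_inv_fq.const_mul 18
  simpa using h2.add h1

end Pool.Agent.helper65.MMS
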