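import Pool.Agent.helper65.LineAC

/-!
# The weighted line and limits of Lipschitz functions
-/

open MeasureTheory Filter Topology Set Metric
open scoped ENNReal NNReal

namespace Pool.Agent.helper65.MMS

/-- A measurable weight with values in `[1, 3]`. -/
structure IsWeight (w : ℝ → ℝ) : Prop where
  meas : Measurable w
  one_le : ∀ x, 1 ≤ w x
  le_three : ∀ x, w x ≤ 3

/-- The measure `w dx`. -/
noncomputable def wm (w : ℝ → ℝ) : Measure ℝ := volume.withDensity (fun x => ENNReal.ofReal (w x))

theorem isWeight_of_const {c : ℝ} (h1 : 1 ≤ c) (h3 : c ≤ 3) : IsWeight (fun _ => c) :=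
  ⟨measurable_const, fun _ => h1, fun _ => h3⟩

section Weight

variable {w : ℝ → ℝ} (hw : IsWeight w)
include hw

theorem IsWeight.meas_ofReal : Measurable (fun x => ENNReal.ofReal (w x)) :=
  ENNReal.measurable_ofReal.comp hw.meas

theorem IsWeight.pos (x : ℝ) : 0 < w x := lt_of_lt_of_le one_pos (hw.one_le x)

theorem lintegral_wm (f : ℝ → ℝ≥0∞) :
    ∫⁻ x, f x ∂(wm w) = ∫⁻ x, ENNReal.ofReal (w x) * f x := by
  unfold wm
  rw [lintegral_withDensity_eq_lintegral_mul_non_measurable _ hw.meas_ofReal]
  · rfl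
  · exact Eventually.of_forall fun x => ENNReal.ofReal_lt_top

theorem setLIntegral_wm (f : ℝ → ℝ≥0∞) {s : Set ℝ} (hs : MeasurableSet s) :
    ∫⁻ x in s, f x ∂(wm w) = ∫⁻ x in s, ENNReal.ofReal (w x) * f x := by
  unfold wm
  rw [restrict_withDensity hs, lintegral_withDensity_eq_lintegral_mul_non_measurable _ hw.meas_ofReal]
  · rfl
  · exact Eventually.of_forall fun x => ENNReal.ofReal_lt_top

theorem integral_wm (f : ℝ → ℝ) : ∫ x, f x ∂(wm w) = ∫ x, w x * f x := by
  unfold wm
  rw [integral_withDensity_eq_integral_toReal_smul hw.meas_ofReal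
    (Eventually.of_forall fun x => ENNReal.ofReal_lt_top)]
  refine integral_congr_ae (Eventually.of_forall fun x => ?_)
  simp only [smul_eq_mul]
  rw [ENNReal.toReal_ofReal (hw.pos x).le]

theorem setIntegral_wm (f : ℝ → ℝ) {s : Set ℝ} (hs : MeasurableSet s) :
    ∫ x in s, f x ∂(wm w) = ∫ x in s, w x * f x := by
  unfold wm
  rw [restrict_withDensity hs, integral_withDensity_eq_integral_toReal_smul hw.meas_ofReal
    (Eventually.of_forall fun x => ENNReal.ofReal_lt_top)]
  refine integral_congr_ae (Eventually.of_forall fun x => ?_)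
  simp only [smul_eq_mul]
  rw [ENNReal.toReal_ofReal (hw.pos x).le]

theorem volume_le_wm : volume ≤ wm w := by
  refine Measure.le_iff.2 fun s hs => ?_
  unfold wm
  rw [withDensity_apply _ hs]
  calc volume s = ∫⁻ _ in s, 1 := by simp
    _ ≤ _ := lintegral_mono fun x => by
      rw [← ENNReal.ofReal_one]
      exact ENNReal.ofReal_le_ofReal (hw.one_le x)

theorem wm_le : wm w ≤ (3 : ℝ≥0∞) • volume := by
  refine Measure.le_iff.2 fun s hs => ?_
  unfold wm
  rw [withDensity_apply _ hs]
  calc ∫⁻ x in s, ENNReal.ofReal (w x) ≤ ∫⁻ _ in s, 3 := lintegral_mono fun x => by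
        rw [show (3 : ℝ≥0∞) = ENNReal.ofReal 3 by norm_num]
        exact ENNReal.ofReal_le_ofReal (hw.le_three x)
    _ = _ := by simp

theorem ae_wm_iff {p : ℝ → Prop} : (∀ᵐ x ∂(wm w), p x) ↔ ∀ᵐ x, p x := by
  constructor
  · intro h
    exact (Measure.absolutelyContinuous_of_le (volume_le_wm hw)).ae_le h
  · intro h
    have h1 : wm w ≪ volume := withDensity_absolutelyContinuous _ _
    exact h1.ae_le h

theorem memLp_wm_iff {f : ℝ → ℝ} {p : ℝ≥0∞} : MemLp f p (wm w) ↔ MemLp f p volume := by
  constructor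
  · exact fun h => h.mono_measure (volume_le_wm hw)
  · intro h
    exact h.of_measure_le_smul (by norm_num) (wm_le hw)

theorem tendsto_eLpNorm_wm_iff {F : ℕ → ℝ → ℝ} :
    Tendsto (fun n => eLpNorm (F n) 2 (wm w)) atTop (𝓝 0) ↔
      Tendsto (fun n => eLpNorm (F n) 2 volume) atTop (𝓝 0) := by
  constructor
  · intro h
    exact tendsto_of_tendsto_of_tendsto_of_le_of_le tendsto_const_nhds h (fun _ => zero_le)
      (fun n => eLpNorm_mono_measure _ (volume_le_wm hw))
  · intro h
    have h1 : Tendsto (fun n => (3 : ℝ≥0∞) ^ (1 / (2 : ℝ≥0∞)).toReal • eLpNorm (F n) 2 volume) atTop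
        (𝓝 ((3 : ℝ≥0∞) ^ (1 / (2 : ℝ≥0∞)).toReal • 0)) := by
      refine ENNReal.Tendsto.const_mul h (Or.inr ?_)
      exact ENNReal.rpow_ne_top_of_nonneg (by positivity) (by norm_num)
    rw [smul_zero] at h1
    refine tendsto_of_tendsto_of_tendsto_of_le_of_le tendsto_const_nhds h1 (fun _ => zero_le)
      (fun n => ?_)
    exact (eLpNorm_mono_measure _ (wm_le hw)).trans (eLpNorm_smul_measure_le _ _ _ _)

end Weight

/-! ### Limits of Lipschitz functions -/

/-- Square integrable functions are integrable on bounded intervals. -/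
theorem intervalIntegrable_of_memLp {g : ℝ → ℝ} (hg : MemLp g 2 volume) (a b : ℝ) :
    IntervalIntegrable g volume a b := by
  have h1 : LocallyIntegrable g volume := hg.locallyIntegrable (by norm_num)
  exact (h1.integrableOn_isCompact isCompact_uIcc).intervalIntegrable

theorem exists_lac_of_tendsto {u : ℕ → ℝ → ℝ} {f g : ℝ → ℝ} (hu : ∀ n, IsLip (u n))
    (hum : ∀ n, MemLp (u n) 2 volume) (hfm : AEStronglyMeasurable f volume)
    (hconv : Tendsto (fun n => eLpNorm (fun x => u n x - f x) 2 volume) atTop (𝓝 0))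
    (hg : MemLp g 2 volume)
    (hlim : ∀ a b, a ≤ b →
      Tendsto (fun n => ∫ x in a..b, |deriv (u n) x|) atTop (𝓝 (∫ x in a..b, g x))) :
    ∃ F : ℝ → ℝ, f =ᵐ[volume] F ∧ LAC F ∧ (∀ᵐ x, |deriv F x| ≤ g x) := by
  have hgi := intervalIntegrable_of_memLp hg
  -- an a.e. convergent subsequence
  have hmeas : TendstoInMeasure volume u atTop f :=
    tendstoInMeasure_of_tendsto_eLpNorm (p := 2) (by norm_num) (fun n => (hum n).1) hfm hconv
  obtain ⟨ns, hns, hae⟩ := hmeas.exists_seq_tendsto_ae
  let v : ℕ → ℝ → ℝ := fun k => u (ns k)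
  have hvlim : ∀ a b, a ≤ b →
      Tendsto (fun k => ∫ x in a..b, |deriv (v k) x|) atTop (𝓝 (∫ x in a..b, g x)) :=
    fun a b hab => (hlim a b hab).comp hns.tendsto_atTop
  have hvle : ∀ k a b, a ≤ b → |v k b - v k a| ≤ ∫ x in a..b, |deriv (v k) x| := by
    intro k a b hab
    rw [← (hu (ns k)).lac.ftc a b]
    exact intervalIntegral.abs_integral_le_integral_abs hab
  let S : Set ℝ := {x | Tendsto (fun k => v k x) atTop (𝓝 (f x))}
  have hS : ∀ᵐ x, x ∈ S := hae
  have hSd : Dense S := by
    intro x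
    rw [_root_.mem_closure_iff]
    intro U hU hx
    by_contra hne
    rw [Set.not_nonempty_iff_eq_empty] at hne
    have h1 : U ⊆ Sᶜ := fun y hy hyS => by
      have : y ∈ U ∩ S := ⟨hy, hyS⟩
      rw [hne] at this
      exact this
    have h2 : volume U = 0 := measure_mono_null h1 (by simpa [mem_ae_iff] using hS)
    exact (hU.measure_pos volume ⟨x, hx⟩).ne' h2
  -- convergence at every point
  have hcauchy : ∀ y, ∃ L, Tendsto (fun k => v k y) atTop (𝓝 L) := by
    intro y
    refine cauchySeq_tendsto_of_complete (Metric.cauchySeq_iff'.2 fun ε hε => ?_)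
    -- a point of `S` close to `y`
    have hcont : ContinuousAt (fun x => ∫ t in x..y, g t) y := by
      have h1 := (lac_integral hgi y).continuous.continuousAt (x := y)
      have h2 : (fun x => ∫ t in x..y, g t) = fun x => -∫ t in y..x, g t := by
        funext x
        rw [intervalIntegral.integral_symm]
      rw [h2]
      exact h1.neg
    have h0 : (∫ t in y..y, g t) = 0 := intervalIntegral.integral_same
    have hev : ∀ᶠ x in 𝓝 y, ∫ t in x..y, g t < ε / 8 := by
      have := hcont.tendsto
      simp only [h0] at this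
      exact this.eventually (gt_mem_nhds (by positivity))
    obtain ⟨δ, hδ, hball⟩ := Metric.eventually_nhds_iff.1 hev
    obtain ⟨x, hxI, hxS⟩ := hSd.inter_open_nonempty (Ioo (y - δ) y) isOpen_Ioo
      ⟨y - δ / 2, by constructor <;> linarith⟩
    have hxy : x ≤ y := hxI.2.le
    have hxg : ∫ t in x..y, g t < ε / 8 := by
      refine hball ?_
      rw [Real.dist_eq, abs_sub_comm, abs_of_pos (by linarith [hxI.2])]
      linarith [hxI.1]
    have hev2 : ∀ᶠ k in atTop, ∫ t in x..y, |deriv (v k) t| < ε / 8 :=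
      (hvlim x y hxy).eventually (gt_mem_nhds hxg)
    have hev3 : ∀ᶠ k in atTop, dist (v k x) (f x) < ε / 8 :=
      (Metric.tendsto_nhds.1 hxS) (ε / 8) (by positivity)
    obtain ⟨N, hN⟩ := eventually_atTop.1 (hev2.and hev3)
    refine ⟨N, fun n hn => ?_⟩
    have h1 := hvle n x y hxy
    have h2 := hvle N x y hxy
    have h3 := hN n hn
    have h4 := hN N le_rfl
    rw [Real.dist_eq] at h3 h4 ⊢
    have e1 : v n y - v N y = (v n y - v n x) + (v n x - f x) - (v N x - f x) - (v N y - v N x) := by
      ring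
    rw [e1]
    have a1 := abs_le.1 h1
    have a2 := abs_le.1 h2
    have a3 := abs_lt.1 h3.2
    have a4 := abs_lt.1 h4.2
    rw [abs_lt]
    constructor <;> linarith [h3.1, h4.1]
  choose F hF using hcauchy
  have hFf : f =ᵐ[volume] F := by
    filter_upwards [hS] with x hx
    exact tendsto_nhds_unique hx (hF x)
  have hFle : ∀ x y, x ≤ y → |F y - F x| ≤ ∫ t in x..y, g t := by
    intro x y hxy
    exact le_of_tendsto_of_tendsto' ((hF y).sub (hF x)).abs (hvlim x y hxy) fun k => hvle k x y hxy
  obtain ⟨h1, h2⟩ := lac_of_le_integral hgi hFle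
  exact ⟨F, hFf, h1, h2⟩

/-- From a relaxed slope to a locally absolutely continuous representative. -/
theorem exists_lac_of_relaxedSlope {w : ℝ → ℝ} (hw : IsWeight w) {f G : ℝ → ℝ}
    (h : IsRelaxedSlope (wm w) f G) (hf : AEStronglyMeasurable f volume) :
    ∃ F : ℝ → ℝ, f =ᵐ[volume] F ∧ LAC F ∧ MemLp (deriv F) 2 volume ∧ ∀ᵐ x, |deriv F x| ≤ G x := by
  obtain ⟨hG, u, g, ⟨hu, hconv⟩, hL, hg, hweak, hgG⟩ := h
  rw [memLp_wm_iff hw] at hG hg
  have hgG' : ∀ᵐ x, g x ≤ G x := (ae_wm_iff hw).1 hgG
  have hconv' := (tendsto_eLpNorm_wm_iff hw).1 hconv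
  obtain ⟨F, hfF, hF, hFg⟩ := exists_lac_of_tendsto (g := g) (fun n => (hu n).1)
    (fun n => (memLp_wm_iff hw).1 (hu n).2) hf hconv' hg (by
      intro a b hab
      -- test against the indicator of `(a, b]` divided by the weight
      let ψ : ℝ → ℝ := (Ioc a b).indicator fun x => (w x)⁻¹
      have hψ : MemLp ψ 2 (wm w) := by
        rw [memLp_wm_iff hw]
        have h1 : MemLp ((Ioc a b).indicator fun _ : ℝ => (1 : ℝ)) 2 volume :=
          memLp_indicator_const 2 measurableSet_Ioc 1 (Or.inr (by simp))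
        refine h1.mono ?_ (Eventually.of_forall fun x => ?_)
        · exact (hw.meas.inv.indicator measurableSet_Ioc).aestronglyMeasurable
        · simp only [ψ, Set.indicator]
          split_ifs
          · rw [norm_inv, norm_one, Real.norm_of_nonneg (hw.pos x).le]
            exact inv_le_one_of_one_le₀ (hw.one_le x)
          · simp
      have hkey : ∀ v : ℝ → ℝ, ∫ x, v x * ψ x ∂(wm w) = ∫ x in a..b, v x := by
        intro v
        rw [integral_wm hw, intervalIntegral.integral_of_le hab,
          ← integral_indicator measurableSet_Ioc]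
        refine integral_congr_ae (Eventually.of_forall fun x => ?_)
        simp only [ψ, Set.indicator]
        split_ifs
        · have := (hw.pos x).ne'
          field_simp
        · simp
      have h2 := hweak ψ hψ
      rw [hkey g] at h2
      refine h2.congr fun n => ?_
      rw [hkey]
      refine intervalIntegral.integral_congr_ae ?_
      filter_upwards [(hu n).1.locLip_ae_eq] with x hx _
      rw [hx]
      simp)
  have hder : ∀ᵐ x, |deriv F x| ≤ G x := by
    filter_upwards [hFg, hgG'] with x h1 h2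
    exact h1.trans h2
  refine ⟨F, hfF, hF, ?_, hder⟩
  refine hG.mono (measurable_deriv F).aestronglyMeasurable ?_
  filter_upwards [hder] with x hx
  rw [Real.norm_eq_abs, Real.norm_eq_abs]
  exact hx.trans (le_abs_self _)

end Pool.Agent.helper65.MMS
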