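import Mathlib

/-!
# Metric measure spaces, Cheeger energies, harmonic functions, convergence

The definitions of the theory of metric measure spaces used in the hand-ins for `MP_a99579_gt`.
-/

open MeasureTheory Filter Topology Set Metric
open scoped ENNReal NNReal

namespace Pool.Agent.helper65.MMS

/-- A metric measure space: a complete separable metric space with a Borel measure which is finite
and positive on every open ball. -/
structure MMSpace where
  /-- the underlying set -/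
  carrier : Type
  [metric : MetricSpace carrier]
  [complete : CompleteSpace carrier]
  [separable : TopologicalSpace.SeparableSpace carrier]
  [measurable : MeasurableSpace carrier]
  [borel : BorelSpace carrier]
  /-- the reference measure -/
  vol : Measure carrier
  ball_pos : ∀ (x : carrier) (r : ℝ), 0 < r → 0 < vol (ball x r)
  ball_lt_top : ∀ (x : carrier) (r : ℝ), vol (ball x r) < ∞

attribute [instance] MMSpace.metric MMSpace.complete MMSpace.separable MMSpace.measurable
  MMSpace.borel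

instance : CoeSort MMSpace Type := ⟨MMSpace.carrier⟩

section Metric

variable {X : Type*} [MetricSpace X]

/-- The local Lipschitz constant `Lip f (x) = limsup_{y → x} |f y - f x| / d(y, x)`
(it is `0` at an isolated point). -/
noncomputable def locLip (f : X → ℝ) (x : X) : ℝ≥0∞ :=
  limsup (fun y => edist (f y) (f x) / edist y x) (𝓝[≠] x)

/-- `f` is a Lipschitz function. -/
def IsLip (f : X → ℝ) : Prop := ∃ K : ℝ≥0, LipschitzWith K f

/-- `φ` is a Lipschitz function with compact support contained in `B`. -/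
def IsLipc (B : Set X) (φ : X → ℝ) : Prop :=
  IsLip φ ∧ HasCompactSupport φ ∧ tsupport φ ⊆ B

variable [MeasurableSpace X] (m : Measure X)

/-- Half of the integral of the square of the local Lipschitz constant. -/
noncomputable def preCheeger (u : X → ℝ) : ℝ≥0∞ := (1 / 2) * ∫⁻ x, locLip u x ^ 2 ∂m

/-- `u n` are square integrable Lipschitz functions converging to `f` in `L²`. -/
def LipApprox (u : ℕ → X → ℝ) (f : X → ℝ) : Prop :=
  (∀ n, IsLip (u n) ∧ MemLp (u n) 2 m) ∧
    Tendsto (fun n => eLpNorm (fun x => u n x - f x) 2 m) atTop (𝓝 0)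

/-- The Cheeger energy: the relaxation in `L²` of `u ↦ ½ ∫ (Lip u)² dm` on Lipschitz functions,
`Ch f = inf { liminf ½ ∫ (Lip u_n)² dm : u_n Lipschitz, u_n → f in L² }`. -/
noncomputable def cheeger (f : X → ℝ) : ℝ≥0∞ :=
  ⨅ (u : ℕ → X → ℝ) (_ : LipApprox m u f), liminf (fun n => preCheeger m (u n)) atTop

/-- The space is infinitesimally Hilbertian: its Cheeger energy is a quadratic form on `L²`. -/
def IsIH : Prop :=
  ∀ f g : X → ℝ, MemLp f 2 m → MemLp g 2 m →
    cheeger m (f + g) + cheeger m (f - g) = 2 * cheeger m f + 2 * cheeger m g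

/-- `G` is a relaxed slope of `f`: there are Lipschitz functions `u n → f` in `L²` whose local
Lipschitz constants converge weakly in `L²` to some `g ≤ G`. -/
def IsRelaxedSlope (f G : X → ℝ) : Prop :=
  MemLp G 2 m ∧ ∃ (u : ℕ → X → ℝ) (g : X → ℝ), LipApprox m u f ∧
    (∀ n, MemLp (fun x => (locLip (u n) x).toReal) 2 m) ∧ MemLp g 2 m ∧
    (∀ ψ : X → ℝ, MemLp ψ 2 m →
      Tendsto (fun n => ∫ x, (locLip (u n) x).toReal * ψ x ∂m) atTop (𝓝 (∫ x, g x * ψ x ∂m))) ∧
    g ≤ᵐ[m] G

/-- `G` is the minimal relaxed slope `|∇f|` of `f` (equivalently, its minimal weak upper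
gradient): it is a relaxed slope of `f` and is a.e. smaller than every relaxed slope of `f`. -/
def IsMinSlope (f G : X → ℝ) : Prop :=
  IsRelaxedSlope m f G ∧ ∀ G' : X → ℝ, IsRelaxedSlope m f G' → G ≤ᵐ[m] G'

/-- `h` belongs to `H^{1,2}_loc(B)` and `G = |∇h|` on the open set `B`: for every Lipschitz `χ`
with compact support in `B` the product `χ h` is in the Sobolev space, and its minimal slope agrees
with `G` a.e. on the interior of `{χ = 1}`. -/
def IsLocSlope (B : Set X) (h G : X → ℝ) : Prop :=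
  ∀ χ : X → ℝ, IsLipc B χ → MemLp (fun x => χ x * h x) 2 m ∧
    ∃ S : X → ℝ, IsMinSlope m (fun x => χ x * h x) S ∧
      ∀ᵐ x ∂m, (∀ᶠ y in 𝓝 x, χ y = 1) → G x = S x

/-- `h` is harmonic on the open set `B`: `h ∈ H^{1,2}_loc(B)` and `∫_B ⟨∇h, ∇φ⟩ dm = 0` for all
Lipschitz `φ` with compact support in `B`, where
`⟨∇h, ∇φ⟩ = (|∇(h + φ)|² - |∇(h - φ)|²) / 4`. -/
def IsHarmonic (B : Set X) (h : X → ℝ) : Prop :=
  (∃ G, IsLocSlope m B h G) ∧
    ∀ φ : X → ℝ, IsLipc B φ → ∀ Gp Gm : X → ℝ,
      IsLocSlope m B (fun x => h x + φ x) Gp → IsLocSlope m B (fun x => h x - φ x) Gm →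
        ∫ x in B, (Gp x ^ 2 - Gm x ^ 2) / 4 ∂m = 0

/-- The space is PI for the functions `cv`, `cp` and the dilation `Λ`: it is locally doubling and
supports a local Poincaré inequality. -/
def IsPI (cv cp : ℝ → ℝ) (Λ : ℝ) : Prop :=
  ∀ R : ℝ, 0 < R → ∀ (x : X) (r : ℝ), 0 < r → r ≤ R →
    m (ball x (2 * r)) ≤ ENNReal.ofReal (cv R) * m (ball x r) ∧
    ∀ f : X → ℝ, IsLip f →
      ⨍⁻ y in ball x r, ‖f y - ⨍ z in ball x r, f z ∂m‖ₑ ∂m ≤
        ENNReal.ofReal (cp R * r) * (⨍⁻ y in ball x (Λ * r), locLip f y ^ 2 ∂m) ^ (1 / 2 : ℝ)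

/-- The space satisfies the QL (quantitative Lipschitz property of harmonic functions) for the
function `ch`. -/
def IsQL (ch : ℝ → ℝ) : Prop :=
  ∀ R : ℝ, 0 < R → ∀ (x : X) (r : ℝ), 0 < r → r ≤ R →
    ∀ h G : X → ℝ, IsHarmonic m (ball x r) h → IsLocSlope m (ball x r) h G →
      ∀ᵐ y ∂m, y ∈ ball x (r / 2) →
        ENNReal.ofReal (G y) ≤ ENNReal.ofReal (ch R / r) * ⨍⁻ z in ball x r, ‖h z‖ₑ ∂m

end Metric

/-- Pointed measured Gromov-Hausdorff convergence of `X i` to `Y`, realised by isometric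
embeddings into a common complete separable metric space `Z`. -/
structure Realisation (X : ℕ → MMSpace) (Y : MMSpace) where
  /-- the common space -/
  Z : Type
  [metric : MetricSpace Z]
  [complete : CompleteSpace Z]
  [separable : TopologicalSpace.SeparableSpace Z]
  /-- the embeddings of the spaces `X i` -/
  emb : ∀ i, X i → Z
  isometry_emb : ∀ i, Isometry (emb i)
  /-- the embedding of the limit space -/
  lim : Y → Z
  isometry_lim : Isometry lim
  /-- the base points -/
  pt : ∀ i, X i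
  /-- the base point of the limit space -/
  ptLim : Y
  tendsto_pt : Tendsto (fun i => emb i (pt i)) atTop (𝓝 (lim ptLim))
  /-- balls of the `X i` are close to balls of `Y` -/
  close_ball : ∀ R ε : ℝ, 0 < ε → ∀ᶠ i in atTop,
    (∀ x : X i, dist x (pt i) < R → ∃ y : Y, dist (emb i x) (lim y) < ε) ∧
    (∀ y : Y, dist y ptLim < R → ∃ x : X i, dist (emb i x) (lim y) < ε)
  /-- the measures converge weakly -/
  weak : ∀ φ : Z → ℝ, Continuous φ → (∃ C, ∀ z, |φ z| ≤ C) →
    Bornology.IsBounded (Function.support φ) →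
    Tendsto (fun i => ∫ x, φ (emb i x) ∂(X i).vol) atTop (𝓝 (∫ y, φ (lim y) ∂Y.vol))

attribute [instance] Realisation.metric Realisation.complete Realisation.separable

section Conv

variable {X : ℕ → MMSpace} {Y : MMSpace} (r : Realisation X Y)

/-- `f i ∈ L²(X i)` converges weakly to `g ∈ L²(Y)`. -/
def WeakConv (f : ∀ i, X i → ℝ) (g : Y → ℝ) : Prop :=
  (∀ i, MemLp (f i) 2 (X i).vol) ∧ MemLp g 2 Y.vol ∧
    (∃ C : ℝ≥0, ∀ i, eLpNorm (f i) 2 (X i).vol ≤ C) ∧
    ∀ φ : r.Z → ℝ, Continuous φ → (∃ C, ∀ z, |φ z| ≤ C) →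
      Bornology.IsBounded (Function.support φ) →
      Tendsto (fun i => ∫ x, φ (r.emb i x) * f i x ∂(X i).vol) atTop
        (𝓝 (∫ y, φ (r.lim y) * g y ∂Y.vol))

/-- `f i ∈ L²(X i)` converges strongly to `g ∈ L²(Y)`. -/
def StrongConv (f : ∀ i, X i → ℝ) (g : Y → ℝ) : Prop :=
  WeakConv r f g ∧
    Tendsto (fun i => eLpNorm (f i) 2 (X i).vol) atTop (𝓝 (eLpNorm g 2 Y.vol))

/-- Mosco convergence of the Cheeger energies. -/
def MoscoConv : Prop :=
  (∀ (f : ∀ i, X i → ℝ) (g : Y → ℝ), WeakConv r f g →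
    cheeger Y.vol g ≤ liminf (fun i => cheeger (X i).vol (f i)) atTop) ∧
  (∀ g : Y → ℝ, MemLp g 2 Y.vol → ∃ f : ∀ i, X i → ℝ, StrongConv r f g ∧
    Tendsto (fun i => cheeger (X i).vol (f i)) atTop (𝓝 (cheeger Y.vol g)))

end Conv

end Pool.Agent.helper65.MMS
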