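import Pool.Agent.helper65.GradFlow

/-!
# The resolvent of a quadratic form
-/

open MeasureTheory Filter Topology Set Metric
open scoped ENNReal NNReal InnerProductSpace

namespace Pool.Agent.helper65.MMS

variable {E : Type*} [NormedAddCommGroup E] [InnerProductSpace ℝ E] {Φ : E → ℝ≥0∞}

theorem IsQuad.zero (hΦ : IsQuad Φ) {f : E} (hf : Φ f ≠ ∞) : Φ 0 = 0 := by
  have h1 := hΦ.par f f
  have h2 := hΦ.smul 2 f (by norm_num)
  have h3 : f + f = (2 : ℝ) • f := (two_smul ℝ f).symm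
  rw [h3, h2, sub_self, show ((2 : ℝ) ^ 2) = 4 by norm_num,
    show ENNReal.ofReal 4 = 4 by norm_num] at h1
  have h4 : 2 * Φ f + 2 * Φ f = 4 * Φ f + 0 := by ring
  rw [h4] at h1
  exact (ENNReal.add_right_inj (ENNReal.mul_ne_top (by norm_num) hf)).1 h1

theorem IsQuad.smul_ne_top (hΦ : IsQuad Φ) {f : E} (hf : Φ f ≠ ∞) (c : ℝ) : Φ (c • f) ≠ ∞ := by
  by_cases hc : c = 0
  · rw [hc, zero_smul, hΦ.zero hf]
    exact ENNReal.zero_ne_top
  · rw [hΦ.smul c f hc]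
    exact ENNReal.mul_ne_top ENNReal.ofReal_ne_top hf

theorem IsQuad.add_sub_ne_top (hΦ : IsQuad Φ) {f g : E} (hf : Φ f ≠ ∞) (hg : Φ g ≠ ∞) :
    Φ (f + g) ≠ ∞ ∧ Φ (f - g) ≠ ∞ := by
  rw [← ENNReal.add_ne_top, hΦ.par]
  exact ENNReal.add_ne_top.2 ⟨ENNReal.mul_ne_top (by norm_num) hf,
    ENNReal.mul_ne_top (by norm_num) hg⟩

/-- real version of the form -/
theorem IsQuad.par_real (hΦ : IsQuad Φ) {f g : E} (hf : Φ f ≠ ∞) (hg : Φ g ≠ ∞) :
    (Φ (f + g)).toReal + (Φ (f - g)).toReal = 2 * (Φ f).toReal + 2 * (Φ g).toReal := by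
  obtain ⟨h1, h2⟩ := hΦ.add_sub_ne_top hf hg
  rw [← ENNReal.toReal_add h1 h2, hΦ.par, ENNReal.toReal_add (ENNReal.mul_ne_top (by norm_num) hf)
    (ENNReal.mul_ne_top (by norm_num) hg), ENNReal.toReal_mul, ENNReal.toReal_mul]
  simp

theorem IsQuad.smul_real (hΦ : IsQuad Φ) {f : E} (hf : Φ f ≠ ∞) (c : ℝ) :
    (Φ (c • f)).toReal = c ^ 2 * (Φ f).toReal := by
  by_cases hc : c = 0
  · rw [hc, zero_smul, hΦ.zero hf]
    simp
  · rw [hΦ.smul c f hc, ENNReal.toReal_mul, ENNReal.toReal_ofReal (by positivity)]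

/-- `z` is the resolvent of `Φ` at `r`. -/
def IsRes (Φ : E → ℝ≥0∞) (r z : E) : Prop :=
  Φ z ≠ ∞ ∧ ∀ h : E, Φ h ≠ ∞ →
    (Φ (z + h)).toReal = (Φ z).toReal + (Φ h).toReal + ⟪r - z, h⟫_ℝ

/-- A minimiser is a resolvent. -/
theorem IsQuad.isRes_of_min (hΦ : IsQuad Φ) {r z : E} (hz : Φ z ≠ ∞)
    (hmin : ∀ x, Φ x ≠ ∞ → (Φ z).toReal + (1 / 2) * ‖z - r‖ ^ 2 ≤
      (Φ x).toReal + (1 / 2) * ‖x - r‖ ^ 2) : IsRes Φ r z := by
  refine ⟨hz, fun h hh => ?_⟩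
  let F : E → ℝ := fun x => (Φ x).toReal + (1 / 2) * ‖x - r‖ ^ 2
  let Q : ℝ := (Φ h).toReal + (1 / 2) * ‖h‖ ^ 2
  have hQ : 0 ≤ Q := add_nonneg ENNReal.toReal_nonneg (by positivity)
  let a : ℝ → ℝ := fun s => F (z + s • h) - F z - s ^ 2 * Q
  have hdom : ∀ s : ℝ, Φ (z + s • h) ≠ ∞ := fun s =>
    (hΦ.add_sub_ne_top hz (hΦ.smul_ne_top hh s)).1
  have hF : ∀ s t : ℝ, F (z + (s + t) • h) + F (z + (s - t) • h) =
      2 * F (z + s • h) + 2 * (t ^ 2 * Q) := by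
    intro s t
    have h1 := hΦ.par_real (hdom s) (hΦ.smul_ne_top hh t)
    have e1 : z + s • h + t • h = z + (s + t) • h := by rw [add_smul]; abel
    have e2 : z + s • h - t • h = z + (s - t) • h := by rw [sub_smul]; abel
    rw [e1, e2, hΦ.smul_real hh] at h1
    have h2 := parallelogram_law_with_norm ℝ (z + s • h - r) (t • h)
    have e3 : z + s • h - r + t • h = z + (s + t) • h - r := by rw [add_smul]; abel
    have e4 : z + s • h - r - t • h = z + (s - t) • h - r := by rw [sub_smul]; abel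
    rw [e3, e4, norm_smul, Real.norm_eq_abs] at h2
    simp only [F, Q]
    rw [mul_pow, sq_abs] at h2
    nlinarith
  have ha : ∀ s t : ℝ, a (s + t) + a (s - t) = 2 * a s := by
    intro s t
    have h1 := hF s t
    simp only [a]
    have h2 : (s + t) ^ 2 * Q + (s - t) ^ 2 * Q = 2 * (s ^ 2 * Q) + 2 * (t ^ 2 * Q) := by ring
    linarith
  have ha0 : a 0 = 0 := by simp [a]
  have hlow : ∀ s, -(s ^ 2 * Q) ≤ a s := by
    intro s
    have := hmin _ (hdom s)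
    simp only [a, F]
    linarith
  have hneg : ∀ s, a (-s) = -a s := by
    intro s
    have := ha 0 s
    rw [ha0, zero_add, zero_sub] at this
    linarith
  have hup : ∀ s, a s ≤ s ^ 2 * Q := by
    intro s
    have h1 := hlow (-s)
    rw [hneg, neg_sq] at h1
    linarith
  have hdouble : ∀ s, a (2 * s) = 2 * a s := by
    intro s
    have := ha s s
    rw [sub_self, ha0, ← two_mul] at this
    linarith
  have hpow : ∀ n : ℕ, a 1 = 2 ^ n * a ((1 / 2) ^ n) := by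
    intro n
    induction n with
    | zero => simp
    | succ n ih =>
      rw [ih]
      have h1 : ((1 : ℝ) / 2) ^ n = 2 * (1 / 2) ^ (n + 1) := by rw [pow_succ]; ring
      rw [h1, hdouble, pow_succ]
      ring
  have habs : ∀ n : ℕ, |a 1| ≤ (1 / 2) ^ n * Q := by
    intro n
    rw [hpow n, abs_mul, abs_of_pos (by positivity : (0 : ℝ) < 2 ^ n)]
    have h1 : |a ((1 / 2) ^ n)| ≤ ((1 / 2) ^ n) ^ 2 * Q := abs_le.2 ⟨hlow _, hup _⟩
    calc (2 : ℝ) ^ n * |a ((1 / 2) ^ n)| ≤ 2 ^ n * (((1 / 2) ^ n) ^ 2 * Q) := by gcongr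
      _ = (2 ^ n * (1 / 2) ^ n) * ((1 / 2) ^ n * Q) := by ring
      _ = _ := by rw [← mul_pow]; norm_num
  have hlim : Tendsto (fun n : ℕ => ((1 : ℝ) / 2) ^ n * Q) atTop (𝓝 0) := by
    simpa using (tendsto_pow_atTop_nhds_zero_of_lt_one (r := (1 / 2 : ℝ)) (by norm_num)
      (by norm_num)).mul_const Q
  have h1 : |a 1| ≤ 0 := ge_of_tendsto' hlim habs
  have h2 : a 1 = 0 := abs_nonpos_iff.1 h1
  simp only [a, F, Q, one_smul] at h2
  have h3 : ‖z + h - r‖ ^ 2 = ‖z - r‖ ^ 2 + 2 * ⟪z - r, h⟫_ℝ + ‖h‖ ^ 2 := by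
    have : z + h - r = (z - r) + h := by abel
    rw [this, norm_add_sq_real]
  rw [h3] at h2
  have h4 : ⟪r - z, h⟫_ℝ = -⟪z - r, h⟫_ℝ := by rw [← inner_neg_left, neg_sub]
  rw [h4]
  linarith

/-- Uniqueness and linearity of the resolvent. -/
theorem IsRes.unique (hΦ : IsQuad Φ) {r z z' : E} (h : IsRes Φ r z) (h' : IsRes Φ r z') :
    z = z' := by
  have hd := (hΦ.add_sub_ne_top h.1 h'.1).2
  have hd' : Φ (z' - z) ≠ ∞ := (hΦ.add_sub_ne_top h'.1 h.1).2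
  have h1 := h.2 _ hd'
  have h2 := h'.2 _ hd
  have e1 : z + (z' - z) = z' := by abel
  have e2 : z' + (z - z') = z := by abel
  rw [e1] at h1
  rw [e2] at h2
  have h3 : ⟪r - z, z' - z⟫_ℝ + ⟪r - z', z - z'⟫_ℝ = ‖z - z'‖ ^ 2 := by
    have e3 : z' - z = -(z - z') := by abel
    rw [e3, inner_neg_right, ← real_inner_self_eq_norm_sq]
    have e4 : ⟪z - z', z - z'⟫_ℝ = ⟪r - z', z - z'⟫_ℝ - ⟪r - z, z - z'⟫_ℝ := by
      rw [← inner_sub_left]
      congr 1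
      abel
    rw [e4]
    ring
  have h4 : ‖z - z'‖ ^ 2 ≤ 0 := by
    have p1 : 0 ≤ (Φ (z' - z)).toReal := ENNReal.toReal_nonneg
    have p2 : 0 ≤ (Φ (z - z')).toReal := ENNReal.toReal_nonneg
    linarith
  have h5 : ‖z - z'‖ = 0 := by
    have := norm_nonneg (z - z')
    nlinarith
  exact sub_eq_zero.1 (norm_eq_zero.1 h5)

theorem IsRes.add (hΦ : IsQuad Φ) {r z r' z' : E} (h : IsRes Φ r z) (h' : IsRes Φ r' z') :
    IsRes Φ (r + r') (z + z') := by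
  refine ⟨(hΦ.add_sub_ne_top h.1 h'.1).1, fun k hk => ?_⟩
  have h1 := h.2 _ (hΦ.add_sub_ne_top h'.1 hk).1
  have h2 := h'.2 _ hk
  have h3 := h.2 _ h'.1
  have e1 : z + (z' + k) = z + z' + k := by abel
  rw [e1] at h1
  have e2 : r + r' - (z + z') = (r - z) + (r' - z') := by abel
  rw [e2, inner_add_left]
  rw [inner_add_right] at h1
  linarith

theorem IsRes.smul (hΦ : IsQuad Φ) {r z : E} (h : IsRes Φ r z) (c : ℝ) :
    IsRes Φ (c • r) (c • z) := by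
  refine ⟨hΦ.smul_ne_top h.1 c, fun k hk => ?_⟩
  by_cases hc : c = 0
  · have h0 : (Φ (0 : E)).toReal = 0 := by rw [hΦ.zero h.1]; simp
    rw [hc]
    simp [h0]
  · have h1 := h.2 (c⁻¹ • k) (hΦ.smul_ne_top hk _)
    have e1 : c • z + k = c • (z + c⁻¹ • k) := by
      rw [smul_add, smul_smul, mul_inv_cancel₀ hc, one_smul]
    rw [e1, hΦ.smul_real (hΦ.add_sub_ne_top h.1 (hΦ.smul_ne_top hk _)).1, h1,
      hΦ.smul_real h.1, hΦ.smul_real hk, real_inner_smul_right, ← smul_sub, real_inner_smul_left]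
    field_simp

theorem IsRes.inner_eq (hΦ : IsQuad Φ) {r z : E} (h : IsRes Φ r z) :
    ⟪r, z⟫_ℝ = ‖z‖ ^ 2 + 2 * (Φ z).toReal := by
  have h1 := h.2 z h.1
  have e1 : z + z = (2 : ℝ) • z := (two_smul ℝ z).symm
  rw [e1, hΦ.smul_real h.1, inner_sub_left, real_inner_self_eq_norm_sq] at h1
  linarith

theorem IsRes.symm_inner {r z r' z' : E} (h : IsRes Φ r z) (h' : IsRes Φ r' z') :
    ⟪z, r'⟫_ℝ = ⟪r, z'⟫_ℝ := by
  have h1 := h.2 z' h'.1
  have h2 := h'.2 z h.1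
  rw [add_comm z' z] at h2
  rw [inner_sub_left] at h1 h2
  have h3 : ⟪r', z⟫_ℝ = ⟪z, r'⟫_ℝ := real_inner_comm _ _
  have h4 : ⟪z', z⟫_ℝ = ⟪z, z'⟫_ℝ := real_inner_comm _ _
  linarith

theorem IsRes.inSubdiff {r z : E} (h : IsRes Φ r z) (hΦ : IsQuad Φ) : InSubdiff Φ z (r - z) := by
  refine ⟨h.1, fun g hg => ?_⟩
  have hd := (hΦ.add_sub_ne_top hg h.1).2
  have h1 := h.2 (g - z) hd
  have e1 : z + (g - z) = g := by abel
  rw [e1] at h1
  have := ENNReal.toReal_nonneg (a := Φ (g - z))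
  linarith

/-- Existence of the resolvent. -/
theorem IsQuad.exists_isRes [CompleteSpace E] (hΦ : IsQuad Φ) (hne : ∃ f, Φ f ≠ ∞) (r : E) :
    ∃ z, IsRes Φ r z := by
  obtain ⟨f0, hf0⟩ := hne
  let F : E → ℝ := fun x => (Φ x).toReal + (1 / 2) * ‖x - r‖ ^ 2
  have hF0 : ∀ x, 0 ≤ F x := fun x => add_nonneg ENNReal.toReal_nonneg (by positivity)
  let S : Set ℝ := F '' {x | Φ x ≠ ∞}
  have hSne : S.Nonempty := ⟨F f0, f0, hf0, rfl⟩
  have hSbdd : BddBelow S := ⟨0, by rintro _ ⟨x, _, rfl⟩; exact hF0 x⟩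
  let I := sInf S
  have hI : ∀ x, Φ x ≠ ∞ → I ≤ F x := fun x hx => csInf_le hSbdd ⟨x, hx, rfl⟩
  have hex : ∀ n : ℕ, ∃ x, Φ x ≠ ∞ ∧ F x < I + 1 / ((n : ℝ) + 1) := by
    intro n
    obtain ⟨y, ⟨x, hx, rfl⟩, hy⟩ := exists_lt_of_csInf_lt hSne
      (lt_add_of_pos_right I (by positivity : (0 : ℝ) < 1 / ((n : ℝ) + 1)))
    exact ⟨x, hx, hy⟩
  choose x hx hxF using hex
  have hpar : ∀ y y', Φ y ≠ ∞ → Φ y' ≠ ∞ → ‖y - y'‖ ^ 2 ≤ 4 * (F y - I) + 4 * (F y' - I) := by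
    intro y y' hy hy'
    obtain ⟨h1, h2⟩ := hΦ.add_sub_ne_top hy hy'
    have h3 := hI _ (hΦ.smul_ne_top h1 (1 / 2))
    have h4 := hΦ.par_real hy hy'
    have h5 := hΦ.smul_real h1 (1 / 2)
    have h6 := parallelogram_law_with_norm ℝ (y - r) (y' - r)
    have e1 : y - r + (y' - r) = (2 : ℝ) • ((1 / 2 : ℝ) • (y + y') - r) := by
      rw [smul_sub, smul_smul, two_smul]
      norm_num
      abel
    have e2 : y - r - (y' - r) = y - y' := by abel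
    rw [e1, e2, norm_smul] at h6
    simp only [Real.norm_ofNat] at h6
    simp only [F] at h3 ⊢
    have h7 : 0 ≤ (Φ (y - y')).toReal := ENNReal.toReal_nonneg
    nlinarith
  have hcau : CauchySeq x := by
    refine Metric.cauchySeq_iff'.2 fun ε hε => ?_
    obtain ⟨N, hN⟩ := exists_nat_gt (8 / ε ^ 2)
    refine ⟨N, fun n hn => ?_⟩
    have h1 := hpar (x n) (x N) (hx n) (hx N)
    have h2 := hxF n
    have h3 := hxF N
    have h4 : 1 / ((n : ℝ) + 1) ≤ 1 / ((N : ℝ) + 1) := by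
      have : (N : ℝ) ≤ n := by exact_mod_cast hn
      gcongr
    have h5 : 8 * (1 / ((N : ℝ) + 1)) < ε ^ 2 := by
      rw [mul_one_div, div_lt_iff₀ (by positivity)]
      rw [div_lt_iff₀ (by positivity)] at hN
      nlinarith [sq_nonneg ε, sq_pos_of_pos hε]
    rw [dist_eq_norm]
    have h6 : ‖x n - x N‖ ^ 2 < ε ^ 2 := by linarith
    exact lt_of_pow_lt_pow_left₀ 2 hε.le h6
  obtain ⟨z, hz⟩ := cauchySeq_tendsto_of_complete hcau
  have hnorm : Tendsto (fun n => (1 / 2) * ‖x n - r‖ ^ 2) atTop (𝓝 ((1 / 2) * ‖z - r‖ ^ 2)) :=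
    (((hz.sub_const r).norm.pow 2).const_mul _)
  have hone : Tendsto (fun n : ℕ => 1 / ((n : ℝ) + 1)) atTop (𝓝 0) :=
    tendsto_one_div_add_atTop_nhds_zero_nat
  have hΦz : Φ z ≤ ENNReal.ofReal (I - (1 / 2) * ‖z - r‖ ^ 2) := by
    refine le_of_forall_lt fun c hc => ?_
    by_contra hcon
    rw [not_lt] at hcon
    obtain ⟨c', hcc', hc'⟩ := exists_between hc
    have hc'top : c' ≠ ∞ := ne_top_of_lt hc'
    have h1 := hz.eventually (hΦ.lsc z c' hc')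
    have h2 : ∀ᶠ n : ℕ in atTop,
        c'.toReal ≤ I + 1 / ((n : ℝ) + 1) - (1 / 2) * ‖x n - r‖ ^ 2 := by
      filter_upwards [h1] with n hn
      have h3 : c'.toReal ≤ (Φ (x n)).toReal := ENNReal.toReal_mono (hx n) hn.le
      have h4 := hxF n
      simp only [F] at h4
      linarith
    have h3 : Tendsto (fun n : ℕ => I + 1 / ((n : ℝ) + 1) - (1 / 2) * ‖x n - r‖ ^ 2) atTop
        (𝓝 (I + 0 - (1 / 2) * ‖z - r‖ ^ 2)) := (hone.const_add I).sub hnorm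
    have h4 := ge_of_tendsto h3 h2
    rw [add_zero] at h4
    have h5 : c' ≤ ENNReal.ofReal (I - (1 / 2) * ‖z - r‖ ^ 2) := by
      rw [← ENNReal.ofReal_toReal hc'top]
      exact ENNReal.ofReal_le_ofReal h4
    exact absurd (hcc'.trans_le h5) (not_lt.2 hcon)
  have hztop : Φ z ≠ ∞ := ne_top_of_le_ne_top ENNReal.ofReal_ne_top hΦz
  have hInn : 0 ≤ I - (1 / 2) * ‖z - r‖ ^ 2 := by
    have h1 : ∀ n : ℕ, 0 ≤ I + 1 / ((n : ℝ) + 1) - (1 / 2) * ‖x n - r‖ ^ 2 := by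
      intro n
      have h4 := hxF n
      have h5 : 0 ≤ (Φ (x n)).toReal := ENNReal.toReal_nonneg
      simp only [F] at h4
      linarith
    have h3 : Tendsto (fun n : ℕ => I + 1 / ((n : ℝ) + 1) - (1 / 2) * ‖x n - r‖ ^ 2) atTop
        (𝓝 (I + 0 - (1 / 2) * ‖z - r‖ ^ 2)) := (hone.const_add I).sub hnorm
    have := ge_of_tendsto' h3 h1
    linarith
  have hFz : (Φ z).toReal ≤ I - (1 / 2) * ‖z - r‖ ^ 2 := ENNReal.toReal_le_of_le_ofReal hInn hΦz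
  refine ⟨z, hΦ.isRes_of_min hztop fun y hy => ?_⟩
  have := hI y hy
  simp only [F] at this
  linarith

end Pool.Agent.helper65.MMS
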